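import Pool.Agent.Lib.MP_696deb_nt.Sa.GenC
import Pool.Agent.Lib.MP_696deb_nt.Sm.Box

/-! Most Legendre matrices are generic. -/

set_option autoImplicit false

open Finset
open scoped Classical

namespace Pool.Agent.Lib.MP_696deb_nt.Sa
open Sm

/-- The small primes that do not divide 30. -/
abbrev QQ (B : Box) : Type := {q : B.Q0 // ¬ (q : ℕ) ∣ 30}

/-- The small part of a row of the Legendre matrix. -/
noncomputable def srow (B : Box) (q : QQ B) (u : B.Sg → F2) : F2 :=
  ∑ g, u g * if g = some q.1 then 0 else aleg q.1 (B.sgen g)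

noncomputable def gd (B : Box) (A1 A2 B2 : ℤ) : GD (Fin B.r) B.Sg (QQ B) where
  lam := AddMonoidHom.mk' B.nu fun u v => by
    funext j; simp [Box.nu, add_mul, sum_add_distrib]
  cor := AddMonoidHom.mk' (fun w j => ∑ i, (w i + w j) *
      if i < j then aleg (B.rep i) (-1) * aleg (B.rep j) (-1) else 0) fun u v => by
    funext j
    simp only [Pi.add_apply, ← sum_add_distrib]
    exact sum_congr rfl fun i _ => by ring
  l q j := aleg q.1 (B.rep j)
  h1 u q := srow B q u + u (some q.1) *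
    (srow B q (B.spat B.D0 + B.spat A1) + ∑ j, aleg q.1 (B.rep j))
  h2 := AddMonoidHom.mk' (fun u q => srow B q u + u (some q.1) *
      (srow B q (B.spat B.D0 + B.spat B2) + ∑ j, aleg q.1 (B.rep j))) fun u v => by
    funext q
    simp only [srow, Pi.add_apply, add_mul, sum_add_distrib]
    ring
  h3 u q := u (some q.1) * srow B q (B.spat A2)
  u1 := B.spat B.D0 + B.spat A1
  u2 := B.spat B.D0 + B.spat B2
  u3 := B.spat A2
  I := B.I

/-- A pattern as a pair. -/
def spl (B : Box) (A : B.Pat) : (B.Sg → F2) × (Fin B.r → F2) := (fun g => A (.inl g), B.lg A)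

variable {B : Box} {A1 B1 A2 B2 : ℤ}

theorem spat_mul {x y : ℤ} (hx : x ≠ 0) (hy : y ≠ 0) : B.spat (x * y) = B.spat x + B.spat y := by
  funext g
  rcases g with _ | q
  · change (if x * y < 0 then 1 else 0 : F2) = (if x < 0 then 1 else 0) + if y < 0 then 1 else 0
    rcases hx.lt_or_gt with h | h <;> rcases hy.lt_or_gt with k | k <;>
      simp [mul_neg_iff, h, k, h.not_gt, k.not_gt, CharTwo.add_self_eq_zero]
  · have := Fact.mk (Nat.prime_of_mem_primeFactors q.2)
    change ((padicValInt q (x * y) : ℕ) : F2) = (padicValInt q x : F2) + padicValInt q y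
    rw [padicValInt.mul hx hy, Nat.cast_add]

theorem spat_sq {x : ℤ} (hx : x ≠ 0) (h : IsSquare x) : B.spat x = 0 := by
  obtain ⟨y, rfl⟩ := h
  rw [spat_mul (left_ne_zero_of_mul hx) (left_ne_zero_of_mul hx), genc_two]

theorem gen_mem (hD : B.D0 ≠ 0) {p : ℕ} (hp : p.Prime) (h : p ∣ 30) : p ∈ B.Q0 :=
  Nat.mem_primeFactors.2 ⟨hp, h.mul_right _, by simpa using hD⟩

theorem sq_of_spat (hD : B.D0 ≠ 0) {x : ℤ} (hx : x ≠ 0)
    (h30 : ∀ p : ℕ, p.Prime → (p : ℤ) ∣ x → p ∣ 30) (h : B.spat x = 0) : IsSquare x := by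
  have h0 : 0 ≤ x := not_lt.1 fun k => by
    have h1 : (if x < 0 then 1 else 0 : F2) = 0 := congrFun h none
    simp [k] at h1
  lift x to ℕ using h0
  rw [Int.isSquare_natCast_iff]
  have hx' : x ≠ 0 := by simpa using hx
  refine ⟨∏ p ∈ x.primeFactors, p ^ (x.factorization p / 2), ?_⟩
  rw [← prod_mul_distrib]
  refine (Nat.prod_factorization_pow_eq_self hx').symm.trans (prod_congr rfl fun p hp => ?_)
  have h1 := Nat.prime_of_mem_primeFactors hp
  have h2 : ((padicValInt p x : ℕ) : F2) = 0 := congrFun h (some ⟨p, gen_mem hD h1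
    (h30 p h1 (Int.natCast_dvd_natCast.2 (Nat.dvd_of_mem_primeFactors hp)))⟩)
  rw [padicValInt.of_nat, ← Nat.factorization_def _ h1, ZMod.natCast_eq_zero_iff] at h2
  rw [← pow_add]
  congr 1
  omega

theorem gen_lin (a : B.Mat) (k : B.Ix) (P Q R : B.Pat) (s t : F2) :
    B.lam a k (P + s • Q + t • R) = B.lam a k P + s * B.lam a k Q + t * B.lam a k R := by
  simp only [Box.lam, Pi.add_apply, Pi.smul_apply, smul_eq_mul, add_mul, sum_add_distrib, mul_sum,
    mul_assoc]

theorem gen_r (a : B.Mat) (j : Fin B.r) (P : B.Pat) : B.lam a (.inr j) P =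
    B.nu (fun g => P (.inl g)) j + ∑ i, P (.inr i) * (symm a i j +
      if i < j then aleg (B.rep i) (-1) * aleg (B.rep j) (-1) else 0) :=
  Fintype.sum_sum_type _

theorem gen_l (a : B.Mat) (q : QQ B) (P : B.Pat) : B.lam a (.inl (some q.1)) P =
    srow B q (fun g => P (.inl g)) + ∑ j, P (.inr j) * aleg q.1 (B.rep j) :=
  Fintype.sum_sum_type _

theorem gen_pi {p : B.Ix → Prop} :
    (∀ k, B.PI k → p k) ↔ (∀ j, p (.inr j)) ∧ ∀ q : QQ B, p (.inl (some q.1)) := by
  refine ⟨fun h => ⟨fun j => h _ trivial, fun q => h _ ⟨q.1, rfl, q.2⟩⟩, ?_⟩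
  rintro ⟨h1, h2⟩ (g | j) h
  · obtain ⟨q, rfl, hq⟩ := h
    exact h2 ⟨q, hq⟩
  · exact h1 j

theorem rel_iff (h : B.spat B1 = 0) (a : B.Mat) (P : B.Pat × B.Pat) :
    B.Rel A1 B1 A2 B2 a P ↔ (gd B A1 A2 B2).Rel a (spl B P.1, spl B P.2) := by
  have h0 : ∀ k, B.lam a k (B.pat B1) = 0 := fun k => sum_eq_zero fun k' _ => by
    rcases k' with g | j
    · rw [show B.pat B1 (.inl g) = 0 from congrFun h g, zero_mul]
    · exact zero_mul _
  have e1 : ∀ {x y : F2}, x = y → (x = 0 ↔ y = 0) := fun h => by rw [h]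
  have e2 : ∀ {x y z : F2}, x = y + z → (x = 0 ↔ y = z) := fun h => by
    rw [h, CharTwo.add_eq_zero]
  rw [Box.Rel, gen_pi, forall_and, forall_and, and_and_and_comm]
  simp only [gen_lin, h0, gen_r, gen_l]
  refine and_congr (and_congr (forall_congr' fun j => e1 ?_) (forall_congr' fun j => e2 ?_))
    (and_congr (forall_congr' fun j => e1 ?_) (forall_congr' fun j => e2 ?_)) <;>
  · simp only [gd, spl, LL, Box.lg, Box.dD, Box.pat, Box.nu, srow, AddMonoidHom.mk'_apply, Pi.add_apply,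
      Sum.elim_inl, Sum.elim_inr, Pi.zero_apply, Pi.one_apply, add_mul, mul_add, zero_mul, one_mul,
      sum_add_distrib, mul_sum, sum_const_zero]
    ring

theorem gd_ok {c : ℕ} (h : B.Hyp c) (hc : 1 ≤ c) (h0 : A1 * B1 * A2 * B2 ≠ 0)
    (h30 : ∀ p : ℕ, p.Prime → (p : ℤ) ∣ A1 * B1 * A2 * B2 → p ∣ 30)
    (hAB : IsSquare (-(A1 * B2))) (hA2 : ¬ IsSquare (-A2)) : (gd B A1 A2 B2).OK B.H := by
  have hD := h.wf.sqf.ne_zero
  have H1 : 1 ≤ B.H := (Nat.mul_pos hc (Nat.succ_pos _)).trans_le h.hH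
  simp only [mul_ne_zero_iff] at h0
  obtain ⟨⟨⟨a1, -⟩, a2⟩, b2⟩ := h0
  have m1 : B.spat (-1) ≠ 0 := fun k => absurd (congrFun k none) (by simp [Box.spat])
  have e : (gd B A1 A2 B2).u1 + (gd B A1 A2 B2).u2 = B.spat (-1) := by
    have h1 := spat_sq (B := B) (by simp [a1, b2]) hAB
    rw [← neg_one_mul, spat_mul (by simp) (by simp [a1, b2]), spat_mul a1 b2] at h1
    change B.spat B.D0 + B.spat A1 + (B.spat B.D0 + B.spat B2) = _
    rw [add_add_add_comm, genc_two, zero_add, eq_neg_of_add_eq_zero_left h1]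
    exact eq_neg_of_add_eq_zero_left (genc_two _)
  refine ⟨funext fun j => ?_, fun u hu => ?_, ?_, e ▸ m1, fun k => hA2 ?_,
    h.b1, h.win, H1⟩
  · simp [gd, CharTwo.add_self_eq_zero]
  · let v : B.Sg → F2 := fun g => g.elim (∑ q : QQ B, u q * if (q.1 : ℕ) % 4 = 1 then 0 else 1)
      fun q => if k : ¬ (q : ℕ) ∣ 30 then u ⟨q, k⟩ else 0
    have h1 : ∀ j, B.nu v j = 0 := fun j => by
      have hj : B.rep j ∈ B.X j := Nat.sInf_mem (h.wf.ne j)
      have hp := h.wf.prime j _ hj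
      have hn := h.wf.cop j _ hj
      have h2 : B.rep j ≠ 2 := fun k => hn (by rw [k]; exact Dvd.dvd.mul_right (by norm_num) _)
      have h3 : ∑ q : QQ B, u q * aleg q.1 (B.rep j) = 0 := by simpa [gd] using congrFun hu j
      have h4 : ∑ q : B.Q0, v (some q) * aleg (B.rep j) q =
          ∑ q : QQ B, u q * aleg (B.rep j) q.1 := by
        rw [← Fintype.sum_subtype_add_sum_subtype fun q : B.Q0 => ¬ (q : ℕ) ∣ 30]
        exact (congrArg₂ _ (sum_congr rfl fun q _ => congrArg (· * _) (dif_pos q.2))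
          (sum_eq_zero fun q _ => mul_eq_zero_of_left (dif_neg q.2) _)).trans (add_zero _)
      rw [Box.nu, Fintype.sum_option, ← h3]
      refine (congrArg _ h4).trans ?_
      simp only [v, Option.elim, Box.sgen, sum_mul, ← sum_add_distrib]
      refine sum_congr rfl fun q _ => ?_
      have hq := Nat.prime_of_mem_primeFactors q.1.2
      have h5 : B.rep j ≠ q.1 := fun k => hn (by
        rw [k]
        exact Int.natCast_dvd.2 (by simpa [Int.natAbs_mul] using Nat.dvd_of_mem_primeFactors q.1.2))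
      rw [← aleg_pstar hp hq h2 (fun k => q.2 (by rw [k]; norm_num)) h5, pstar]
      split_ifs
      · ring
      · rw [← neg_one_mul ((q.1 : ℕ) : ℤ), aleg_mul hp
          (fun k => (Nat.prime_iff_prime_int.1 hp).not_dvd_one (dvd_neg.1 k))
          (not_dvd_of_natAbs_eq hp hq h5 (by simp))]
        ring
    have h6 : v = 0 := by
      by_contra k
      obtain ⟨j, hj⟩ := card_pos.1 (H1.trans (h.b1 v k))
      exact zero_ne_one ((h1 j).symm.trans (mem_filter.1 hj).2)
    funext q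
    exact (dif_pos q.2).symm.trans (congrFun h6 (some q.1))
  · rw [Fintype.card_option, Fintype.card_subtype_compl]
    have h1 : Fintype.card {q : B.Q0 // (q : ℕ) ∣ 30} ≤ (Nat.primeFactors 30).card := by
      rw [← Fintype.card_coe]
      exact Fintype.card_le_of_injective (fun q => ⟨q.1.1, Nat.mem_primeFactors.2
        ⟨Nat.prime_of_mem_primeFactors q.1.2, q.2, by norm_num⟩⟩) fun q q' k =>
          Subtype.ext (Subtype.ext (Subtype.mk.inj k))
    have h2 : (Nat.primeFactors 30).card = 3 := by decide +kernel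
    omega
  · refine sq_of_spat hD (by simpa using a2) (fun p hp k => h30 p hp
      (((dvd_neg.1 k).mul_left _).mul_right _)) ?_
    rw [← neg_one_mul, spat_mul (by simp) a2, ← e]
    exact k

theorem generic_of (h : B.spat B1 = 0) (hr : 0 < B.r) {K : ℕ} (hK : 0 < K) {a : B.Mat}
    (hg : (gd B A1 A2 B2).Gen K a) : B.Generic A1 B1 A2 B2 K a := by
  have hc : ∀ w : Fin B.r → F2, Box.Cst w ↔ Cst w := fun w =>
    ⟨fun k i j => by rcases k with rfl | rfl <;> rfl, genc_cst⟩
  have := hr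
  refine ⟨le_trans (card_le_card_of_injOn (fun P => (spl B P.1, spl B P.2)) (fun P hP => ?_)
    fun P _ P' _ k => ?_) hg.1, fun P P' h1 h2 h3 k => ?_, fun h1 P h2 h3 =>
      (hc _).2 (hg.2.2 h1 _ ((rel_iff h a P).1 h2) ((hc _).1 h3))⟩
  · simpa using (rel_iff h a P).1 (by simpa using hP)
  · have e : ∀ {A A' : B.Pat}, spl B A = spl B A' → A = A' := fun k => funext fun i => by
      rcases i with g | j
      · exact congrFun (congrArg Prod.fst k) g
      · exact congrFun (congrArg Prod.snd k) j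
    exact Prod.ext (e (congrArg Prod.fst k)) (e (congrArg Prod.snd k))
  · have h4 := hg.2.1 _ _ ((rel_iff h a P).1 h1) ((rel_iff h a P').1 h2)
      (fun k => h3 ⟨(hc _).2 k.1, (hc _).2 k.2⟩) k
    rw [le_div_iff₀' (by positivity)] at h4
    have e : ∀ b : F2, sg b = (sn b : ℝ) := fun b => by unfold sg sn; split_ifs <;> simp
    simp only [e] at h4
    exact_mod_cast h4

end Pool.Agent.Lib.MP_696deb_nt.Sa

namespace Pool.Agent.Lib.MP_696deb_nt.Sm
open Sa

theorem gen_main' {A1 B1 A2 B2 : ℤ} (h0 : A1 * B1 * A2 * B2 ≠ 0)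
    (h30 : ∀ p : ℕ, p.Prime → (p : ℤ) ∣ A1 * B1 * A2 * B2 → p ∣ 30) (hB1 : IsSquare B1)
    (hAB : IsSquare (-(A1 * B2))) (hA2 : ¬ IsSquare (-A2)) {ε : ℝ} (hε : 0 < ε) :
    ∃ K c : ℕ, ∀ B : Box, B.Hyp c →
      (({a | ¬ B.Generic A1 B1 A2 B2 K a} : Finset B.Mat).card : ℝ) ≤ ε * Fintype.card B.Mat := by
  obtain ⟨K, C, hK, h⟩ := gen_abs hε
  refine ⟨K, max C 1, fun B hB => ?_⟩
  have ok := gd_ok hB (le_max_right _ _) h0 h30 hAB hA2
  have h1 : B.spat B1 = 0 :=
    spat_sq (fun k => h0 (by rw [k, mul_zero, zero_mul, zero_mul])) hB1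
  refine le_trans (Nat.cast_le.2 (card_le_card fun a ha => ?_))
    (h _ _ _ (gd B A1 A2 B2) B.H ok (le_trans ?_ hB.hH))
  · exact mem_filter.2 ⟨mem_univ _, fun k => (mem_filter.1 ha).2
      (generic_of h1 (Fin.pos_iff_nonempty.2 (GD.genc_ne ok)) hK k)⟩
  · rw [Fintype.card_option, Fintype.card_coe]
    exact Nat.mul_le_mul_right _ (le_max_left _ _)

end Pool.Agent.Lib.MP_696deb_nt.Sm
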