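import Pool.Agent.Lib.MP_696deb_nt.Sa.AnD

/-! Good integers: small classes of primes. -/

set_option autoImplicit false

open Finset
open scoped Classical

namespace Pool.Agent.Lib.MP_696deb_nt.Sa

theorem anB_pf (d : ℕ) : (30 * d).primeFactors.card ≤ d.primeFactors.card + 3 := by
  rcases eq_or_ne d 0 with rfl | hd
  · simp
  · have h : (30 : ℕ).primeFactors.card ≤ 3 := by
      have e : (30 : ℕ) = ∏ p ∈ ({2, 3, 5} : Finset ℕ), p := by decide
      rw [e, Nat.primeFactors_prod (by decide)]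
      decide
    rw [Nat.primeFactors_mul (by norm_num) hd]
    exact (card_union_le _ _).trans (by omega)

theorem card_cls (m X d : ℕ) : (((Ioc (YY m) X).image (Cl m X d)).card : ℝ) ≤
    (Real.log X * (m : ℝ) ^ 11 + 1) * 8 * 2 ^ (d.primeFactors.card + 3) := by
  let g : ℕ × ℕ × ((30 * d).primeFactors → ZMod 2) → Finset ℕ := fun t =>
    (Ioc (YY m) X).filter fun p' => p'.Prime ∧ kap m p' = t.1 ∧ p' % 8 = t.2.1 ∧
      ∀ q : (30 * d).primeFactors, q.1 ≠ 2 → aleg q.1 p' = t.2.2 q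
  have hs : (Ioc (YY m) X).image (Cl m X d) ⊆
      (range (kap m X + 1) ×ˢ range 8 ×ˢ univ).image g := by
    intro C hC
    obtain ⟨p, hp, rfl⟩ := mem_image.1 hC
    obtain ⟨p1, p2⟩ := mem_Ioc.1 hp
    refine mem_image.2 ⟨(kap m p, p % 8, fun q => aleg q.1 p), ?_, ?_⟩
    · simp only [mem_product, mem_range, mem_univ, and_true]
      refine ⟨Nat.lt_succ_of_le (Nat.floor_le_floor ?_), Nat.mod_lt _ (by norm_num)⟩
      have h0 : (0 : ℝ) < p := by exact_mod_cast (Nat.zero_le _).trans_lt p1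
      exact mul_le_mul_of_nonneg_right (Real.log_le_log h0 (by exact_mod_cast p2)) (by positivity)
    · ext x
      simp only [g, Cl, mem_filter, Subtype.forall]
  have h1 := (card_le_card hs).trans card_image_le
  rw [card_product, card_product, card_range, card_range, card_univ, Fintype.card_fun, ZMod.card,
    Fintype.card_coe] at h1
  have h2 : (kap m X : ℝ) ≤ Real.log X * (m : ℝ) ^ 11 :=
    Nat.floor_le (mul_nonneg (Real.log_natCast_nonneg X) (by positivity))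
  have h3 : (2 : ℝ) ^ (30 * d).primeFactors.card ≤ 2 ^ (d.primeFactors.card + 3) :=
    pow_le_pow_right₀ one_le_two (anB_pf d)
  calc _ ≤ (((kap m X + 1) * (8 * 2 ^ (30 * d).primeFactors.card) : ℕ) : ℝ) := by exact_mod_cast h1
    _ = ((kap m X : ℝ) + 1) * 8 * 2 ^ (30 * d).primeFactors.card := by push_cast; ring
    _ ≤ _ := by
      have := (Nat.cast_nonneg (kap m X)).trans h2
      gcongr

theorem anB_self {m X d p : ℕ} (h : p ∈ Ioc (YY m) X) (hp : p.Prime) : p ∈ Cl m X d p := by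
  simp only [Cl, mem_filter]
  exact ⟨h, hp, trivial, trivial, fun _ _ _ => trivial⟩

theorem sum_small_cls (m X d : ℕ) {θ : ℝ} (hθ : 0 ≤ θ) :
    ∑ p ∈ (Ioc (YY m) X).filter (fun p => p.Prime ∧ ((Cl m X d p).card : ℝ) < θ * p), (1 / p : ℝ) ≤
      θ * ((Ioc (YY m) X).image (Cl m X d)).card := by
  rw [← sum_fiberwise_of_maps_to (t := (Ioc (YY m) X).image (Cl m X d)) (g := Cl m X d)
    fun p hp => mem_image_of_mem _ (mem_filter.1 hp).1, mul_comm, ← nsmul_eq_mul]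
  refine sum_le_card_nsmul _ _ _ fun C _ => ?_
  rcases C.eq_empty_or_nonempty with rfl | hC
  · refine le_trans (le_of_eq (sum_eq_zero fun p hp => ?_)) hθ
    obtain ⟨h1, h2⟩ := mem_filter.1 hp
    obtain ⟨h3, h4, -⟩ := mem_filter.1 h1
    have : p ∈ Cl m X d p := anB_self h3 h4
    rw [h2] at this
    exact absurd this (notMem_empty p)
  have hc : (0 : ℝ) < C.card := by exact_mod_cast card_pos.2 hC
  refine (sum_le_card_nsmul _ _ (θ / C.card) fun p hp => ?_).trans ?_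
  · obtain ⟨h1, h2⟩ := mem_filter.1 hp
    obtain ⟨-, h4, h5⟩ := mem_filter.1 h1
    have h0 : (0 : ℝ) < p := by exact_mod_cast h4.pos
    rw [h2] at h5
    rw [div_le_div_iff₀ h0 hc]
    linarith
  · rw [nsmul_eq_mul, mul_div_assoc', div_le_iff₀ hc, mul_comm]
    refine mul_le_mul_of_nonneg_left (Nat.cast_le.2 (card_le_card fun p hp => ?_)) hθ
    obtain ⟨h1, h2⟩ := mem_filter.1 hp
    obtain ⟨h3, h4, -⟩ := mem_filter.1 h1
    rw [← h2]
    exact anB_self h3 h4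

theorem anB_num {m : ℕ} (hm : 20 ≤ m) :
    (1 + (m : ℝ) ^ 25) * ((1 / 2) ^ m ^ 5 * ((2 ^ (16 * m ^ 4) * (m : ℝ) ^ 11 + 1) * 8 *
      2 ^ (m + 3))) ≤ (1 / 2) ^ m := by
  have h0 : (m : ℝ) ≤ 2 ^ m := by exact_mod_cast (Nat.lt_two_pow_self (n := m)).le
  have hk : ∀ k : ℕ, (m : ℝ) ^ k ≤ 2 ^ (m * k) := fun k => by
    rw [pow_mul]
    gcongr
  have h1 : 1 + (m : ℝ) ^ 25 ≤ 2 ^ (m * 25 + 1) := by
    have := one_le_pow₀ (n := m * 25) (one_le_two (α := ℝ))
    rw [pow_succ (2 : ℝ)]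
    linarith [hk 25]
  have h2 : 2 ^ (16 * m ^ 4) * (m : ℝ) ^ 11 + 1 ≤ 2 ^ (16 * m ^ 4 + m * 11 + 1) := by
    have := one_le_pow₀ (n := 16 * m ^ 4 + m * 11) (one_le_two (α := ℝ))
    have h3 : 2 ^ (16 * m ^ 4) * (m : ℝ) ^ 11 ≤ 2 ^ (16 * m ^ 4 + m * 11) := by
      rw [pow_add]
      exact mul_le_mul_of_nonneg_left (hk 11) (by positivity)
    rw [pow_succ (2 : ℝ)]
    linarith
  have h3 : m * 25 + 1 + (16 * m ^ 4 + m * 11 + 1 + 3 + (m + 3)) + m ≤ m ^ 5 := by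
    have a1 : 20 ^ 3 ≤ m ^ 3 := Nat.pow_le_pow_left hm 3
    have a2 : 20 ^ 3 * m ≤ m ^ 4 := by rw [pow_succ m 3]; exact Nat.mul_le_mul_right m a1
    have a3 : m ^ 4 * 20 ≤ m ^ 5 := by rw [pow_succ m 4]; exact Nat.mul_le_mul_left _ hm
    omega
  have h4 := pow_le_pow_right₀ (one_le_two (α := ℝ)) h3
  calc _ ≤ (2 : ℝ) ^ (m * 25 + 1) * ((1 / 2) ^ m ^ 5 * (2 ^ (16 * m ^ 4 + m * 11 + 1) * 8 *
        2 ^ (m + 3))) := by gcongr
    _ = 2 ^ (m * 25 + 1 + (16 * m ^ 4 + m * 11 + 1 + 3 + (m + 3)) + m) / 2 ^ m ^ 5 *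
        (1 / 2) ^ m := by
      rw [pow_add _ _ m, pow_add _ (m * 25 + 1), pow_add _ _ (m + 3),
        pow_add _ (16 * m ^ 4 + m * 11 + 1) 3, one_div_pow, one_div_pow]
      field_simp
      norm_num
    _ ≤ 1 * (1 / 2) ^ m := by
      gcongr
      exact (div_le_one (by positivity)).2 h4
    _ = _ := one_mul _

theorem rare4 : Rare fun m X n => Squarefree n ∧ G2 m n ∧ ¬ G4 m X n := by
  intro ε hε
  obtain ⟨m1, h1⟩ := exists_pow_lt_of_lt_one hε (show (1 / 2 : ℝ) < 1 by norm_num)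
  refine ⟨max m1 20, fun m hm X hX => ?_⟩
  have hm1 : m1 ≤ m := le_of_max_le_left hm
  have hm2 : 20 ≤ m := le_of_max_le_right hm
  have hε' : (1 / 2 : ℝ) ^ m ≤ ε :=
    (pow_le_pow_of_le_one (by norm_num) (by norm_num) hm1).trans h1.le
  obtain ⟨D, hD⟩ : ∃ D, D = (Icc 1 (YY m ^ m)).filter fun d => d.primeFactors.card ≤ m := ⟨_, rfl⟩
  obtain ⟨S, hS⟩ : ∃ S : ℕ → Finset ℕ, ∀ d, S d = (Ioc (YY m) X).filter
    (fun p => p.Prime ∧ ((Cl m X d p).card : ℝ) < (1 / 2) ^ m ^ 5 * p) := ⟨_, fun _ => rfl⟩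
  obtain ⟨B, hB⟩ : ∃ B : ℝ, B = (1 / 2) ^ m ^ 5 * ((2 ^ (16 * m ^ 4) * (m : ℝ) ^ 11 + 1) * 8 *
      2 ^ (m + 3)) := ⟨_, rfl⟩
  have hB0 : 0 ≤ B := by rw [hB]; positivity
  have hs : ∀ d ∈ D, ∑ p ∈ S d, (1 / p : ℝ) ≤ B := fun d hd => by
    rw [hS, hB]
    refine (sum_small_cls m X d (by positivity)).trans
      (mul_le_mul_of_nonneg_left ((card_cls m X d).trans ?_) (by positivity))
    have := hX.log_le (by omega)
    have h2 := (mem_filter.1 (hD ▸ hd)).2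
    gcongr
    exact one_le_two
  have key : ∀ T : Finset ℕ, (∀ n ∈ T, n ∈ Icc 1 X ∧ Squarefree n ∧ G2 m n ∧ ¬ G4 m X n) →
      (T.card : ℝ) ≤ ε * X := fun T hT => by
    have hsub : T ⊆ D.biUnion fun d => (S d).biUnion fun p => (Ioc 0 X).filter (d * p ∣ ·) := by
      intro n hn
      obtain ⟨a1, a2, a3, a4⟩ := hT n hn
      obtain ⟨b1, b2⟩ := mem_Icc.1 a1
      simp only [G4, not_forall, not_le] at a4
      obtain ⟨p, hp, a4⟩ := a4
      obtain ⟨c1, c2⟩ := mem_filter.1 hp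
      refine mem_biUnion.2 ⟨d0 m n, ?_, mem_biUnion.2 ⟨p, ?_, mem_filter.2
        ⟨mem_Ioc.2 ⟨b1, b2⟩, ?_⟩⟩⟩
      · rw [hD]
        exact mem_filter.2 ⟨mem_Icc.2 ⟨Nat.pos_of_ne_zero (d0_sq m n).ne_zero, d0_le a3⟩,
          by rw [d0_pf]; exact a3⟩
      · rw [hS]
        exact mem_filter.2 ⟨mem_Ioc.2 ⟨c2, (Nat.le_of_mem_primeFactors c1).trans b2⟩,
          Nat.prime_of_mem_primeFactors c1, a4⟩
      · conv_rhs => rw [← d0_mul (m := m) a2]
        exact mul_dvd_mul_left _ (dvd_prod_of_mem _ hp)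
    have h2 : T.card ≤ ∑ d ∈ D, ∑ p ∈ S d, X / (d * p) :=
      (card_le_card hsub).trans (card_biUnion_le.trans (sum_le_sum fun d _ =>
        card_biUnion_le.trans (sum_le_sum fun p _ => (Nat.Ioc_filter_dvd_card_eq_div _ _).le)))
    have hX0 : (0 : ℝ) ≤ X := Nat.cast_nonneg X
    calc (T.card : ℝ) ≤ ∑ d ∈ D, ∑ p ∈ S d, ((X / (d * p) : ℕ) : ℝ) := by exact_mod_cast h2
      _ ≤ ∑ d ∈ D, (1 / d : ℝ) * (B * X) := by
        refine sum_le_sum fun d hd => ?_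
        calc _ ≤ ∑ p ∈ S d, (1 / d : ℝ) * ((1 / p : ℝ) * X) := sum_le_sum fun p _ => by
              refine Nat.cast_div_le.trans (le_of_eq ?_)
              push_cast
              ring
          _ = (1 / d : ℝ) * ((∑ p ∈ S d, (1 / p : ℝ)) * X) := by rw [← mul_sum, ← sum_mul]
          _ ≤ _ := by
            have := hs d hd
            gcongr
      _ ≤ (1 + (m : ℝ) ^ 25) * (B * X) := by
        rw [← sum_mul]
        refine mul_le_mul_of_nonneg_right (le_trans ?_ (sum_inv_d0 m)) (by positivity)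
        rw [hD]
        exact sum_le_sum_of_subset_of_nonneg (filter_subset _ _) fun _ _ _ => by positivity
      _ ≤ ε * X := by
        rw [← mul_assoc, hB]
        exact mul_le_mul_of_nonneg_right ((anB_num hm2).trans hε') hX0
  exact key _ fun n hn => by simpa only [mem_filter] using hn

end Pool.Agent.Lib.MP_696deb_nt.Sa
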