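import Pool.Agent.Lib.MP_696deb_nt.Sa.AnD

/-! Good integers: every quadratic character of small conductor sees many inert primes. -/

set_option autoImplicit false

open Finset
open scoped Classical NumberTheorySymbols

namespace Pool.Agent.Lib.MP_696deb_nt.Sa

/-- The quadratic character attached to an integer, on odd numbers. -/
def jz (e : ℤ) (n : ℕ) : ℤ := if Odd n then J(e | n) else 0

theorem anc_odd {e : ℤ} {n : ℕ} (h : Odd n) : jz e n = J(e | n) := if_pos h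

theorem anc_even {e : ℤ} {n : ℕ} (h : ¬ Odd n) : jz e n = 0 := if_neg h

theorem anc_cop {e : ℤ} {a : ℕ} (h : jz e a = -1) : a.Coprime (4 * e.natAbs) := by
  have ho : Odd a := by
    by_contra hc
    rw [anc_even hc] at h
    omega
  rw [anc_odd ho] at h
  have : NeZero a := ⟨ho.pos.ne'⟩
  refine Nat.Coprime.mul_right ((Nat.coprime_two_right.2 ho).pow_right 2) ?_
  by_contra hc
  have := jacobiSym.eq_zero_iff_not_coprime.2 (show e.gcd a ≠ 1 by
    rw [Int.gcd, Int.natAbs_natCast, Nat.gcd_comm]; exact hc)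
  omega

theorem anc_neg {p : ℕ} (hp : p.Prime) (hp2 : p ≠ 2) {k : ℤ} (hk : k ≠ 0)
    (hpk : p.Coprime k.natAbs) : ∃ a : ℕ, jz (p * k) a = -1 := by
  have : Fact p.Prime := ⟨hp⟩
  obtain ⟨x, hx⟩ := FiniteField.exists_nonsquare (F := ZMod p) (by rwa [ZMod.ringChar_zmod_n])
  have h4 : p.Coprime (4 * k.natAbs) :=
    Nat.Coprime.mul_right (((Nat.coprime_primes hp Nat.prime_two).2 hp2).pow_right 2) hpk
  obtain ⟨a, h1, h2⟩ := Nat.chineseRemainder h4 x.val 1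
  have a4 : a % 4 = 1 := h2.of_mul_right k.natAbs
  have ao : Odd a := Nat.odd_iff.2 (by omega)
  have j1 : J(a | p) = -1 := by
    rw [← ZMod.nonsquare_iff_jacobiSym_eq_neg_one.symm]
    have : ((a : ℤ) : ZMod p) = x := by
      rw [Int.cast_natCast, (ZMod.natCast_eq_natCast_iff _ _ _).2 h1, ZMod.natCast_zmod_val]
    rwa [this]
  have j2 : J(k | a) = 1 := by
    have h3 : a % (4 * k.natAbs) = 1 := by
      have := Int.natAbs_pos.2 hk
      rw [h2, Nat.mod_eq_of_lt (by omega)]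
    rw [jacobiSym.mod_right k ao, h3, jacobiSym.one_right]
  refine ⟨a, ?_⟩
  rw [anc_odd ao, jacobiSym.mul_left, j2, mul_one,
    ← jacobiSym.quadratic_reciprocity_one_mod_four a4 (hp.odd_of_ne_two hp2), j1]

theorem exists_jz_neg {e : ℤ} (he : Squarefree e) (h1 : e ≠ 1) :
    ∃ a : ℕ, a.Coprime (4 * e.natAbs) ∧ jz e a = -1 := by
  suffices h : ∃ a : ℕ, jz e a = -1 from h.imp fun a ha => ⟨anc_cop ha, ha⟩
  have hN : Squarefree e.natAbs := Int.squarefree_natAbs.2 he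
  by_cases h : ∃ p : ℕ, p.Prime ∧ p ≠ 2 ∧ p ∣ e.natAbs
  · obtain ⟨p, hp, hp2, hd⟩ := h
    obtain ⟨k, rfl⟩ := Int.natCast_dvd.2 hd
    rw [Int.natAbs_mul, Int.natAbs_natCast] at hN
    exact anc_neg hp hp2 (right_ne_zero_of_mul he.ne_zero) (Nat.coprime_of_squarefree_mul hN)
  · have h2 : e.natAbs = 2 ^ e.natAbs.primeFactorsList.length :=
      Nat.eq_prime_pow_of_unique_prime_dvd hN.ne_zero fun {d} hd hdd => by
        by_contra hc
        exact h ⟨d, hd, hc, hdd⟩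
    rw [h2] at hN
    have h3 := hN.eq_zero_or_one_of_pow_of_not_isUnit (by simp)
    have h4 : e = -1 ∨ e = 2 ∨ e = -2 := by
      rcases h3 with h3 | h3 <;> rw [h3] at h2 <;> omega
    rcases h4 with rfl | rfl | rfl
    · exact ⟨3, by rw [anc_odd (by decide)]; norm_num⟩
    · exact ⟨5, by rw [anc_odd (by decide)]; norm_num⟩
    · exact ⟨5, by rw [anc_odd (by decide)]; norm_num⟩

theorem anc_mul (e : ℤ) (a b : ℕ) : jz e (a * b) = jz e a * jz e b := by
  by_cases ha : Odd a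
  · by_cases hb : Odd b
    · rw [anc_odd ha, anc_odd hb, anc_odd (ha.mul hb), jacobiSym.mul_right' _ ha.pos.ne' hb.pos.ne']
    · rw [anc_even hb, anc_even fun h => hb (Nat.odd_mul.1 h).2, mul_zero]
  · rw [anc_even ha, anc_even fun h => ha (Nat.odd_mul.1 h).1, zero_mul]

theorem anc_per (e : ℤ) (n : ℕ) : jz e (n + 4 * e.natAbs) = jz e n := by
  have h : Odd (n + 4 * e.natAbs) ↔ Odd n := by
    rw [Nat.odd_iff, Nat.odd_iff]; omega
  by_cases hn : Odd n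
  · rw [anc_odd hn, anc_odd (h.2 hn), jacobiSym.mod_right e (h.2 hn), Nat.add_mod_right,
      ← jacobiSym.mod_right e hn]
  · rw [anc_even hn, anc_even fun hh => hn (h.1 hh)]

theorem anc_abs (e : ℤ) (n : ℕ) : |jz e n| ≤ 1 := by
  by_cases hn : Odd n
  · rw [anc_odd hn]; exact abs_jac_le e n
  · rw [anc_even hn]; simp

theorem abs_sum_jz {e : ℤ} (he : Squarefree e) (h1 : e ≠ 1) (t : ℕ) :
    |∑ n ∈ range t, (jz e n : ℝ)| ≤ (4 * e.natAbs : ℕ) := by
  obtain ⟨a, ha, ha'⟩ := exists_jz_neg he h1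
  have h0 := Int.natAbs_pos.2 he.ne_zero
  have := abs_sum_char_le (χ := jz e) (q := 4 * e.natAbs) (by omega) (anc_mul e) (anc_per e)
    (anc_abs e) ha ha' 0 t
  rw [← range_eq_Ico] at this
  have h2 : ((|∑ n ∈ range t, jz e n| : ℤ) : ℝ) ≤ (((4 * e.natAbs : ℕ) : ℤ) : ℝ) :=
    Int.cast_le.2 this
  rwa [Int.cast_abs, Int.cast_sum, Int.cast_natCast] at h2

theorem few_inert : ∃ C : ℝ, 0 < C ∧ ∀ (e : ℤ) (Z H : ℕ), Squarefree e → e ≠ 1 → 2 ≤ Z →
    (((Icc 1 Z).filter fun k => Squarefree k ∧ (∀ p : ℕ, p ∈ k.primeFactors → ¬ (p : ℤ) ∣ 2 * e) ∧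
      (k.primeFactors.filter fun p => aleg p e = 1).card < H).card : ℝ) ≤
      C * 2 ^ H * Z * ((3 + Real.log (4 * e.natAbs : ℕ)) / Real.log Z) ^ (1 / 4 : ℝ) := by
  obtain ⟨C, hC, h⟩ := Mom.ht_bound (m := 2) (by norm_num)
  refine ⟨C, hC, fun e Z H he h1 hZ => ?_⟩
  have hb : ∀ a, |(jz e a : ℝ)| ≤ 1 := fun a => by exact_mod_cast anc_abs e a
  have hg : ∀ p, (1 / 2 : ℝ) ≤ 1 - (1 - (jz e p : ℝ)) / 4 := fun p => by
    have := abs_le.1 (hb p); linarith
  have key := h Z (4 * e.natAbs) (fun n => jz e n) (fun p => 1 - (1 - (jz e p : ℝ)) / 4) hZ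
    (by rw [anc_odd odd_one, jacobiSym.one_right, Int.cast_one])
    (fun a b => by rw [anc_mul, Int.cast_mul]) hb (abs_sum_jz he h1)
    (fun p _ => ⟨le_trans (by norm_num) (hg p), le_of_eq (by norm_num)⟩)
  rw [show (1 / (2 * (2 : ℕ)) : ℝ) = 1 / 4 by norm_num] at key
  have main : ∀ s : Finset ℕ, (∀ k ∈ s, k ∈ Icc 1 Z ∧ Squarefree k ∧
      (∀ p : ℕ, p ∈ k.primeFactors → ¬ (p : ℤ) ∣ 2 * e) ∧
      (k.primeFactors.filter fun p => aleg p e = 1).card < H) → (s.card : ℝ) * (1 / 2) ^ H ≤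
      ∑ n ∈ Den.SO Z, ∏ p ∈ n.primeFactors, (1 - (1 - (jz e p : ℝ)) / 4) := by
    intro s hs
    have hsub : s ⊆ Den.SO Z := fun k hk => by
      obtain ⟨a1, a2, a3, -⟩ := hs k hk
      refine mem_filter.2 ⟨a1, a2, Nat.not_even_iff_odd.1 fun hev => ?_⟩
      exact a3 2 (Nat.mem_primeFactors.2 ⟨Nat.prime_two, hev.two_dvd, a2.ne_zero⟩)
        (dvd_mul_right _ _)
    refine le_trans ?_ (sum_le_sum_of_subset_of_nonneg hsub fun n _ _ =>
      prod_nonneg fun p _ => le_trans (by norm_num) (hg p))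
    rw [← nsmul_eq_mul]
    refine card_nsmul_le_sum _ _ _ fun k hk => ?_
    obtain ⟨-, -, a3, a4⟩ := hs k hk
    calc (1 / 2 : ℝ) ^ H ≤ (1 / 2) ^ (k.primeFactors.filter fun p => aleg p e = 1).card :=
          pow_le_pow_of_le_one (by norm_num) (by norm_num) a4.le
      _ = ∏ p ∈ k.primeFactors, if aleg p e = 1 then (1 / 2 : ℝ) else 1 := by
          rw [← prod_filter, prod_const]
      _ ≤ _ := by
          refine prod_le_prod (fun p _ => by split_ifs <;> norm_num) fun p hp => ?_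
          split_ifs with hc
          · exact hg p
          · have pp := Nat.prime_of_mem_primeFactors hp
            have : Fact p.Prime := ⟨pp⟩
            have p2 : p ≠ 2 := fun e2 => a3 p hp (by rw [e2]; exact dvd_mul_right _ _)
            rw [aleg_eq_legendre fun hd => a3 p hp (hd.mul_left 2)] at hc
            have hl : legendreSym p e = 1 := by
              by_contra hn
              exact hc (if_neg hn)
            rw [anc_odd (pp.odd_of_ne_two p2), ← jacobiSym.legendreSym.to_jacobiSym, hl]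
            norm_num
  have h2 := (main _ fun k hk => mem_filter.1 hk).trans key
  rw [one_div_pow, mul_one_div, div_le_iff₀ (by positivity)] at h2
  exact h2.trans_eq (by ring)

theorem card_sqf_dvd {d : ℕ} (hd : d ≠ 0) :
    ((Icc (-(30 * d : ℤ)) (30 * d)).filter fun e : ℤ => Squarefree e ∧ e ∣ 30 * d).card ≤
      2 ^ (d.primeFactors.card + 4) := by
  have h30 : (30 * d).primeFactors.card ≤ d.primeFactors.card + 3 := by
    rw [Nat.primeFactors_mul (by norm_num) hd]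
    refine (card_union_le _ _).trans ?_
    have : (Nat.primeFactors 30).card = 3 := by simp [Nat.primeFactors]
    omega
  refine (card_le_card_of_injOn (t := (univ : Finset Bool) ×ˢ (30 * d).primeFactors.powerset)
    (fun e => (decide (0 < e), e.natAbs.primeFactors)) (fun e he => ?_) fun e he f hf h => ?_).trans ?_
  · obtain ⟨-, -, h2⟩ := mem_filter.1 (mem_coe.1 he)
    refine mem_coe.2 (mem_product.2 ⟨mem_univ _, mem_powerset.2 (Nat.primeFactors_mono ?_ ?_)⟩)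
    · exact Int.natAbs_dvd_natAbs.2 h2 |>.trans (by simp [Int.natAbs_mul])
    · omega
  · obtain ⟨-, a1, -⟩ := mem_filter.1 (mem_coe.1 he)
    obtain ⟨-, a2, -⟩ := mem_filter.1 (mem_coe.1 hf)
    obtain ⟨b1, b2⟩ := Prod.mk.inj h
    have b3 : e.natAbs = f.natAbs := by
      rw [← Nat.prod_primeFactors_of_squarefree (Int.squarefree_natAbs.2 a1), b2,
        Nat.prod_primeFactors_of_squarefree (Int.squarefree_natAbs.2 a2)]
    have b4 := decide_eq_decide.1 b1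
    omega
  · rw [card_product, card_powerset, card_univ, Fintype.card_bool, ← pow_succ']
    exact Nat.pow_le_pow_right (by norm_num) (by omega)

/-- The set counted by `few_inert`. -/
noncomputable def ancF (e : ℤ) (Z H : ℕ) : Finset ℕ :=
  (Icc 1 Z).filter fun k => Squarefree k ∧ (∀ p : ℕ, p ∈ k.primeFactors → ¬ (p : ℤ) ∣ 2 * e) ∧
    (k.primeFactors.filter fun p => aleg p e = 1).card < H

/-- The set counted by `card_sqf_dvd`. -/
noncomputable def ancE (d : ℕ) : Finset ℤ :=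
  (Icc (-(30 * d : ℤ)) (30 * d)).filter fun e : ℤ => Squarefree e ∧ e ∣ 30 * d

theorem anc_pow (m : ℕ) : m ^ 25 ≤ 2 ^ (25 * m) := by
  rw [mul_comm, pow_mul]
  exact Nat.pow_le_pow_left Nat.lt_two_pow_self.le _

theorem anc_YY (m : ℕ) : YY m ^ m = 2 ^ m ^ 25 := by
  rw [YY, ← pow_mul, ← pow_succ]

theorem anc_Z {m X d : ℕ} (hm : 6 ≤ m) (h : Sz m X) (h1 : 1 ≤ d) (hd : d ≤ YY m ^ m) :
    2 ^ 2 ^ (m ^ 4 - 1) ≤ X / d := by
  have a1 : 216 * m ≤ m ^ 4 := by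
    rw [pow_succ]
    exact Nat.mul_le_mul_right _ (Nat.pow_le_pow_left hm 3)
  have a2 : m ^ 25 ≤ 2 ^ (m ^ 4 - 1) :=
    (anc_pow m).trans (Nat.pow_le_pow_right (by norm_num) (by omega))
  have a3 : 2 ^ (m ^ 4 - 1) + 2 ^ (m ^ 4 - 1) = 2 ^ m ^ 4 := by
    rw [← two_mul, ← pow_succ', Nat.sub_add_cancel (by omega)]
  rw [Nat.le_div_iff_mul_le h1]
  have a4 : d ≤ 2 ^ 2 ^ (m ^ 4 - 1) := by
    rw [anc_YY] at hd
    exact hd.trans (Nat.pow_le_pow_right (by norm_num) a2)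
  refine le_trans (Nat.mul_le_mul_left _ a4) (le_trans (le_of_eq ?_) h.1)
  rw [← pow_add, a3]

theorem anc_R {m Z N : ℕ} (hm : 6 ≤ m) (hZ : 2 ^ 2 ^ (m ^ 4 - 1) ≤ Z) (hN0 : N ≠ 0)
    (hN : N ≤ 30 * YY m ^ m) :
    ((3 + Real.log (4 * N : ℕ)) / Real.log Z) ^ (1 / 4 : ℝ) ≤ 1 / 2 ^ m ^ 3 := by
  have l1 := Real.log_two_gt_d9
  have l2 := Real.log_two_lt_d9
  have a0 : 36 * m ≤ m ^ 3 := by
    rw [pow_succ]
    exact Nat.mul_le_mul_right _ (Nat.pow_le_pow_left hm 2)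
  have a1 : 6 * m ^ 3 ≤ m ^ 4 := by
    rw [pow_succ _ 3, mul_comm]
    exact Nat.mul_le_mul_left _ hm
  have b1 : (2 : ℝ) ^ (m ^ 4 - 1) / 2 ≤ Real.log Z := by
    have h1 : ((2 : ℝ) ^ 2 ^ (m ^ 4 - 1)) ≤ Z := by exact_mod_cast hZ
    have h2 := Real.log_le_log (by positivity) h1
    rw [Real.log_pow, Nat.cast_pow, Nat.cast_ofNat] at h2
    have h3 : (0 : ℝ) < 2 ^ (m ^ 4 - 1) := by positivity
    nlinarith
  have b2 : Real.log (4 * N : ℕ) ≤ (m ^ 25 + 7 : ℕ) := by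
    have h1 : 4 * N ≤ 2 ^ (m ^ 25 + 7) := by
      rw [anc_YY] at hN
      rw [pow_add]; omega
    have h2 : ((4 * N : ℕ) : ℝ) ≤ 2 ^ (m ^ 25 + 7) := by exact_mod_cast h1
    have h3 := Real.log_le_log (Nat.cast_pos.2 (by omega)) h2
    rw [Real.log_pow] at h3
    have h4 : (0 : ℝ) ≤ (m ^ 25 + 7 : ℕ) := Nat.cast_nonneg _
    nlinarith
  have b3 : (3 + (m ^ 25 + 7)) * 2 * (2 ^ m ^ 3) ^ 4 ≤ 2 ^ (m ^ 4 - 1) := by
    have h1 := anc_pow m
    have h2 : 1 ≤ 2 ^ (25 * m) := Nat.one_le_two_pow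
    have h3 : (3 + (m ^ 25 + 7)) * 2 ≤ 2 ^ (25 * m + 5) := by rw [pow_add]; omega
    refine (Nat.mul_le_mul_right _ h3).trans ?_
    rw [← pow_mul, ← pow_add]
    exact Nat.pow_le_pow_right (by norm_num) (by omega)
  have b4 : (3 + ((m ^ 25 + 7 : ℕ) : ℝ)) * 2 * (2 ^ m ^ 3) ^ 4 ≤ 2 ^ (m ^ 4 - 1) := by
    exact_mod_cast b3
  have b5 : 0 < Real.log Z := lt_of_lt_of_le (by positivity) b1
  have b6 := Real.log_natCast_nonneg (4 * N)
  have b7 : (3 + Real.log (4 * N : ℕ)) / Real.log Z ≤ (1 / 2 ^ m ^ 3) ^ 4 := by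
    rw [one_div_pow, div_le_div_iff₀ b5 (by positivity), one_mul]
    have h1 : (0 : ℝ) ≤ (2 ^ m ^ 3) ^ 4 := by positivity
    have h2 := mul_le_mul_of_nonneg_right b2 h1
    linarith
  refine (Real.rpow_le_rpow (by positivity) b7 (by norm_num)).trans_eq ?_
  rw [show (1 / 4 : ℝ) = ((4 : ℕ) : ℝ)⁻¹ by norm_num,
    Real.pow_rpow_inv_natCast (by positivity) (by norm_num)]

theorem anc_sub {m X n : ℕ} (hm : 6 ≤ m) (h1 : n ≤ X) (hs : Squarefree n) (h2 : G2 m n)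
    (h5 : ¬ G5 m n) : ∃ d ∈ (Icc 1 (YY m ^ m)).filter fun d => d.primeFactors.card ≤ m,
      ∃ e ∈ (ancE d).erase 1, ∃ k ∈ ancF e (X / d) (m ^ 2), d * k = n := by
  have d1 : 0 < d0 m n := Nat.pos_of_ne_zero (d0_sq m n).ne_zero
  obtain ⟨e, he⟩ := not_forall.1 h5
  obtain ⟨e1, he⟩ := Classical.not_imp.1 he
  obtain ⟨e2, he⟩ := Classical.not_imp.1 he
  obtain ⟨e3, e4⟩ := Classical.not_imp.1 he
  have hmul := d0_mul (m := m) hs
  have hpf : (∏ p ∈ lP m n, p).primeFactors = lP m n :=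
    Nat.primeFactors_prod fun p hp => Nat.prime_of_mem_primeFactors (mem_filter.1 hp).1
  have hk : Squarefree (∏ p ∈ lP m n, p) := (hmul ▸ hs).of_mul_right
  have hle : |e| ≤ 30 * (d0 m n : ℤ) := Int.le_of_dvd (by omega) ((abs_dvd _ _).2 e3)
  refine ⟨d0 m n, mem_filter.2 ⟨mem_Icc.2 ⟨d1, d0_le h2⟩, by rw [d0_pf]; exact h2⟩, e,
    mem_erase.2 ⟨e2, mem_filter.2 ⟨mem_Icc.2 (abs_le.1 hle), e1, e3⟩⟩, ∏ p ∈ lP m n, p,
    mem_filter.2 ⟨mem_Icc.2 ⟨Nat.pos_of_ne_zero hk.ne_zero, ?_⟩, hk, ?_, ?_⟩, hmul⟩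
  · rw [Nat.le_div_iff_mul_le d1, mul_comm, hmul]; exact h1
  · intro p hp hd
    rw [hpf] at hp
    obtain ⟨p1, p2⟩ := mem_filter.1 hp
    have pp := Nat.prime_of_mem_primeFactors p1
    have h60 : p ∣ 60 * d0 m n := by
      have : (p : ℤ) ∣ ((60 * d0 m n : ℕ) : ℤ) := by
        rw [show ((60 * d0 m n : ℕ) : ℤ) = 2 * (30 * d0 m n) by push_cast; ring]
        exact hd.trans (mul_dvd_mul_left 2 e3)
      exact Int.natCast_dvd_natCast.1 this
    rcases (Nat.Prime.dvd_mul pp).1 h60 with h | h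
    · have a1 := Nat.le_of_dvd (by norm_num) h
      have a2 : 2 ^ 6 ≤ YY m :=
        Nat.pow_le_pow_right (by norm_num) (hm.trans (Nat.le_self_pow (by norm_num) m))
      omega
    · have a1 : p ∈ sP m n := by
        rw [← d0_pf]; exact Nat.mem_primeFactors.2 ⟨pp, h, d1.ne'⟩
      have := (mem_filter.1 a1).2
      omega
  · rw [hpf]; exact not_le.1 e4

theorem anc_num {m : ℕ} (hm : 6 ≤ m) :
    (2 : ℝ) ^ (m + 4) * 2 ^ m ^ 2 * (1 + (m : ℝ) ^ 25) * m ≤ 2 ^ m ^ 3 := by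
  have a1 : 6 * m ≤ m ^ 2 := by
    rw [pow_two]; exact Nat.mul_le_mul_right _ hm
  have a2 : 6 * m ^ 2 ≤ m ^ 3 := by
    rw [pow_succ _ 2, mul_comm]; exact Nat.mul_le_mul_left _ hm
  have h1 := anc_pow m
  have h2 : 1 ≤ 2 ^ (25 * m) := Nat.one_le_two_pow
  have h3 : 1 + m ^ 25 ≤ 2 ^ (25 * m + 1) := by rw [pow_add]; omega
  have h4 : 2 ^ (m + 4) * 2 ^ m ^ 2 * (1 + m ^ 25) * m ≤ 2 ^ m ^ 3 := by
    refine (Nat.mul_le_mul (Nat.mul_le_mul_left _ h3) Nat.lt_two_pow_self.le).trans ?_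
    rw [← pow_add, ← pow_add, ← pow_add]
    exact Nat.pow_le_pow_right (by norm_num) (by omega)
  exact_mod_cast h4

theorem rare5 : Rare fun m _ n => Squarefree n ∧ G2 m n ∧ ¬ G5 m n := by
  intro ε hε
  obtain ⟨C, hC, h⟩ := few_inert
  obtain ⟨m1, hm1⟩ := exists_nat_ge (C / ε)
  refine ⟨m1 + 6, fun m hm X hX => ?_⟩
  have m6 : 6 ≤ m := by omega
  have hCm : C ≤ ε * m := by
    rw [div_le_iff₀ hε] at hm1
    have : (m1 : ℝ) ≤ m := Nat.cast_le.2 (by omega)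
    nlinarith
  have key : ∀ s : Finset ℕ, (∀ n ∈ s, n ∈ Icc 1 X ∧ Squarefree n ∧ G2 m n ∧ ¬ G5 m n) →
      (s.card : ℝ) ≤ ε * X := by
    intro s hs
    have c1 : s.card ≤ ∑ d ∈ (Icc 1 (YY m ^ m)).filter fun d => d.primeFactors.card ≤ m,
        ∑ e ∈ (ancE d).erase 1, (ancF e (X / d) (m ^ 2)).card := by
      refine le_trans (card_le_card (t := ((Icc 1 (YY m ^ m)).filter
        fun d => d.primeFactors.card ≤ m).biUnion fun d => ((ancE d).erase 1).biUnion fun e =>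
          (ancF e (X / d) (m ^ 2)).image fun k => d * k) fun n hn => ?_) ?_
      · obtain ⟨a1, a2, a3, a4⟩ := hs n hn
        obtain ⟨d, hd, e, he, k, hk⟩ := anc_sub m6 (mem_Icc.1 a1).2 a2 a3 a4
        exact mem_biUnion.2 ⟨d, hd, mem_biUnion.2 ⟨e, he, mem_image.2 ⟨k, hk⟩⟩⟩
      · exact card_biUnion_le.trans (sum_le_sum fun d _ =>
          card_biUnion_le.trans (sum_le_sum fun e _ => card_image_le))
    have c2 : ∀ d ∈ (Icc 1 (YY m ^ m)).filter fun d => d.primeFactors.card ≤ m,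
        ((∑ e ∈ (ancE d).erase 1, (ancF e (X / d) (m ^ 2)).card : ℕ) : ℝ) ≤
          2 ^ (m + 4) * (C * 2 ^ m ^ 2 * X * (1 / 2 ^ m ^ 3)) * (1 / d : ℝ) := by
      intro d hd
      obtain ⟨d1, d2⟩ := mem_filter.1 hd
      obtain ⟨d0, d1⟩ := mem_Icc.1 d1
      have hZ := anc_Z m6 hX d0 d1
      have hZ2 : 2 ≤ X / d :=
        le_trans (Nat.le_self_pow (by positivity) 2) hZ
      have e1 : ((ancE d).erase 1).card ≤ 2 ^ (m + 4) :=
        card_erase_le.trans ((card_sqf_dvd (by omega)).trans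
          (Nat.pow_le_pow_right (by norm_num) (by omega)))
      have e2 : (((ancE d).erase 1).card : ℝ) ≤ 2 ^ (m + 4) := by exact_mod_cast e1
      rw [Nat.cast_sum, mul_assoc]
      refine (sum_le_card_nsmul _ _ (C * 2 ^ m ^ 2 * X * (1 / 2 ^ m ^ 3) * (1 / d : ℝ))
        fun e he => ?_).trans ?_
      · obtain ⟨f1, f2⟩ := mem_erase.1 he
        obtain ⟨f2, f3, -⟩ := mem_filter.1 f2
        obtain ⟨f4, f5⟩ := mem_Icc.1 f2
        have hR := anc_R (N := e.natAbs) m6 hZ (Int.natAbs_ne_zero.2 f3.ne_zero) (by omega)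
        have hq : ((X / d : ℕ) : ℝ) ≤ X / d := Nat.cast_div_le
        refine (h e (X / d) (m ^ 2) f3 f1 hZ2).trans ?_
        refine (mul_le_mul (mul_le_mul_of_nonneg_left hq (by positivity)) hR
          (Real.rpow_nonneg (div_nonneg (add_nonneg (by norm_num) (Real.log_natCast_nonneg _))
            (Real.log_natCast_nonneg _)) _) (by positivity)).trans_eq (by ring)
      · rw [nsmul_eq_mul]
        exact mul_le_mul_of_nonneg_right e2 (by positivity)
    have c3 : (s.card : ℝ) ≤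
        2 ^ (m + 4) * (C * 2 ^ m ^ 2 * X * (1 / 2 ^ m ^ 3)) * (1 + (m : ℝ) ^ 25) := by
      refine (Nat.cast_le.2 c1).trans ?_
      rw [Nat.cast_sum]
      refine (sum_le_sum c2).trans ?_
      rw [← mul_sum]
      exact mul_le_mul_of_nonneg_left ((sum_le_sum_of_subset_of_nonneg (filter_subset _ _)
        fun d _ _ => by positivity).trans (sum_inv_d0 m)) (by positivity)
    refine c3.trans ?_
    have c4 := anc_num m6
    have c5 : (2 : ℝ) ^ (m + 4) * 2 ^ m ^ 2 * (1 + (m : ℝ) ^ 25) * C ≤ ε * 2 ^ m ^ 3 :=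
      (mul_le_mul_of_nonneg_left hCm (by positivity)).trans
        (le_of_eq_of_le (by ring) (mul_le_mul_of_nonneg_left c4 hε.le))
    have c6 : (2 : ℝ) ^ (m + 4) * 2 ^ m ^ 2 * (1 + (m : ℝ) ^ 25) * C / 2 ^ m ^ 3 ≤ ε :=
      (div_le_iff₀ (by positivity)).2 c5
    exact le_of_eq_of_le (by ring) (mul_le_mul_of_nonneg_right c6 (Nat.cast_nonneg X))
  refine key _ fun n hn => ?_
  simpa only [mem_filter] using hn

end Pool.Agent.Lib.MP_696deb_nt.Sa
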