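import Pool.Agent.Lib.MP_696deb_nt.Sa.AnD

/-! Good integers: many prime factors in each window. -/

set_option autoImplicit false

open Finset
open scoped Classical

namespace Pool.Agent.Lib.MP_696deb_nt.Sa

theorem ane_cnt (X d : ℕ) : ∑ n ∈ Icc 1 X, (if d ∣ n then (1 : ℝ) else 0) = (X / d : ℕ) := by
  rw [sum_boole, ← Nat.Ioc_filter_dvd_card_eq_div]
  rfl

theorem ane_le (X d : ℕ) : ∑ n ∈ Icc 1 X, (if d ∣ n then (1 : ℝ) else 0) ≤ X * (1 / d) := by
  rw [ane_cnt, mul_one_div]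
  exact Nat.cast_div_le

theorem ane_ge (X : ℕ) {d : ℕ} (hd : 0 < d) :
    X * (1 / d : ℝ) - 1 ≤ ∑ n ∈ Icc 1 X, (if d ∣ n then (1 : ℝ) else 0) := by
  have h1 : (X : ℝ) ≤ (X / d : ℕ) * d + d := by exact_mod_cast (Nat.lt_div_mul_add hd).le
  have h2 : (0 : ℝ) < d := by exact_mod_cast hd
  rw [ane_cnt, mul_one_div, sub_le_iff_le_add, div_le_iff₀ h2]
  linarith

/-- The variance bound. -/
theorem var_le (X : ℕ) (P : Finset ℕ) (hP : ∀ p ∈ P, p.Prime) :
    ∑ n ∈ Icc 1 X, (((n.primeFactors ∩ P).card : ℝ) - ∑ p ∈ P, (1 / p : ℝ)) ^ 2 ≤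
      (X + 2 * P.card) * ∑ p ∈ P, (1 / p : ℝ) := by
  have h1 : ∀ n ∈ Icc 1 X, ((n.primeFactors ∩ P).card : ℝ) =
      ∑ p ∈ P, if p ∣ n then (1 : ℝ) else 0 := by
    intro n hn
    rw [sum_boole]
    congr 2
    ext p
    have := (mem_Icc.1 hn).1
    simp only [mem_inter, Nat.mem_primeFactors, mem_filter]
    exact ⟨fun h => ⟨h.2, h.1.2.1⟩, fun h => ⟨⟨hP p h.1, h.2, by omega⟩, h.1⟩⟩
  have h2 : X * (∑ p ∈ P, (1 / p : ℝ)) - P.card ≤
      ∑ n ∈ Icc 1 X, ∑ p ∈ P, if p ∣ n then (1 : ℝ) else 0 := by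
    rw [sum_comm, mul_sum, card_eq_sum_ones, Nat.cast_sum, Nat.cast_one, ← sum_sub_distrib]
    exact sum_le_sum fun p hp => ane_ge X (hP p hp).pos
  have h3 : ∑ n ∈ Icc 1 X, (∑ p ∈ P, if p ∣ n then (1 : ℝ) else 0) ^ 2 ≤
      X * (∑ p ∈ P, (1 / p : ℝ)) + X * (∑ p ∈ P, (1 / p : ℝ)) ^ 2 := by
    simp only [sq, sum_mul_sum]
    rw [sum_comm, mul_sum, mul_sum, ← sum_add_distrib]
    refine sum_le_sum fun p hp => ?_
    rw [sum_comm, mul_sum, ← sum_ite_eq_of_mem P p (fun _ => (X : ℝ) * (1 / p)) hp,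
      ← sum_add_distrib]
    refine sum_le_sum fun q hq => ?_
    split_ifs with e
    · subst e
      refine le_trans (sum_le_sum fun n _ => ?_) ((ane_le X p).trans (le_add_of_nonneg_right ?_))
      · split_ifs <;> norm_num
      · positivity
    · have c := (Nat.coprime_primes (hP p hp) (hP q hq)).2 e
      refine le_trans (sum_le_sum fun n _ => ?_) ((ane_le X (p * q)).trans_eq ?_)
      · by_cases a : p ∣ n
        · by_cases b : q ∣ n
          · simp [a, b, c.mul_dvd_of_dvd_of_dvd a b]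
          · rw [if_neg b, mul_zero]; positivity
        · rw [if_neg a, zero_mul]; positivity
      · rw [zero_add, Nat.cast_mul, one_div_mul_one_div]
  have h4 : 0 ≤ ∑ p ∈ P, (1 / p : ℝ) := by positivity
  rw [sum_congr rfl fun n hn => by rw [h1 n hn]]
  generalize ∑ p ∈ P, (1 / p : ℝ) = μ at *
  simp only [sub_sq, sum_add_distrib, sum_sub_distrib, ← sum_mul, ← mul_sum, sum_const,
    Nat.card_Icc, Nat.add_sub_cancel, nsmul_eq_mul]
  nlinarith [mul_le_mul_of_nonneg_right h2 h4]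

theorem block_ge : ∃ a0 : ℕ, ∀ a ≥ a0,
    (1 / 4 : ℝ) ≤ ∑ p ∈ (Ioc (2 ^ a) (2 ^ (a * 2))).filter Nat.Prime, (1 / p : ℝ) := by
  obtain ⟨C, hC⟩ := Den.mertens_lower
  have l2 : 0 < Real.log 2 := Real.log_pos one_lt_two
  obtain ⟨a0, h0⟩ := exists_nat_gt (2 * C / Real.log 2)
  refine ⟨a0 + 1, fun a ha => ?_⟩
  have h1 := hC (2 ^ a) (2 ^ (a * 2)) Nat.one_le_two_pow (Nat.pow_le_pow_right two_pos (by omega))
  have h2 : ∑ p ∈ (Ioc (2 ^ a) (2 ^ (a * 2))).filter Nat.Prime, Real.log p / p ≤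
      a * 2 * Real.log 2 * ∑ p ∈ (Ioc (2 ^ a) (2 ^ (a * 2))).filter Nat.Prime, (1 / p : ℝ) := by
    rw [mul_sum]
    refine sum_le_sum fun p hp => ?_
    rw [mem_filter, mem_Ioc] at hp
    rw [mul_one_div]
    refine div_le_div_of_nonneg_right ?_ (Nat.cast_nonneg p)
    have := Real.log_le_log (by exact_mod_cast hp.2.pos) (Nat.cast_le (α := ℝ).2 hp.1.2)
    simpa using this
  have h3 : (a0 : ℝ) + 1 ≤ a := by exact_mod_cast ha
  have h4 : (0 : ℝ) ≤ a0 := Nat.cast_nonneg a0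
  rw [div_lt_iff₀ l2] at h0
  simp only [Nat.cast_pow, Nat.cast_ofNat, Real.log_pow, Nat.cast_mul] at h1
  have h5 : (0 : ℝ) < a := by linarith
  refine le_of_mul_le_mul_left ((le_trans ?_ h1).trans h2) (by positivity)
  nlinarith

theorem blocks_ge : ∃ a0 : ℕ, ∀ a ≥ a0, ∀ t : ℕ,
    (t / 4 : ℝ) ≤ ∑ p ∈ (Ioc (2 ^ a) (2 ^ (a * 2 ^ t))).filter Nat.Prime, (1 / p : ℝ) := by
  obtain ⟨a0, h⟩ := block_ge
  refine ⟨a0, fun a ha t => ?_⟩
  induction t with
  | zero => simp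
  | succ t ih =>
    have h1 : a ≤ a * 2 ^ t := Nat.le_mul_of_pos_right a (by positivity)
    have h2 := h (a * 2 ^ t) (ha.trans h1)
    rw [sum_filter] at h2 ih ⊢
    rw [pow_succ, ← mul_assoc, ← sum_Ioc_consecutive _ (Nat.pow_le_pow_right two_pos h1)
      (Nat.pow_le_pow_right two_pos (Nat.le_mul_of_pos_right _ two_pos))]
    push_cast
    linarith

theorem ane_win {m k X : ℕ} (hm : 8 ≤ m) (hk : k < 3) (h : Sz m X) : (Win m k).card ≤ X := by
  have h1 : m ^ (24 + k) ≤ 2 ^ m ^ 3 :=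
    calc m ^ (24 + k) ≤ (2 ^ m) ^ (24 + k) := Nat.pow_le_pow_left Nat.lt_two_pow_self.le _
      _ ≤ 2 ^ m ^ 3 := by
        rw [← pow_mul]
        refine Nat.pow_le_pow_right two_pos ?_
        rw [pow_succ', sq]
        exact Nat.mul_le_mul_left m (by nlinarith)
  have h2 : aa m k * 2 ^ m ^ 3 ≤ 2 ^ m ^ 4 :=
    calc aa m k * 2 ^ m ^ 3 ≤ 2 ^ m ^ 3 * 2 ^ (k * m ^ 3) * 2 ^ m ^ 3 := by
          rw [aa]; gcongr
      _ = 2 ^ ((k + 2) * m ^ 3) := by rw [← pow_add, ← pow_add]; congr 1; ring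
      _ ≤ 2 ^ m ^ 4 := by
        refine Nat.pow_le_pow_right two_pos ?_
        rw [pow_succ' m 3]
        exact Nat.mul_le_mul_right _ (by omega)
  rw [Win, Nat.card_Ioc]
  exact (Nat.sub_le _ _).trans ((Nat.pow_le_pow_right two_pos h2).trans h.1)

theorem ane_rare {k : ℕ} (hk : k < 3) :
    Rare fun m _ n => (n.primeFactors ∩ Win m k).card < m ^ 2 := by
  intro ε hε
  obtain ⟨a0, h⟩ := blocks_ge
  obtain ⟨m0, h0⟩ := exists_nat_gt (48 / ε)
  refine ⟨a0 + m0 + 8, fun m hm X hz => ?_⟩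
  have h1 : a0 ≤ aa m k := le_trans (le_trans (by omega) (Nat.le_self_pow (by omega) m))
    (Nat.le_mul_of_pos_right _ (by positivity))
  have h2 := h _ h1 (m ^ 3)
  have h3 := var_le X ((Win m k).filter Nat.Prime) fun p hp => (mem_filter.1 hp).2
  have h4 : (((Win m k).filter Nat.Prime).card : ℝ) ≤ X := by
    exact_mod_cast (card_filter_le _ _).trans (ane_win (by omega) hk hz)
  have h5 : ∀ n : ℕ, n.primeFactors ∩ (Win m k).filter Nat.Prime = n.primeFactors ∩ Win m k := by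
    intro n
    ext p
    simp only [mem_inter, mem_filter]
    exact ⟨fun h => ⟨h.1, h.2.1⟩, fun h => ⟨h.1, h.2, Nat.prime_of_mem_primeFactors h.1⟩⟩
  simp only [h5] at h3
  rw [← Win, Nat.cast_pow] at h2
  generalize ∑ p ∈ (Win m k).filter Nat.Prime, (1 / p : ℝ) = μ at h2 h3
  have m8 : (8 : ℝ) ≤ m := by exact_mod_cast (by omega : 8 ≤ m)
  have m1 : (m0 : ℝ) ≤ m := by exact_mod_cast (by omega : m0 ≤ m)
  have m2 : 2 * (m : ℝ) ^ 2 ≤ μ := by nlinarith [sq_nonneg (m : ℝ)]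
  have m3 : (m : ℝ) ≤ 4 * μ := by nlinarith
  have m4 : 0 < μ := by linarith
  suffices key : ∀ s ⊆ Icc 1 X, (∀ n ∈ s, (n.primeFactors ∩ Win m k).card < m ^ 2) →
      (s.card : ℝ) ≤ ε * X by
    refine key _ (fun n hn => ?_) fun n hn => ?_ <;> simp only [mem_filter] at hn
    exacts [hn.1, hn.2]
  intro s s1 s2
  have h6 := card_nsmul_le_sum s
    (fun n => (((n.primeFactors ∩ Win m k).card : ℝ) - μ) ^ 2) (μ ^ 2 / 4) fun n hn => by
      have a : ((n.primeFactors ∩ Win m k).card : ℝ) ≤ (m : ℝ) ^ 2 := by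
        exact_mod_cast (s2 n hn).le
      have b : (0 : ℝ) ≤ (n.primeFactors ∩ Win m k).card := Nat.cast_nonneg _
      nlinarith
  have h7 := (h6.trans (sum_le_sum_of_subset_of_nonneg s1 fun _ _ _ => sq_nonneg _)).trans h3
  rw [nsmul_eq_mul] at h7
  rw [div_lt_iff₀ hε] at h0
  have x0 : (0 : ℝ) ≤ X := Nat.cast_nonneg X
  have h8 : 12 ≤ ε * μ := by nlinarith
  refine le_of_mul_le_mul_right (a := μ ^ 2 / 4) (h7.trans ?_) (by positivity)
  calc _ ≤ (12 * X) * μ / 4 := by nlinarith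
    _ ≤ (ε * μ * X) * μ / 4 := by gcongr
    _ = _ := by ring

theorem rare6 : Rare fun m _ n => ¬ G6 m n := by
  refine (((ane_rare (k := 0) (by norm_num)).or (ane_rare (k := 1) (by norm_num))).or
    (ane_rare (k := 2) (by norm_num))).mono fun m _ n h => ?_
  simp only [G6, not_forall, not_le] at h
  obtain ⟨k, hk, h⟩ := h
  interval_cases k
  · exact .inl (.inl h)
  · exact .inl (.inr h)
  · exact .inr h

end Pool.Agent.Lib.MP_696deb_nt.Sa
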