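import Pool.Agent.Lib.MP_696deb_nt.Sa.AnF

/-! The boxes of good integers cover them economically. -/

set_option autoImplicit false

open Finset
open scoped Classical

namespace Pool.Agent.Lib.MP_696deb_nt.Sa
open Sm

/-- The invariant that determines the box. -/
noncomputable def key (m X n : ℕ) : ℕ × Finset (Finset ℕ) :=
  (d0 m n, (lP m n).image (Cl m X (d0 m n)))

variable {m X n : ℕ} {s : ℤ}

theorem anG_mem {x : Fin (lP m n).card → ℕ} (hx : x ∈ (box m X s n).pts) (j : Fin (lP m n).card) :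
    x j ∈ Cl m X (d0 m n) (xs m n j) := Fintype.mem_piFinset.1 hx j

theorem anG_cl {d p q : ℕ} (h : q ∈ Cl m X d p) : q.Prime ∧ YY m < q ∧ kap m q = kap m p := by
  simp only [Cl, mem_filter, mem_Ioc] at h
  exact ⟨h.2.1, h.1.1, h.2.2.1⟩

theorem anG_xs (j : Fin (lP m n).card) : xs m n j ∈ lP m n := orderEmbOfFin_mem _ _ j

theorem anG_xs_inj : Function.Injective (xs m n) := ((lP m n).orderEmbOfFin rfl).injective

theorem anG_image : univ.image (xs m n) = lP m n := by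
  refine eq_of_subset_of_card_le (fun p hp => ?_) ?_
  · obtain ⟨j, -, rfl⟩ := mem_image.1 hp
    exact anG_xs j
  · rw [card_image_of_injective _ anG_xs_inj, card_univ, Fintype.card_fin]

theorem anG_eq (h : Gd m X n) {x y : Fin (lP m n).card → ℕ} (hx : x ∈ (box m X s n).pts)
    (hy : y ∈ (box m X s n).pts) {i j : Fin (lP m n).card} (e : x i = y j) : i = j :=
  anG_xs_inj (h.g3 _ (anG_xs i) _ (anG_xs j)
    ((anG_cl (anG_mem hx i)).2.2.symm.trans (e ▸ (anG_cl (anG_mem hy j)).2.2)))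

theorem anG_prod (h : Gd m X n) {x : Fin (lP m n).card → ℕ} (hx : x ∈ (box m X s n).pts) :
    ∏ j, x j = ∏ p ∈ univ.image x, p :=
  (prod_image (f := fun p => p) fun _ _ _ _ e => anG_eq h hx hx e).symm

theorem anG_self (h : Gd m X n) {d p : ℕ} (hp : p ∈ lP m n) : p ∈ Cl m X d p :=
  mem_Cl_self (Nat.prime_of_mem_primeFactors (mem_filter.1 hp).1) (mem_filter.1 hp).2
    ((Nat.le_of_mem_primeFactors (mem_filter.1 hp).1).trans h.le)

theorem lP_val (hm : 2 ≤ m) (hs : s = 1 ∨ s = -1) (h : Gd m X n) {x : Fin (lP m n).card → ℕ}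
    (hx : x ∈ (box m X s n).pts) :
    lP m (d0 m n * ∏ j, x j) = univ.image x ∧ d0 m (d0 m n * ∏ j, x j) = d0 m n := by
  have _ := hm
  have _ := hs
  have h1 : ∀ p ∈ univ.image x, p.Prime ∧ YY m < p := fun p hp => by
    obtain ⟨j, -, rfl⟩ := mem_image.1 hp
    exact ⟨(anG_cl (anG_mem hx j)).1, (anG_cl (anG_mem hx j)).2.1⟩
  have h2 : (d0 m n * ∏ j, x j).primeFactors = sP m n ∪ univ.image x := by
    rw [Nat.primeFactors_mul (d0_sq m n).ne_zero
      (prod_ne_zero_iff.2 fun j _ => (anG_cl (anG_mem hx j)).1.ne_zero), d0_pf, anG_prod h hx,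
      Nat.primeFactors_prod fun p hp => (h1 p hp).1]
  constructor
  · ext p
    rw [lP, h2, mem_filter, mem_union]
    exact ⟨fun k => k.1.resolve_left fun a => (mem_filter.1 a).2.not_gt k.2,
      fun k => ⟨.inr k, (h1 p k).2⟩⟩
  · refine prod_congr (Finset.ext fun p => ?_) fun _ _ => rfl
    rw [sP, h2, mem_filter, mem_union]
    exact ⟨fun k => k.1.resolve_right fun a => k.2.not_gt (h1 p a).2,
      fun k => ⟨.inl k, (mem_filter.1 k).2⟩⟩

theorem key_val (hm : 2 ≤ m) (hs : s = 1 ∨ s = -1) (h : Gd m X n) {x : Fin (lP m n).card → ℕ}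
    (hx : x ∈ (box m X s n).pts) : key m X (d0 m n * ∏ j, x j) = key m X n := by
  obtain ⟨h1, h2⟩ := lP_val hm hs h hx
  rw [key, key, h1, h2]
  refine congrArg _ (Finset.ext fun C => ?_)
  conv_rhs => rw [← anG_image]
  simp only [mem_image, mem_univ, true_and, exists_exists_eq_and, Cl_eq (anG_mem hx _)]

theorem val_mem (hm : 2 ≤ m) (h : Gd m X n) {x : Fin (lP m n).card → ℕ}
    (hx : x ∈ (box m X s n).pts) : d0 m n * ∏ j, x j ∈ Icc 1 (2 * X) := by
  have p1 : ∀ j, 0 < x j := fun j => (anG_cl (anG_mem hx j)).1.pos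
  refine mem_Icc.2 ⟨Nat.mul_pos (d0_sq m n).ne_zero.bot_lt (prod_pos fun j _ => p1 j), ?_⟩
  have h1 : ((∏ j, x j : ℕ) : ℝ) ≤ ∏ j, (Real.exp (1 / (m : ℝ) ^ 11) * xs m n j) := by
    rw [Nat.cast_prod]
    exact prod_le_prod (fun _ _ => Nat.cast_nonneg _) fun j _ => kap_ratio (by omega)
      (Nat.prime_of_mem_primeFactors (mem_filter.1 (anG_xs j)).1).pos (p1 j)
      (anG_cl (anG_mem hx j)).2.2.symm
  have h2 : ∏ j, xs m n j = ∏ p ∈ lP m n, p := by
    conv_rhs => rw [← anG_image]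
    exact (prod_image (f := fun p => p) fun _ _ _ _ e => anG_xs_inj e).symm
  have m2 : (2 : ℝ) ≤ m := by exact_mod_cast hm
  have h3 : ((lP m n).card : ℝ) ≤ (m : ℝ) ^ 10 := by
    exact_mod_cast (card_filter_le _ _).trans h.g1
  have h4 : Real.exp (1 / (m : ℝ) ^ 11) ^ (lP m n).card ≤ 2 := by
    rw [← Real.exp_nat_mul, ← Real.le_log_iff_exp_le two_pos]
    refine le_trans ?_ (le_trans (by norm_num : (1 / 2 : ℝ) ≤ 0.6931471803) Real.log_two_gt_d9.le)
    rw [mul_one_div, div_le_iff₀ (by positivity), pow_succ]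
    nlinarith [pow_pos (by linarith : (0 : ℝ) < m) 10]
  rw [prod_mul_distrib, prod_const, card_univ, Fintype.card_fin, ← Nat.cast_prod, h2] at h1
  have h5 : ∏ j, x j ≤ 2 * ∏ p ∈ lP m n, p := by
    exact_mod_cast h1.trans (mul_le_mul_of_nonneg_right h4 (Nat.cast_nonneg _))
  refine (Nat.mul_le_mul_left _ h5).trans ?_
  rw [mul_left_comm, d0_mul h.sq]
  exact Nat.mul_le_mul_left _ h.le

theorem val_inj (hm : 2 ≤ m) (hs : s = 1 ∨ s = -1) (h : Gd m X n) {x y : Fin (lP m n).card → ℕ}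
    (hx : x ∈ (box m X s n).pts) (hy : y ∈ (box m X s n).pts)
    (hxy : d0 m n * ∏ j, x j = d0 m n * ∏ j, y j) : x = y := by
  have h1 : univ.image x = univ.image y :=
    (lP_val hm hs h hx).1.symm.trans (hxy ▸ (lP_val hm hs h hy).1)
  funext j
  obtain ⟨i, -, e⟩ := mem_image.1 (h1 ▸ mem_image_of_mem x (mem_univ j))
  rw [← e, anG_eq h hy hx e]

theorem exists_val {n' : ℕ} (h : Gd m X n) (h' : Gd m X n') (hk : key m X n' = key m X n) :
    ∃ x ∈ (box m X s n).pts, (box m X s n).DD x = s * n' := by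
  obtain ⟨h1, h2⟩ := Prod.ext_iff.1 hk
  change d0 m n' = d0 m n at h1
  change (lP m n').image (Cl m X (d0 m n')) = (lP m n).image (Cl m X (d0 m n)) at h2
  rw [h1] at h2
  choose x a b using fun j : Fin (lP m n).card =>
    mem_image.1 (h2.symm.subset (mem_image_of_mem (Cl m X (d0 m n)) (anG_xs j)))
  have hx : x ∈ (box m X s n).pts :=
    Fintype.mem_piFinset.2 fun j => (b j ▸ anG_self h' (a j) : x j ∈ Cl m X (d0 m n) (xs m n j))
  have h3 : univ.image x = lP m n' := by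
    refine Finset.ext fun p => ⟨fun hp => ?_, fun hp => ?_⟩
    · obtain ⟨j, -, rfl⟩ := mem_image.1 hp
      exact a j
    · obtain ⟨q, hq, e⟩ := mem_image.1 (h2.subset (mem_image_of_mem (Cl m X (d0 m n)) hp))
      rw [← anG_image] at hq
      obtain ⟨j, -, rfl⟩ := mem_image.1 hq
      have k : p ∈ Cl m X (d0 m n) (x j) := by
        rw [b, e]
        exact anG_self h' hp
      exact mem_image.2 ⟨j, mem_univ j, (h'.g3 _ hp _ (a j) (anG_cl k).2.2).symm⟩
  refine ⟨x, hx, ?_⟩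
  change s * d0 m n * ∏ j : Fin (lP m n).card, (x j : ℤ) = _
  rw [← Nat.cast_prod, anG_prod h hx, h3, ← h1, mul_assoc, ← Nat.cast_mul, d0_mul h'.sq]

theorem cover (hm : 2 ≤ m) (hs : s = 1 ∨ s = -1) : ∃ (N : ℕ) (f : Fin N → ℕ),
    (∀ i, Gd m X (f i)) ∧ ∑ i, (box m X s (f i)).pts.card ≤ 2 * X ∧
      ∀ n, Gd m X n → ∃ i, ∃ x ∈ (box m X s (f i)).pts, (box m X s (f i)).DD x = s * n := by
  let K := ((Icc 1 X).filter (Gd m X)).image (key m X)
  choose f a b using fun k : K => mem_image.1 k.2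
  have g : ∀ k, Gd m X (f k) := fun k => (mem_filter.1 (a k)).2
  refine ⟨K.card, fun i => f (K.equivFin.symm i), fun i => g _, ?_, fun n hn => ?_⟩
  · rw [← card_sigma]
    refine (card_le_card_of_injOn (t := Icc 1 (2 * X))
      (fun z => d0 m (f (K.equivFin.symm z.1)) * ∏ j, z.2 j)
      (fun z hz => val_mem (s := s) (x := z.2) hm (g _) (mem_sigma.1 hz).2) ?_).trans (by simp)
    rintro ⟨i, x⟩ hx ⟨j, y⟩ hy e
    have hx := (mem_sigma.1 hx).2
    have hy := (mem_sigma.1 hy).2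
    obtain rfl : i = j := K.equivFin.symm.injective (Subtype.ext ((b _).symm.trans
      ((key_val hm hs (g _) hx).symm.trans ((congrArg (key m X) e).trans
        ((key_val hm hs (g _) hy).trans (b _))))))
    exact congrArg _ (val_inj hm hs (g _) hx hy e)
  · let k : K := ⟨key m X n, mem_image_of_mem _ (mem_filter.2 ⟨mem_Icc.2 ⟨hn.pos, hn.le⟩, hn⟩)⟩
    refine ⟨K.equivFin k, exists_val (g _) hn ?_⟩
    rw [b, Equiv.symm_apply_apply]

end Pool.Agent.Lib.MP_696deb_nt.Sa
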