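import Pool.Agent.Lib.MP_696deb_nt.Sa.AnA
import Pool.Agent.Lib.MP_696deb_nt.Sa.AnB
import Pool.Agent.Lib.MP_696deb_nt.Sa.AnC
import Pool.Agent.Lib.MP_696deb_nt.Sa.AnE
import Pool.Agent.Lib.MP_696deb_nt.Sa.AnG

/-! Almost all squarefree numbers lie in good boxes. -/

set_option autoImplicit false

open Finset
open scoped Classical

namespace Pool.Agent.Lib.MP_696deb_nt.Sm
open Sa

theorem an_main' (c : ℕ) {ε : ℝ} (hε : 0 < ε) : ∃ X0 : ℕ, ∀ X ≥ X0, ∀ s : ℤ, s = 1 ∨ s = -1 →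
    ∃ (N : ℕ) (B : Fin N → Box), (∀ i, (B i).Hyp c) ∧ ∑ i, (B i).pts.card ≤ 2 * X ∧
      (({m ∈ Icc 1 X | Squarefree m ∧ ¬ ∃ i, ∃ x ∈ (B i).pts, (B i).DD x = s * m} :
        Finset ℕ).card : ℝ) ≤ ε * X := by
  obtain ⟨m1, h1⟩ := (((((rare1.or rare2).or rare3).or rare4).or rare5).or rare6) ε hε
  obtain ⟨m2, h2⟩ := box_hyp c
  obtain ⟨X0, h3⟩ := exists_sz (m1 + m2 + 2)
  refine ⟨X0, fun X hX s hs => ?_⟩
  obtain ⟨m, hm, hz⟩ := h3 X hX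
  obtain ⟨N, f, a1, a2, a3⟩ := cover (m := m) (X := X) (by omega) hs
  refine ⟨N, fun i => box m X s (f i), fun i => h2 m (by omega) X _ s hs (a1 i), a2,
    le_trans ?_ (h1 m (by omega) X hz)⟩
  refine Nat.cast_le.2 (card_le_card fun n hn => ?_)
  simp only [mem_filter, mem_Icc] at hn ⊢
  refine ⟨hn.1, ?_⟩
  by_contra hc
  simp only [not_or, not_and, not_not] at hc
  obtain ⟨⟨⟨⟨⟨b1, b2⟩, b3⟩, b4⟩, b5⟩, b6⟩ := hc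
  exact hn.2.2 (a3 n ⟨hn.1.1, hn.1.2, hn.2.1, b1, b2, b3, b4 hn.2.1 b2, b5 hn.2.1 b2, b6⟩)

end Pool.Agent.Lib.MP_696deb_nt.Sm
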