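import Pool.Agent.Lib.MP_696deb_nt.Sa.Cnt

/-! Random symmetric matrices over the field with two elements: rank bounds. -/

set_option autoImplicit false

open Finset
open scoped Classical

namespace Pool.Agent.Lib.MP_696deb_nt.Sa

/-- Ordered pairs of indices. -/
abbrev Up (ι : Type) [LinearOrder ι] : Type := {e : ι × ι // e.1 < e.2}

variable {ι : Type} [Fintype ι] [LinearOrder ι]

/-- The symmetric matrix with zero diagonal. -/
def symm (a : Up ι → ZMod 2) (i j : ι) : ZMod 2 :=
  if h : i < j then a ⟨(i, j), h⟩ else if h : j < i then a ⟨(j, i), h⟩ else 0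

/-- The Laplacian of the graph `a`. -/
def LL (a : Up ι → ZMod 2) (w : ι → ZMod 2) (j : ι) : ZMod 2 := ∑ i, (w i + w j) * symm a i j

/-- Constant vectors. -/
def Cst {ι : Type} (w : ι → ZMod 2) : Prop := ∀ i j, w i = w j

omit [Fintype ι] in
theorem symm_comm (a : Up ι → ZMod 2) (i j : ι) : symm a i j = symm a j i := by
  rcases lt_trichotomy i j with h | rfl | h
  · simp [symm, h, h.not_gt]
  · rfl
  · simp [symm, h, h.not_gt]

theorem LL_add (a : Up ι → ZMod 2) (v w : ι → ZMod 2) : LL a (v + w) = LL a v + LL a w := by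
  funext j
  simp only [LL, Pi.add_apply, ← sum_add_distrib]
  exact sum_congr rfl fun i _ => by ring

theorem LL_cst (a : Up ι → ZMod 2) {w : ι → ZMod 2} (h : Cst w) : LL a w = 0 := by
  funext j
  exact sum_eq_zero fun i _ => by rw [h i j, CharTwo.add_self_eq_zero, zero_mul]

theorem genA_two (t : ZMod 2) : t = 0 ∨ t = 1 := by revert t; decide

theorem genA_four {σ : Type} [Fintype σ] [DecidableEq σ] (x : σ → ZMod 2) :
    ∑ l : σ → ZMod 2, sg (∑ s, l s * x s) =
      if x = 0 then (Fintype.card (σ → ZMod 2) : ℝ) else 0 := by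
  split_ifs with h
  · simp [h, sg_zero]
  · obtain ⟨s, hs⟩ := Function.ne_iff.1 h
    have h1 : x s = 1 := (genA_two _).resolve_left hs
    simp only [sg_sum]
    rw [← Fintype.piFinset_univ, ← prod_univ_sum (fun _ => univ) fun s t => sg (t * x s)]
    refine prod_eq_zero (mem_univ s) ?_
    rw [show (univ : Finset (ZMod 2)) = {0, 1} by decide, sum_pair (by decide), h1]
    simp [sg_zero, sg_one]

theorem genA_sum (a : Up ι → ZMod 2) (g : ι → ι → ZMod 2) :
    ∑ j, ∑ i, g i j * symm a i j = ∑ e : Up ι, a e * (g e.1.1 e.1.2 + g e.1.2 e.1.1) := by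
  obtain ⟨u, hu⟩ : ∃ u : ι → ι → ZMod 2, ∀ i j, u i j =
    if h : i < j then a ⟨(i, j), h⟩ else 0 := ⟨_, fun _ _ => rfl⟩
  have e1 : ∀ i j, symm a i j = u i j + u j i := fun i j => by
    rcases lt_trichotomy i j with h | rfl | h
    · simp [symm, hu, h, h.not_gt]
    · simp [symm, hu]
    · simp [symm, hu, h, h.not_gt]
  have e2 : ∀ g : ι → ι → ZMod 2, ∑ i, ∑ j, g i j * u i j = ∑ e : Up ι, a e * g e.1.1 e.1.2 :=
    fun g => by
      rw [← Fintype.sum_prod_type' fun i j => g i j * u i j,
        ← sum_filter_of_ne (p := fun p : ι × ι => p.1 < p.2) fun p _ hp => by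
          by_contra k
          exact hp (by rw [hu, dif_neg k, mul_zero]),
        sum_subtype (p := fun p : ι × ι => p.1 < p.2) _ (by simp)]
      exact sum_congr rfl fun e _ => by rw [hu, dif_pos e.2, mul_comm]
  simp only [e1, mul_add, sum_add_distrib]
  rw [sum_comm, e2, e2 fun j i => g i j]

theorem genA_rel {d : ℕ} (w : Fin d → ι → ZMod 2)
    (h : ∀ c : Fin d → ZMod 2, Cst (∑ k, c k • w k) → c = 0) :
    (univ.filter fun l : Fin d × ι → ZMod 2 => ∀ e : Up ι,
      ∑ k, (l (k, e.1.1) + l (k, e.1.2)) * (w k e.1.1 + w k e.1.2) = 0).card ≤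
      2 ^ (d * (d + 1)) := by
  rcases isEmpty_or_nonempty ι with h0 | ⟨⟨o⟩⟩
  · exact (card_le_one_of_subsingleton _).trans Nat.one_le_two_pow
  obtain ⟨κ, t, ht, h1, h2⟩ := exists_linearIndependent' (ZMod 2) fun j k => w k j + w k o
  have := Finite.of_injective t ht
  have := Fintype.ofFinite κ
  have h3 : Fintype.card κ ≤ d := by simpa using h2.fintype_card_le_finrank
  have h4 : ∀ c : Fin d → ZMod 2, (∀ x, ∑ k, c k * (w k (t x) + w k o) = 0) → c = 0 := fun c hc => by
    have h5 : Submodule.span (ZMod 2) (Set.range fun j k => w k j + w k o) ≤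
        LinearMap.ker (Fintype.linearCombination (ZMod 2) c) := by
      rw [← h1, Submodule.span_le]
      rintro _ ⟨x, rfl⟩
      simpa [Fintype.linearCombination_apply, mul_comm] using hc x
    have h6 : ∀ j, (∑ k, c k • w k) j = (∑ k, c k • w k) o := fun j => by
      have := h5 (Submodule.subset_span ⟨j, rfl⟩)
      simp only [LinearMap.mem_ker, Fintype.linearCombination_apply, smul_eq_mul, add_mul,
        sum_add_distrib, CharTwo.add_eq_zero] at this
      simpa [mul_comm] using this
    exact h c fun i j => (h6 i).trans (h6 j).symm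
  refine (card_le_card_of_injOn (t := univ)
    (fun l (p : Fin d × Option κ) => l (p.1, p.2.elim o t)) (by simp) fun l hl l' hl' e => ?_).trans ?_
  · simp only [coe_filter, mem_univ, true_and, Set.mem_ofPred_eq] at hl hl'
    have h7 : ∀ i j, i < j → ∑ k, ((l + l') (k, i) + (l + l') (k, j)) * (w k i + w k j) = 0 :=
      fun i j hij => by
        rw [← add_zero 0, ← congrArg₂ (· + ·) (hl ⟨(i, j), hij⟩) (hl' ⟨(i, j), hij⟩),
          ← sum_add_distrib]
        exact sum_congr rfl fun k _ => by simp only [Pi.add_apply]; ring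
    have h8 : ∀ i (y : Option κ), ∑ k, (l + l') (k, i) * (w k i + w k (y.elim o t)) = 0 :=
      fun i y => by
        have h9 : ∀ k, (l + l') (k, y.elim o t) = 0 := fun k =>
          CharTwo.add_eq_zero.2 (congrFun e (k, y))
        rcases lt_trichotomy i (y.elim o t) with hij | hij | hij
        · simpa only [h9, add_zero] using h7 _ _ hij
        · simp only [hij, h9, zero_mul, sum_const_zero]
        · simpa only [h9, zero_add, add_comm (w _ i)] using h7 _ _ hij
    funext ⟨k, i⟩
    refine CharTwo.add_eq_zero.1 (congrFun (h4 (fun k => (l + l') (k, i)) fun x => ?_) k)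
    rw [← add_zero 0, ← congrArg₂ (· + ·) (h8 i none) (h8 i (some x)), ← sum_add_distrib]
    refine sum_congr rfl fun k _ => ?_
    simp only [Option.elim]
    linear_combination (-(l + l') (k, i)) * CharTwo.add_self_eq_zero (w k i)
  · simp only [card_univ, Fintype.card_fun, ZMod.card, Fintype.card_prod, Fintype.card_fin,
      Fintype.card_option]
    exact Nat.pow_le_pow_right two_pos (Nat.mul_le_mul_left d (by omega))

/-- Independent vectors give almost independent conditions. -/
theorem rank_le {d : ℕ} (w b : Fin d → ι → ZMod 2)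
    (h : ∀ c : Fin d → ZMod 2, Cst (∑ k, c k • w k) → c = 0) :
    ((univ.filter fun a : Up ι → ZMod 2 => ∀ k, LL a (w k) = b k).card : ℝ) ≤
      2 ^ (d * (d + 1)) * (1 / 2) ^ (d * Fintype.card ι) * Fintype.card (Up ι → ZMod 2) := by
  have e1 : ((univ.filter fun a : Up ι → ZMod 2 => ∀ k, LL a (w k) = b k).card : ℝ) *
      2 ^ (d * Fintype.card ι) = ∑ a : Up ι → ZMod 2, ∑ l : Fin d × ι → ZMod 2,
        sg (∑ p, l p * (LL a (w p.1) p.2 + b p.1 p.2)) := by
    simp only [genA_four, Fintype.card_fun, ZMod.card, Fintype.card_prod, Fintype.card_fin]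
    rw [← sum_filter, sum_const, nsmul_eq_mul, Nat.cast_pow, Nat.cast_ofNat]
    congr 3
    ext a
    simp only [funext_iff, Prod.forall, Pi.zero_apply, CharTwo.add_eq_zero]
  have e2 : ∀ (a : Up ι → ZMod 2) (l : Fin d × ι → ZMod 2), ∑ p, l p * LL a (w p.1) p.2 =
      ∑ e : Up ι, a e * ∑ k, (l (k, e.1.1) + l (k, e.1.2)) * (w k e.1.1 + w k e.1.2) :=
    fun a l => by
      simp only [Fintype.sum_prod_type, LL, mul_sum, ← mul_assoc]
      rw [sum_comm (γ := Up ι)]
      refine sum_congr rfl fun k _ => (genA_sum a fun i j => l (k, j) * (w k i + w k j)).trans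
        (sum_congr rfl fun e _ => by ring)
  have e3 : ∀ l : Fin d × ι → ZMod 2, ∑ a : Up ι → ZMod 2,
      sg (∑ p, l p * (LL a (w p.1) p.2 + b p.1 p.2)) ≤ if ∀ e : Up ι,
        ∑ k, (l (k, e.1.1) + l (k, e.1.2)) * (w k e.1.1 + w k e.1.2) = 0 then
          (Fintype.card (Up ι → ZMod 2) : ℝ) else 0 := fun l => by
    simp only [mul_add (l _), sum_add_distrib, sg_add, e2, ← sum_mul, genA_four, funext_iff,
      Pi.zero_apply]
    refine mul_le_of_le_one_right (by positivity) ((le_abs_self _).trans (abs_sg _).le)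
  have e4 := sum_le_sum fun l (_ : l ∈ univ) => e3 l
  rw [sum_comm, ← e1, ← sum_filter, sum_const, nsmul_eq_mul] at e4
  have e5 := mul_le_mul_of_nonneg_right (Nat.cast_le (α := ℝ).2 (genA_rel w h))
    (Nat.cast_nonneg (Fintype.card (Up ι → ZMod 2)))
  rw [one_div_pow, mul_one_div, div_mul_eq_mul_div, le_div_iff₀ (by positivity)]
  exact e4.trans (by exact_mod_cast e5)

theorem rank_one {w : ι → ZMod 2} (h : ¬ Cst w) (b : ι → ZMod 2) :
    ((univ.filter fun a : Up ι → ZMod 2 => LL a w = b).card : ℝ) ≤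
      4 * (1 / 2) ^ Fintype.card ι * Fintype.card (Up ι → ZMod 2) := by
  have := rank_le ![w] ![b] fun c hc => by
    funext k
    obtain rfl := Fin.fin_one_eq_zero k
    exact (genA_two _).resolve_right fun k => h (by simpa [k] using hc)
  norm_num at this ⊢
  exact this

theorem rank_two {v w : ι → ZMod 2} (h1 : ¬ Cst v) (h2 : ¬ Cst w) (h3 : ¬ Cst (v + w))
    (b c : ι → ZMod 2) :
    ((univ.filter fun a : Up ι → ZMod 2 => LL a v = b ∧ LL a w = c).card : ℝ) ≤
      64 * (1 / 4) ^ Fintype.card ι * Fintype.card (Up ι → ZMod 2) := by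
  have := rank_le ![v, w] ![b, c] fun t ht => by
    rw [Fin.sum_univ_two] at ht
    rcases genA_two (t 0) with k | k <;> rcases genA_two (t 1) with k' | k'
    · exact funext (Fin.forall_fin_two.2 ⟨k, k'⟩)
    · exact (h2 (by simpa [k, k'] using ht)).elim
    · exact (h1 (by simpa [k, k'] using ht)).elim
    · exact (h3 (by simpa [k, k'] using ht)).elim
  rw [pow_mul (1 / 2 : ℝ)] at this
  norm_num [Fin.forall_fin_two] at this ⊢
  exact this

end Pool.Agent.Lib.MP_696deb_nt.Sa
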