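import Pool.Agent.Lib.MP_696deb_nt.Sa.GenA

/-! Random symmetric matrices: triples of vectors whose span meets a small set. -/

set_option autoImplicit false

open Finset
open scoped Classical

namespace Pool.Agent.Lib.MP_696deb_nt.Sa

variable {ι : Type} [Fintype ι] [LinearOrder ι]

/-- The span of `u` and the constant vectors. -/
noncomputable def sp {d : ℕ} (u : Fin d → ι → ZMod 2) : Submodule (ZMod 2) (ι → ZMod 2) :=
  Submodule.span (ZMod 2) (insert 1 (Set.range u))

theorem genb_two (c : ZMod 2) : c = 0 ∨ c = 1 := by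
  revert c
  decide

omit [LinearOrder ι] in
theorem genb_card (V : Submodule (ZMod 2) (ι → ZMod 2)) :
    (Nat.card V : ℝ) = 2 ^ Module.finrank (ZMod 2) V := by
  rw [Module.natCard_eq_pow_finrank (K := ZMod 2), Nat.card_zmod]
  norm_cast

omit [LinearOrder ι] in
theorem genb_sup (V : Submodule (ZMod 2) (ι → ZMod 2)) (u : ι → ZMod 2) :
    Module.finrank (ZMod 2) (V ⊔ Submodule.span (ZMod 2) {u} : Submodule (ZMod 2) (ι → ZMod 2)) ≤
      Module.finrank (ZMod 2) V + 1 :=
  (Submodule.finrank_add_le_finrank_add_finrank _ _).trans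
    (Nat.add_le_add_left ((finrank_span_le_card ({u} : Set (ι → ZMod 2))).trans (by simp)) _)

omit [LinearOrder ι] in
theorem genb_lt {V : Submodule (ZMod 2) (ι → ZMod 2)} {u : ι → ZMod 2} (h : u ∉ V) :
    Module.finrank (ZMod 2) V + 1 ≤
      Module.finrank (ZMod 2) (V ⊔ Submodule.span (ZMod 2) {u} : Submodule (ZMod 2) (ι → ZMod 2)) :=
  Submodule.finrank_lt_finrank_of_lt (lt_of_le_of_ne le_sup_left fun e =>
    h (e ▸ Submodule.mem_sup_right (Submodule.mem_span_singleton_self u)))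

theorem genb_filter (V : Submodule (ZMod 2) (ι → ZMod 2)) :
    (univ.filter fun w : ι → ZMod 2 => w ∈ V).card = Nat.card V := by
  rw [Nat.card_eq_fintype_card, Fintype.card_subtype]

theorem genb_univ : (Fintype.card (ι → ZMod 2) : ℝ) = 2 ^ Fintype.card ι := by
  rw [Fintype.card_fun, ZMod.card]
  norm_cast

theorem rank_sp [Nonempty ι] {d : ℕ} (u b : Fin d → ι → ZMod 2) :
    ((univ.filter fun a : Up ι → ZMod 2 => ∀ k, LL a (u k) = b k).card : ℝ) ≤
      2 ^ (d * (d + 1)) * (2 / Nat.card (sp u) : ℝ) ^ Fintype.card ι *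
        Fintype.card (Up ι → ZMod 2) := by
  rcases (univ.filter fun a : Up ι → ZMod 2 => ∀ k, LL a (u k) = b k).eq_empty_or_nonempty with
    h | ⟨a₀, h₀⟩
  · rw [h, card_empty, Nat.cast_zero]
    positivity
  obtain ⟨j₀⟩ := ‹Nonempty ι›
  let U : Submodule (ZMod 2) (ι → ZMod 2) :=
    Submodule.span (ZMod 2) (Set.range fun k => u k - u k j₀ • (1 : ι → ZMod 2))
  have one : (1 : ι → ZMod 2) ∈ sp u := Submodule.subset_span (Set.mem_insert _ _)
  have hU : U ≤ sp u := Submodule.span_le.2 (by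
    rintro _ ⟨k, rfl⟩
    exact sub_mem (Submodule.subset_span (Set.mem_insert_of_mem _ ⟨k, rfl⟩))
      (Submodule.smul_mem _ _ one))
  have hU0 : ∀ w ∈ U, w j₀ = 0 := fun w hw => by
    induction hw using Submodule.span_induction with
    | mem x hx =>
      obtain ⟨k, rfl⟩ := hx
      simp
    | zero => rfl
    | add x y _ _ hx hy => rw [Pi.add_apply, hx, hy, add_zero]
    | smul c x _ hx => rw [Pi.smul_apply, hx, smul_zero]
  have hU1 : sp u ≤ U ⊔ Submodule.span (ZMod 2) {1} := Submodule.span_le.2 (by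
    rintro _ (rfl | ⟨k, rfl⟩)
    · exact Submodule.mem_sup_right (Submodule.mem_span_singleton_self _)
    · rw [← sub_add_cancel (u k) (u k j₀ • (1 : ι → ZMod 2))]
      exact Submodule.add_mem_sup (Submodule.subset_span ⟨k, rfl⟩)
        (Submodule.smul_mem _ _ (Submodule.mem_span_singleton_self _)))
  have hd : Module.finrank (ZMod 2) U ≤ d :=
    (finrank_range_le_card _).trans_eq (Fintype.card_fin d)
  have hd' := (Submodule.finrank_mono hU1).trans (genb_sup U 1)
  let B := Module.finBasis (ZMod 2) U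
  have hL : ∀ a : Up ι → ZMod 2, (∀ k, LL a (u k) = b k) → ∀ w ∈ sp u, LL a w = LL a₀ w := by
    intro a ha w hw
    induction hw using Submodule.span_induction with
    | mem x hx =>
      rcases hx with rfl | ⟨k, rfl⟩
      · rw [LL_cst a fun _ _ => rfl, LL_cst a₀ fun _ _ => rfl]
      · rw [ha, (mem_filter.1 h₀).2]
    | zero => rw [LL_cst a fun _ _ => rfl, LL_cst a₀ fun _ _ => rfl]
    | add x y _ _ hx hy => rw [LL_add, LL_add, hx, hy]
    | smul c x _ hx =>
      rcases genb_two c with rfl | rfl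
      · rw [zero_smul, LL_cst a fun _ _ => rfl, LL_cst a₀ fun _ _ => rfl]
      · rwa [one_smul]
  have key := rank_le (fun k => (B k : ι → ZMod 2)) (fun k => LL a₀ (B k)) fun c hc => by
    have e : ∑ k, c k • (B k : ι → ZMod 2) = (∑ k, c k • B k : U) := by simp
    rw [e] at hc
    exact funext (Fintype.linearIndependent_iff.1 B.linearIndependent c
      (Subtype.ext (funext fun j => (hc j j₀).trans (hU0 _ (Subtype.prop _)))))
  refine le_trans (Nat.cast_le.2 (card_le_card fun a ha => mem_filter.2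
    ⟨mem_univ _, fun k => hL a (mem_filter.1 ha).2 _ (hU (B k).2)⟩)) (key.trans ?_)
  have e : (1 / 2 : ℝ) ^ Module.finrank (ZMod 2) U ≤ 2 / Nat.card (sp u) := by
    rw [genb_card, le_div_iff₀ (by positivity), one_div, inv_pow, inv_mul_le_iff₀ (by positivity),
      ← pow_succ]
    exact pow_le_pow_right₀ one_le_two hd'
  rw [pow_mul (1 / 2 : ℝ)]
  gcongr
  exact one_le_two

theorem ts_one (V : Submodule (ZMod 2) (ι → ZMod 2)) :
    ∑ u : ι → ZMod 2, ((Nat.card V : ℝ) / Nat.card (V ⊔ Submodule.span (ZMod 2) {u} :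
      Submodule (ZMod 2) (ι → ZMod 2))) ^ Fintype.card ι ≤ Nat.card V + 1 := by
  have h : ∀ u : ι → ZMod 2, ((Nat.card V : ℝ) / Nat.card (V ⊔ Submodule.span (ZMod 2) {u} :
      Submodule (ZMod 2) (ι → ZMod 2))) ^ Fintype.card ι ≤
      (if u ∈ V then 1 else 0) + (1 / 2) ^ Fintype.card ι := fun u => by
    rw [genb_card, genb_card]
    split_ifs with h
    · refine le_trans (pow_le_one₀ (by positivity) (div_le_one_of_le₀ ?_ (by positivity)))
        (le_add_of_nonneg_right (by positivity))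
      exact pow_le_pow_right₀ one_le_two (Submodule.finrank_mono le_sup_left)
    · rw [zero_add]
      refine pow_le_pow_left₀ (by positivity) ?_ _
      rw [div_le_div_iff₀ (by positivity) two_pos, one_mul, ← pow_succ]
      exact pow_le_pow_right₀ one_le_two (genb_lt h)
  refine (sum_le_sum fun u _ => h u).trans (le_of_eq ?_)
  rw [sum_add_distrib, sum_boole, genb_filter, sum_const, card_univ, nsmul_eq_mul, genb_univ,
    ← mul_pow]
  norm_num

/-- One term of the telescoping product. -/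
noncomputable def genbT (V : Submodule (ZMod 2) (ι → ZMod 2)) (u : ι → ZMod 2) : ℝ :=
  ((Nat.card V : ℝ) / Nat.card (V ⊔ Submodule.span (ZMod 2) {u} :
    Submodule (ZMod 2) (ι → ZMod 2))) ^ Fintype.card ι

theorem genb_ts {V : Submodule (ZMod 2) (ι → ZMod 2)} {n : ℕ} (h : Module.finrank (ZMod 2) V ≤ n) :
    ∑ u, genbT V u ≤ 2 ^ n + 1 :=
  (ts_one V).trans (by
    rw [genb_card]
    exact add_le_add (pow_le_pow_right₀ one_le_two h) le_rfl)

theorem genb_three (V : Submodule (ZMod 2) (ι → ZMod 2)) (h : Module.finrank (ZMod 2) V = 2) :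
    ∑ u : Fin 3 → ι → ZMod 2, genbT V (u 0) * genbT (V ⊔ Submodule.span (ZMod 2) {u 0}) (u 1) *
      genbT (V ⊔ Submodule.span (ZMod 2) {u 0} ⊔ Submodule.span (ZMod 2) {u 1}) (u 2) ≤ 2 ^ 10 := by
  let e : (Fin 3 → ι → ZMod 2) ≃ (ι → ZMod 2) × (ι → ZMod 2) × (ι → ZMod 2) :=
    ⟨fun u => (u 0, u 1, u 2), fun p => ![p.1, p.2.1, p.2.2],
      fun u => funext fun i => by fin_cases i <;> rfl, fun _ => rfl⟩
  have p : ∀ V u, 0 ≤ genbT (ι := ι) V u := fun V u => by
    unfold genbT
    positivity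
  refine (Fintype.sum_equiv e _ (fun p => genbT V p.1 *
    genbT (V ⊔ Submodule.span (ZMod 2) {p.1}) p.2.1 *
    genbT (V ⊔ Submodule.span (ZMod 2) {p.1} ⊔ Submodule.span (ZMod 2) {p.2.1}) p.2.2)
    fun _ => rfl).trans_le ?_
  simp only [Fintype.sum_prod_type, mul_assoc, ← mul_sum]
  have f1 : ∀ x, Module.finrank (ZMod 2) (V ⊔ Submodule.span (ZMod 2) {x} :
      Submodule (ZMod 2) (ι → ZMod 2)) ≤ 3 := fun x => (genb_sup V x).trans_eq (by rw [h])
  refine le_trans (sum_le_sum fun x _ => mul_le_mul_of_nonneg_left (le_trans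
    (sum_le_sum fun y _ => mul_le_mul_of_nonneg_left
      (genb_ts (n := 4) ((genb_sup _ y).trans (Nat.succ_le_succ (f1 x)))) (p _ _))
    ((le_of_eq (sum_mul ..).symm).trans
      (mul_le_mul_of_nonneg_right (genb_ts (f1 x)) (by positivity)))) (p _ _)) ?_
  rw [← sum_mul]
  exact (mul_le_mul_of_nonneg_right (genb_ts h.le) (by positivity)).trans (by norm_num)

theorem rank_three [Nonempty ι] (W : Finset (ι → ZMod 2)) (hW : ∀ v ∈ W, ¬ Cst v)
    (b : (Fin 3 → ι → ZMod 2) → Fin 3 → ι → ZMod 2) :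
    ((univ.filter fun a : Up ι → ZMod 2 => ∃ u : Fin 3 → ι → ZMod 2,
      (∃ v ∈ W, v ∈ sp u) ∧ ∀ k, LL a (u k) = b u k).card : ℝ) ≤
      2 ^ 22 * W.card * (1 / 2) ^ Fintype.card ι * Fintype.card (Up ι → ZMod 2) := by
  let N : ℝ := Fintype.card (Up ι → ZMod 2)
  have h1 : ∀ v ∈ W, ∑ u : Fin 3 → ι → ZMod 2, (if v ∈ sp u then
      ((univ.filter fun a : Up ι → ZMod 2 => ∀ k, LL a (u k) = b u k).card : ℝ) else 0) ≤
      2 ^ 22 * (1 / 2) ^ Fintype.card ι * N := fun v hv => by
    let V : Submodule (ZMod 2) (ι → ZMod 2) :=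
      Submodule.span (ZMod 2) {1} ⊔ Submodule.span (ZMod 2) {v}
    have f1 : Module.finrank (ZMod 2) (Submodule.span (ZMod 2) {(1 : ι → ZMod 2)}) = 1 :=
      finrank_span_singleton one_ne_zero
    have f2 : Module.finrank (ZMod 2) V = 2 := le_antisymm ((genb_sup _ v).trans_eq (by rw [f1]))
      (le_trans (by rw [f1]) (genb_lt fun h => by
        obtain ⟨c, rfl⟩ := Submodule.mem_span_singleton.1 h
        exact hW _ hv fun _ _ => rfl))
    refine le_trans (sum_le_sum fun u _ => ?_) ((le_of_eq (mul_sum ..).symm).trans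
      (le_trans (mul_le_mul_of_nonneg_left (genb_three V f2)
        (show 0 ≤ 2 ^ 12 * (1 / 2 : ℝ) ^ Fintype.card ι * N by positivity)) (le_of_eq (by ring))))
    split_ifs with h
    swap
    · unfold genbT
      positivity
    refine (rank_sp u (b u)).trans ?_
    have hle : V ⊔ Submodule.span (ZMod 2) {u 0} ⊔ Submodule.span (ZMod 2) {u 1} ⊔
        Submodule.span (ZMod 2) {u 2} ≤ sp u := by
      have m : ∀ k, u k ∈ sp u := fun k =>
        Submodule.subset_span (Set.mem_insert_of_mem _ ⟨k, rfl⟩)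
      simp only [V, sup_le_iff, Submodule.span_singleton_le_iff_mem]
      exact ⟨⟨⟨⟨Submodule.subset_span (Set.mem_insert _ _), h⟩, m 0⟩, m 1⟩, m 2⟩
    have hle' := pow_le_pow_right₀ (one_le_two (α := ℝ)) (Submodule.finrank_mono hle)
    unfold genbT
    rw [← mul_pow, ← mul_pow, mul_right_comm (2 ^ 12 * _ : ℝ) N,
      mul_assoc (2 ^ 12 : ℝ) ((1 / 2) ^ _), ← mul_pow]
    refine mul_le_mul_of_nonneg_right (mul_le_mul (by norm_num)
      (pow_le_pow_left₀ (by positivity) ?_ _) (by positivity) (by positivity)) (by positivity)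
    simp only [genb_card, f2]
    refine (div_le_div_of_nonneg_left zero_le_two (by positivity) hle').trans (le_of_eq ?_)
    field_simp
  refine le_trans ?_ ((sum_le_sum h1).trans (le_of_eq (by rw [sum_const, nsmul_eq_mul]; ring)))
  have h2 : (univ.filter fun a : Up ι → ZMod 2 => ∃ u : Fin 3 → ι → ZMod 2,
      (∃ v ∈ W, v ∈ sp u) ∧ ∀ k, LL a (u k) = b u k) ⊆ W.biUnion fun v =>
        (univ.filter fun u : Fin 3 → ι → ZMod 2 => v ∈ sp u).biUnion fun u =>
          univ.filter fun a : Up ι → ZMod 2 => ∀ k, LL a (u k) = b u k := fun a ha => by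
    obtain ⟨u, ⟨v, hv, hu⟩, h⟩ := (mem_filter.1 ha).2
    exact mem_biUnion.2 ⟨v, hv, mem_biUnion.2 ⟨u, mem_filter.2 ⟨mem_univ _, hu⟩,
      mem_filter.2 ⟨mem_univ _, h⟩⟩⟩
  have h3 := (card_le_card h2).trans (card_biUnion_le.trans (sum_le_sum fun v _ => card_biUnion_le))
  simp only [← sum_filter]
  exact_mod_cast h3

theorem genb_sum (f : ZMod 2 → ℝ) : ∑ b, f b = f 0 + f 1 := Fin.sum_univ_two f

theorem genb_side (I : Finset ι) {t : ℝ} (ht : 0 ≤ t) {ε : ℝ} (hε : ε = 1 ∨ ε = -1) :
    ((univ.filter fun w : ι → ZMod 2 => t * I.card < ε * ∑ j ∈ I, sg (w j)).card : ℝ) ≤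
      Real.exp (-(t ^ 2 * I.card / 2)) * 2 ^ Fintype.card ι := by
  have h1 : ∀ w : ι → ZMod 2, (if t * I.card < ε * ∑ j ∈ I, sg (w j) then (1 : ℝ) else 0) ≤
      Real.exp (-(t ^ 2 * I.card)) * ∏ j, if j ∈ I then Real.exp (t * ε * sg (w j)) else 1 := by
    intro w
    rw [prod_ite_mem, univ_inter, ← Real.exp_sum, ← Real.exp_add, ← mul_sum]
    split_ifs with h
    · exact Real.one_le_exp (by nlinarith [mul_le_mul_of_nonneg_left h.le ht])
    · positivity
  have h2 : ∀ j, ∑ b : ZMod 2, (if j ∈ I then Real.exp (t * ε * sg b) else 1) ≤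
      2 * if j ∈ I then Real.exp (t ^ 2 / 2) else 1 := fun j => by
    rw [genb_sum, sg_zero, sg_one]
    have := Real.cosh_le_exp_half_sq t
    rw [Real.cosh_eq] at this
    split_ifs
    · rcases hε with rfl | rfl <;> simp only [mul_one, mul_neg, neg_neg] <;> linarith
    · norm_num
  rw [← sum_boole]
  refine (sum_le_sum fun w _ => h1 w).trans ?_
  rw [← mul_sum, ← Fintype.piFinset_univ, ← prod_univ_sum (fun _ => univ)
    fun j (b : ZMod 2) => if j ∈ I then Real.exp (t * ε * sg b) else 1]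
  refine (mul_le_mul_of_nonneg_left (prod_le_prod (fun j _ => sum_nonneg fun b _ => by positivity)
    fun j _ => h2 j) (Real.exp_pos _).le).trans (le_of_eq ?_)
  rw [prod_mul_distrib, prod_const, card_univ, prod_ite_mem, univ_inter, prod_const,
    ← Real.exp_nat_mul, mul_left_comm, ← Real.exp_add, mul_comm]
  congr 2
  ring

/-- The inequality of Hoeffding for signs. -/
theorem hoeff (I : Finset ι) {t : ℝ} (ht : 0 ≤ t) :
    ((univ.filter fun w : ι → ZMod 2 => t * I.card < |∑ j ∈ I, sg (w j)|).card : ℝ) ≤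
      2 * Real.exp (-(t ^ 2 * I.card / 2)) * 2 ^ Fintype.card ι := by
  have h : (univ.filter fun w : ι → ZMod 2 => t * I.card < |∑ j ∈ I, sg (w j)|) ⊆
      (univ.filter fun w : ι → ZMod 2 => t * I.card < 1 * ∑ j ∈ I, sg (w j)) ∪
        univ.filter fun w : ι → ZMod 2 => t * I.card < -1 * ∑ j ∈ I, sg (w j) := fun w hw => by
    simpa only [mem_union, mem_filter, mem_univ, true_and, lt_abs, one_mul, neg_mul] using hw
  have h1 := genb_side I ht (ε := 1) (Or.inl rfl)
  have h2 := genb_side I ht (ε := -1) (Or.inr rfl)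
  have h3 : (_ : ℝ) ≤ _ := Nat.cast_le.2 ((card_le_card h).trans (card_union_le _ _))
  rw [Nat.cast_add] at h3
  linarith

/-- Vectors that are prescribed on a set. -/
theorem card_presc (x y : ι → ZMod 2) {H : ℕ} (h : H ≤ (univ.filter fun j => x j = 1).card) :
    ((univ.filter fun w : ι → ZMod 2 => ∀ j, w j * x j = y j).card : ℝ) ≤
      (1 / 2) ^ H * 2 ^ Fintype.card ι := by
  have h1 : (univ.filter fun w : ι → ZMod 2 => ∀ j, w j * x j = y j) ⊆
      Fintype.piFinset fun j => if x j = 1 then {y j} else univ := fun w hw => by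
    refine Fintype.mem_piFinset.2 fun j => ?_
    split_ifs with k
    · rw [mem_singleton, ← (mem_filter.1 hw).2 j, k, mul_one]
    · exact mem_univ _
  have h2 : ∀ j, ((if x j = 1 then {y j} else univ : Finset (ZMod 2)).card : ℝ) =
      (if x j = 1 then 1 / 2 else 1) * 2 := fun j => by
    split_ifs <;> simp
  refine (Nat.cast_le.2 (card_le_card h1)).trans ?_
  rw [Fintype.card_piFinset, Nat.cast_prod, prod_congr rfl fun j _ => h2 j, prod_mul_distrib,
    prod_const, card_univ, ← prod_filter, prod_const]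
  exact mul_le_mul_of_nonneg_right (pow_le_pow_of_le_one (by norm_num) (by norm_num) h)
    (by positivity)

/-- Independent linear conditions. -/
theorem card_lin {Q : Type} [Fintype Q] (l : Q → ι → ZMod 2)
    (h : ∀ c : Q → ZMod 2, ∑ q, c q • l q = 0 → c = 0) (y : Q → ZMod 2) :
    ((univ.filter fun w : ι → ZMod 2 => ∀ q, ∑ j, w j * l q j = y q).card : ℝ) ≤
      (1 / 2) ^ Fintype.card Q * 2 ^ Fintype.card ι := by
  rcases (univ.filter fun w : ι → ZMod 2 => ∀ q, ∑ j, w j * l q j = y q).eq_empty_or_nonempty with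
    h₀ | ⟨w₀, h₀⟩
  · rw [h₀, card_empty, Nat.cast_zero]
    positivity
  have li : LinearIndependent (ZMod 2) (Matrix.of l).row :=
    Fintype.linearIndependent_iff.2 fun c hc => congrFun (h c hc)
  have h1 := LinearMap.finrank_range_add_finrank_ker (Matrix.of l).mulVecLin
  have h2 : Module.finrank (ZMod 2) (LinearMap.range (Matrix.of l).mulVecLin) = Fintype.card Q :=
    li.rank_matrix
  rw [h2, Module.finrank_fintype_fun_eq_card] at h1
  have h3 : (univ.filter fun w : ι → ZMod 2 => ∀ q, ∑ j, w j * l q j = y q).card ≤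
      (univ.filter fun w : ι → ZMod 2 => w ∈ LinearMap.ker (Matrix.of l).mulVecLin).card := by
    refine card_le_card_of_injOn (fun w => w - w₀) (fun w hw => ?_) sub_left_injective.injOn
    refine mem_coe.2 (mem_filter.2 ⟨mem_univ _, LinearMap.mem_ker.2 (funext fun q => ?_)⟩)
    have a := (mem_filter.1 (mem_coe.1 hw)).2 q
    have b := (mem_filter.1 h₀).2 q
    simp only [Matrix.mulVecLin_apply, Matrix.mulVec, dotProduct, Matrix.of_apply, Pi.sub_apply,
      sub_mul, sum_sub_distrib, mul_comm (l q _), a, b, sub_self, Pi.zero_apply]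
  refine (Nat.cast_le.2 h3).trans (le_of_eq ?_)
  rw [genb_filter, genb_card, ← h1, pow_add, ← mul_assoc, ← mul_pow]
  norm_num

end Pool.Agent.Lib.MP_696deb_nt.Sa
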