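import Pool.Agent.Lib.MP_696deb_nt.Sm.SampD
import Pool.Agent.Lib.MP_696deb_nt.Sm.Kit

/-! Labels of random patterns are random modulo functions that ignore a small direction. -/

set_option autoImplicit false

open Finset Function
open scoped Classical

namespace Pool.Agent.Lib.MP_696deb_nt.Sa
open Sm

variable {n M : ℕ}

/-- The label attached to a pattern of bits. -/
noncomputable def lab (π : Fin (M + 1) × Fin (M + 1) × Gm n M → F2) (y : Zg n M) : F2 :=
  ∑ γ, π (y ia, y ic, γ) * ∏ j, mu j (y (Sum.inl j)) γ

theorem card_comap {A B : Type} [AddCommGroup A] [AddCommGroup B] [Fintype A] [Fintype B]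
    (φ : A →+ B) (h : Surjective φ) (P : B → Prop) :
    (univ.filter fun x => P (φ x)).card * Fintype.card B =
      (univ.filter P).card * Fintype.card A := by
  have e : ∀ b, (univ.filter fun x => φ x = b).card = (univ.filter fun x => φ x = 0).card :=
    fun b => AddMonoidHom.card_fiber_eq_of_mem_range φ (h b) (h 0)
  have k : ∀ Q : B → Prop, (univ.filter fun x => Q (φ x)).card =
      (univ.filter Q).card * (univ.filter fun x => φ x = 0).card := fun Q => by
    rw [card_eq_sum_card_fiberwise (f := φ) (t := univ.filter Q) fun x hx => by simpa using hx,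
      ← smul_eq_mul, ← sum_const]
    refine sum_congr rfl fun b hb => (congrArg card ?_).trans (e b)
    ext x
    simp only [mem_filter, mem_univ, true_and] at hb ⊢
    exact ⟨And.right, fun k => ⟨k ▸ hb, k⟩⟩
  have k1 := k fun _ => True
  simp only [filter_true, card_univ] at k1
  rw [k, k1]
  ring

theorem lab_add (π π' : Fin (M + 1) × Fin (M + 1) × Gm n M → F2) :
    lab (π + π') = lab π + lab π' := by
  funext y
  simp only [lab, Pi.add_apply, add_mul, sum_add_distrib]

theorem lab_congr (hn : 1 ≤ n) {π π' : Fin (M + 1) × Fin (M + 1) × Gm n M → F2}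
    (h : ∀ s t γ, γ ≠ 0 → π (s, t, γ) = π' (s, t, γ)) : lab π = lab π' := by
  funext y
  refine sum_congr rfl fun γ _ => ?_
  by_cases k : γ = 0
  · subst k
    rw [prod_eq_zero (f := fun j => mu j (y (Sum.inl j)) (0 : Gm n M)) (mem_univ (⟨0, hn⟩ : Fin n))
      (mu_zero _ _), mul_zero, mul_zero]
  · rw [h _ _ _ k]

/-- Patterns with even fibres. -/
def ParG (n M : ℕ) : AddSubgroup (Fin (M + 1) × Fin (M + 1) × Gm n M → F2) where
  carrier := {π | ∀ s t, ∑ γ, π (s, t, γ) = 0}
  zero_mem' := fun _ _ => by simp
  add_mem' := fun ha hb s t => by simp [sum_add_distrib, ha s t, hb s t]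
  neg_mem' := fun ha s t => by simp [ha s t]

/-- Families of functions that ignore one small direction. -/
def IgG (n M : ℕ) : AddSubgroup (Fin n → Zg n M → F2) where
  carrier := {h | ∀ j y s, h j (update y (Sum.inl j) s) = h j y}
  zero_mem' := fun _ _ _ => rfl
  add_mem' := fun ha hb j y s => by simp [ha j y s, hb j y s]
  neg_mem' := fun ha j y s => by simp [ha j y s]

noncomputable def labH (n M : ℕ) : ParG n M × IgG n M →+ (Zg n M → F2) :=
  AddMonoidHom.mk' (fun x => lab x.1.1 + ∑ j, x.2.1 j) fun a b => by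
    simp only [Prod.fst_add, Prod.snd_add, AddSubgroup.coe_add, lab_add, Pi.add_apply,
      sum_add_distrib]
    abel

theorem lab_zero : lab (0 : Fin (M + 1) × Fin (M + 1) × Gm n M → F2) = 0 := by
  funext y
  simp [lab]

theorem single_mem (hn : 1 ≤ n) (y : Zg n M) : Pi.single y 1 ∈ (labH n M).range := by
  induction hk : (univ.filter fun j => y (Sum.inl j) = 0).card using Nat.strong_induction_on
    generalizing y with
  | _ k ih =>
  by_cases h0 : ∃ j, y (Sum.inl j) = 0
  · obtain ⟨j, hj⟩ := h0
    have e : ∑ s, (Pi.single (update y (Sum.inl j) s) 1 : Zg n M → F2) ∈ (labH n M).range := by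
      refine ⟨(0, ⟨Pi.single j (∑ s, Pi.single (update y (Sum.inl j) s) 1), fun i z t => ?_⟩), ?_⟩
      · by_cases hi : i = j
        · subst hi
          have a : ∀ z : Zg n M, ∑ s, (Pi.single (update y (Sum.inl i) s) 1 : Zg n M → F2) z =
              if update z (Sum.inl i) 0 = update y (Sum.inl i) 0 then 1 else 0 := fun z => by
            rw [sum_eq_single (z (Sum.inl i)) (fun s _ hs => Pi.single_eq_of_ne (fun k => hs (by
              rw [k, update_self])) _) (by simp), Pi.single_apply]
            refine if_congr ⟨fun k => by rw [k, update_idem], fun k => ?_⟩ rfl rfl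
            have := congrArg (fun w => update w (Sum.inl i) (z (Sum.inl i))) k
            simpa using this
          simp only [Pi.single_eq_same, Finset.sum_apply, a, update_idem]
        · simp [Pi.single_eq_of_ne hi]
      · simp [labH, lab_zero]
    rw [Fin.sum_univ_succ, ← hj, update_eq_self] at e
    refine (add_mem_cancel_right (sum_mem fun s _ => ih _ ?_ _ rfl)).1 e
    rw [← hk]
    refine card_lt_card ⟨fun i hi => ?_, fun k => ?_⟩
    · simp only [mem_filter, mem_univ, true_and] at hi ⊢
      by_cases k : i = j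
      · rwa [k]
      · rwa [update_of_ne (by simpa using k)] at hi
    · have := k (mem_filter.2 ⟨mem_univ j, hj⟩)
      simp at this
  · let g : Gm n M := fun k => if y (Sum.inl k.1) = k.2.succ then 1 else 0
    have m : ∀ j s, mu j s g = if y (Sum.inl j) = s then 1 else 0 := fun j s => by
      refine Fin.cases ?_ (fun s => rfl) s
      rw [if_neg fun k => h0 ⟨j, k⟩]
      rfl
    refine ⟨(⟨Pi.single (y ia, y ic, g) 1 + Pi.single (y ia, y ic, 0) 1, fun s t => ?_⟩, 0), ?_⟩
    · by_cases k : s = y ia ∧ t = y ic
      · simp [k.1, k.2, sum_add_distrib, Pi.single_apply, CharTwo.add_self_eq_zero]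
      · refine sum_eq_zero fun γ _ => ?_
        rw [Pi.add_apply, Pi.single_eq_of_ne fun e => k ⟨congrArg (·.1) e, congrArg (·.2.1) e⟩,
          Pi.single_eq_of_ne fun e => k ⟨congrArg (·.1) e, congrArg (·.2.1) e⟩, add_zero]
    · have e : lab (Pi.single (y ia, y ic, (0 : Gm n M)) 1) = 0 := by
        rw [← lab_zero]
        exact lab_congr hn fun s t γ k => Pi.single_eq_of_ne (fun e => k (congrArg (·.2.2) e)) _
      simp only [labH, AddMonoidHom.mk'_apply, lab_add, e, add_zero, ZeroMemClass.coe_zero,
        Pi.zero_apply, sum_const_zero]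
      funext z
      rw [lab, sum_eq_single g (fun γ _ k => by
        rw [Pi.single_eq_of_ne fun e => k (congrArg (·.2.2) e), zero_mul]) (by simp)]
      by_cases k : z = y
      · simp [k, m]
      · rw [Pi.single_eq_of_ne k]
        obtain ⟨i, hi⟩ := Function.ne_iff.1 k
        rcases i with j | _ | _
        · rw [prod_eq_zero (mem_univ j) (by rw [m, if_neg hi.symm]), mul_zero]
        · rw [Pi.single_eq_of_ne fun e => hi (congrArg (·.2.1) e), zero_mul]
        · rw [Pi.single_eq_of_ne fun e => hi (congrArg (·.1) e), zero_mul]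

theorem labH_surj (hn : 1 ≤ n) : Surjective (labH n M) := fun Ph => by
  have : Ph ∈ (labH n M).range := by
    rw [← univ_sum_single Ph]
    refine sum_mem fun y _ => ?_
    rcases F2_cases (Ph y) with k | k <;> rw [k]
    · simp
    · exact single_mem hn y
  exact this

theorem lab_count (hn : 1 ≤ n) (Bad : (Zg n M → F2) → Prop) {β : ℝ}
    (h1 : ∀ Ph h i, i ≠ ic → (∀ y s, h (update y i s) = h y) → Bad (Ph + h) → Bad Ph)
    (h2 : (({Ph | Bad Ph} : Finset (Zg n M → F2)).card : ℝ) ≤ β * 2 ^ Fintype.card (Zg n M)) :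
    (((Par (M + 1) (Gm n M)).filter fun π => Bad (lab π)).card : ℝ) ≤
      β * (Par (M + 1) (Gm n M)).card := by
  have a1 : ∀ (h : IgG n M) (Ph : Zg n M → F2) (s : Finset (Fin n)),
      Bad Ph → Bad (Ph + ∑ j ∈ s, h.1 j) := fun h Ph s k => by
    induction s using Finset.induction_on with
    | empty => simpa using k
    | insert j s hj ih =>
      refine h1 _ (h.1 j) (Sum.inl j) (by simp) (h.2 j) ?_
      have z : h.1 j + h.1 j = 0 := funext fun _ => CharTwo.add_self_eq_zero _
      rwa [sum_insert hj, add_comm (h.1 j), add_assoc, add_assoc, z, add_zero]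
  have a2 := card_comap (labH n M) (labH_surj hn) Bad
  have a3 : ((Par (M + 1) (Gm n M)).filter fun π => Bad (lab π)).card * Fintype.card (IgG n M) ≤
      (univ.filter fun x => Bad (labH n M x)).card := by
    rw [← card_univ, ← card_product]
    refine card_le_card_of_surjOn (fun x => (x.1.1, x.2)) ?_
    rintro ⟨π, h⟩ k
    simp only [Par, coe_product, coe_filter, mem_filter, mem_univ, true_and, Set.mem_prod,
      Set.mem_ofPred_eq] at k
    exact ⟨(⟨π, k.1.1⟩, h), by
      simp only [coe_filter, mem_univ, true_and, Set.mem_ofPred_eq]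
      exact a1 h _ _ k.1.2, rfl⟩
  have a4 : Fintype.card (ParG n M) = (Par (M + 1) (Gm n M)).card :=
    Fintype.card_of_subtype _ fun π => by
      simp only [Par, mem_filter, mem_univ, true_and]
      rfl
  rw [Fintype.card_prod, a4] at a2
  have a5 : (Fintype.card (Zg n M → F2) : ℝ) = 2 ^ Fintype.card (Zg n M) := by
    rw [Fintype.card_fun, ZMod.card]; push_cast; rfl
  have a6 : (0 : ℝ) < Fintype.card (IgG n M) := Nat.cast_pos.2 Fintype.card_pos
  have a7 := (Nat.cast_le (α := ℝ)).2 ((Nat.mul_le_mul_right (Fintype.card (Zg n M → F2)) a3).trans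
    a2.le)
  push_cast at a7
  rw [a5] at a7
  refine le_of_mul_le_mul_right ?_ (mul_pos a6 (show (0 : ℝ) < 2 ^ Fintype.card (Zg n M) by positivity))
  rw [← mul_assoc]
  refine a7.trans ((mul_le_mul_of_nonneg_right h2 (by positivity)).trans_eq (by ring))

end Pool.Agent.Lib.MP_696deb_nt.Sa
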