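import Pool.Agent.Lib.MP_696deb_nt.Sa.AnD

/-! Good integers: first moments. -/

set_option autoImplicit false

open Finset
open scoped Classical

namespace Pool.Agent.Lib.MP_696deb_nt.Sa

/-- A bound of the shape `A / sqrt m` gives rarity. -/
theorem anA_rare {P : ℕ → ℕ → ℕ → Prop} (A : ℝ)
    (h : ∀ m, 1 ≤ m → ∀ X, Sz m X → ∀ S : Finset ℕ, (∀ n ∈ S, n ∈ Icc 1 X ∧ P m X n) →
      (S.card : ℝ) ≤ A / Real.sqrt m * X) : Rare P := by
  intro ε hε
  have ht : Filter.Tendsto (fun m : ℕ => A / Real.sqrt m) Filter.atTop (nhds 0) :=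
    tendsto_const_nhds.div_atTop (Real.tendsto_sqrt_atTop.comp tendsto_natCast_atTop_atTop)
  obtain ⟨m0, hm0⟩ := Filter.eventually_atTop.1 (ht.eventually (gt_mem_nhds hε))
  refine ⟨max m0 1, fun m hm X hX => (h m (le_trans (le_max_right _ _) hm) X hX _
    fun n hn => by simpa only [mem_filter] using hn).trans ?_⟩
  exact mul_le_mul_of_nonneg_right (hm0 m (le_trans (le_max_left _ _) hm)).le (Nat.cast_nonneg X)

/-- Markov's inequality for the number of prime factors in an initial segment. -/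
theorem anA_markov (X Z T : ℕ) (S : Finset ℕ) (hS : S ⊆ Icc 1 X)
    (h : ∀ n ∈ S, T ≤ (n.primeFactors ∩ Icc 1 Z).card) :
    (S.card : ℝ) * T ≤ X * (3 * Real.log (1 + Real.log Z) + 7) := by
  have h1 : (S.card : ℝ) * T ≤ ∑ n ∈ S, ((n.primeFactors ∩ Icc 1 Z).card : ℝ) := by
    rw [← nsmul_eq_mul, ← sum_const]
    exact sum_le_sum fun n hn => Nat.cast_le.2 (h n hn)
  have h2 : ∑ n ∈ S, ((n.primeFactors ∩ Icc 1 Z).card : ℝ) ≤
      ∑ n ∈ Icc 1 X, ((n.primeFactors ∩ Icc 1 Z).card : ℝ) :=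
    sum_le_sum_of_subset_of_nonneg hS fun _ _ _ => Nat.cast_nonneg _
  exact h1.trans (h2.trans ((sum_inter_le X _).trans
    (mul_le_mul_of_nonneg_left (sum_inv_prime_le Z) (Nat.cast_nonneg X))))

theorem anA_log2 : Real.log 2 ≤ 1 := by
  have := Real.log_le_sub_one_of_pos (x := 2) (by norm_num)
  linarith

theorem anA_loglog {m X : ℕ} (hm : 1 ≤ m) (h : Sz m X) :
    3 * Real.log (1 + Real.log X) + 7 ≤ 58 * (m : ℝ) ^ 4 := by
  have h0 : 0 ≤ Real.log X := Real.log_natCast_nonneg X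
  have h1 := h.log_le hm
  have h2 : (1 : ℝ) ≤ 2 ^ (16 * m ^ 4) := one_le_pow₀ (by norm_num)
  have h3 : Real.log (1 + Real.log X) ≤ Real.log (2 ^ (16 * m ^ 4 + 1)) := by
    refine Real.log_le_log (by linarith) ?_
    rw [pow_succ]
    linarith
  rw [Real.log_pow] at h3
  have h4 : (1 : ℝ) ≤ (m : ℝ) ^ 4 := one_le_pow₀ (by exact_mod_cast hm)
  have h5 : ((16 * m ^ 4 + 1 : ℕ) : ℝ) * Real.log 2 ≤ 16 * (m : ℝ) ^ 4 + 1 := by
    have : ((16 * m ^ 4 + 1 : ℕ) : ℝ) = 16 * (m : ℝ) ^ 4 + 1 := by push_cast; ring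
    rw [this]
    exact mul_le_of_le_one_right (by linarith) anA_log2
  linarith

theorem anA_sqrt_le {m : ℕ} (hm : 1 ≤ m) : Real.sqrt m ≤ m := by
  have h1 : (1 : ℝ) ≤ m := by exact_mod_cast hm
  rw [Real.sqrt_le_left (by linarith)]
  nlinarith

theorem anA_one_le_sqrt {m : ℕ} (hm : 1 ≤ m) : 1 ≤ Real.sqrt m := by
  have h1 : (1 : ℝ) ≤ m := by exact_mod_cast hm
  exact Real.one_le_sqrt.2 h1

theorem anA_loglogY {m : ℕ} (hm : 1 ≤ m) :
    3 * Real.log (1 + Real.log (YY m)) + 7 ≤ 154 * Real.sqrt m := by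
  have hm1 : (1 : ℝ) ≤ m := by exact_mod_cast hm
  have h0 : 0 ≤ Real.log (YY m) := Real.log_natCast_nonneg _
  have h4 : (1 : ℝ) ≤ (m : ℝ) ^ 24 := one_le_pow₀ hm1
  have h1 : Real.log (YY m) ≤ (m : ℝ) ^ 24 := by
    unfold YY
    push_cast
    rw [Real.log_pow]
    push_cast
    exact mul_le_of_le_one_right (by linarith) anA_log2
  have h3 : Real.log (1 + Real.log (YY m)) ≤ Real.log (2 * (m : ℝ) ^ 24) :=
    Real.log_le_log (by linarith) (by linarith)
  rw [Real.log_mul (by norm_num) (by linarith), Real.log_pow] at h3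
  have hs := anA_one_le_sqrt hm
  have h5 : Real.log m ≤ 2 * Real.sqrt m := by
    have e : Real.log m = 2 * Real.log (Real.sqrt m) := by
      rw [Real.log_sqrt (by linarith)]
      ring
    have := Real.log_le_sub_one_of_pos (x := Real.sqrt m) (by linarith)
    linarith
  have h6 := anA_log2
  push_cast at h3
  linarith

theorem rare1 : Rare fun m _ n => ¬ G1 m n := by
  refine anA_rare 58 fun m hm X hX S hS => ?_
  have hm1 : (1 : ℝ) ≤ m := by exact_mod_cast hm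
  have h1 := anA_markov X X (m ^ 10) S (fun n hn => (hS n hn).1)
    (fun n hn => by
      obtain ⟨hn1, hn2⟩ := hS n hn
      have e : n.primeFactors ∩ Icc 1 X = n.primeFactors := by
        refine inter_eq_left.2 fun p hp => mem_Icc.2 ⟨(Nat.prime_of_mem_primeFactors hp).one_le, ?_⟩
        exact (Nat.le_of_mem_primeFactors hp).trans (mem_Icc.1 hn1).2
      rw [e]
      exact (not_le.1 hn2).le)
  have h2 := h1.trans (mul_le_mul_of_nonneg_left (anA_loglog hm hX) (Nat.cast_nonneg X))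
  have hs := anA_one_le_sqrt hm
  have hs' := anA_sqrt_le hm
  rw [div_mul_eq_mul_div, le_div_iff₀ (by linarith)]
  push_cast at h2
  have h4 : (0 : ℝ) < (m : ℝ) ^ 4 := by positivity
  have h5 : Real.sqrt m * (m : ℝ) ^ 4 ≤ (m : ℝ) ^ 10 := by
    calc Real.sqrt m * (m : ℝ) ^ 4 ≤ m * (m : ℝ) ^ 4 := mul_le_mul_of_nonneg_right hs' h4.le
      _ = (m : ℝ) ^ 5 := by ring
      _ ≤ (m : ℝ) ^ 10 := pow_le_pow_right₀ hm1 (by norm_num)
  refine le_of_mul_le_mul_right ?_ h4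
  calc _ = (S.card : ℝ) * (Real.sqrt m * (m : ℝ) ^ 4) := by
        ring
    _ ≤ (S.card : ℝ) * (m : ℝ) ^ 10 :=
        mul_le_mul_of_nonneg_left h5 (Nat.cast_nonneg _)
    _ ≤ _ := h2
    _ = _ := by ring

theorem rare2 : Rare fun m _ n => ¬ G2 m n := by
  refine anA_rare 154 fun m hm X _ S hS => ?_
  have hm1 : (1 : ℝ) ≤ m := by exact_mod_cast hm
  have h1 := anA_markov X (YY m) m S (fun n hn => (hS n hn).1)
    (fun n hn => by
      obtain ⟨_, hn2⟩ := hS n hn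
      refine (not_le.1 hn2).le.trans (card_le_card fun p hp => ?_)
      obtain ⟨hp1, hp2⟩ := mem_filter.1 hp
      exact mem_inter.2 ⟨hp1, mem_Icc.2 ⟨(Nat.prime_of_mem_primeFactors hp1).one_le, hp2⟩⟩)
  have h2 := h1.trans (mul_le_mul_of_nonneg_left (anA_loglogY hm) (Nat.cast_nonneg X))
  have hs := anA_one_le_sqrt hm
  rw [div_mul_eq_mul_div, le_div_iff₀ (by linarith)]
  have h4 : (0 : ℝ) < Real.sqrt m := by linarith
  have h5 : Real.sqrt m * Real.sqrt m = m := Real.mul_self_sqrt (by linarith)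
  refine le_of_mul_le_mul_right ?_ h4
  calc _ = (S.card : ℝ) * (Real.sqrt m * Real.sqrt m) := by
        ring
    _ = (S.card : ℝ) * m := by rw [h5]
    _ ≤ _ := h2
    _ = _ := by ring

theorem sum_kap_le {m : ℕ} (hm : 1 ≤ m) (k : ℕ) (s : Finset ℕ)
    (h : ∀ p ∈ s, YY m < p ∧ kap m p = k) :
    ∑ p ∈ s, (1 / p : ℝ) ≤ 3 / (m : ℝ) ^ 11 := by
  have hm1 : (1 : ℝ) ≤ m := by exact_mod_cast hm
  have hM : (1 : ℝ) ≤ (m : ℝ) ^ 11 := one_le_pow₀ hm1
  rcases s.eq_empty_or_nonempty with rfl | hs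
  · rw [sum_empty]
    positivity
  obtain ⟨p0, hp0, hmin⟩ := s.exists_min_image id hs
  have hY : (m : ℝ) ^ 11 ≤ p0 := by
    have a1 : m ^ 11 ≤ m ^ 24 := Nat.pow_le_pow_right hm (by norm_num)
    have a2 : m ^ 24 < 2 ^ m ^ 24 := Nat.lt_two_pow_self
    have a3 : 2 ^ m ^ 24 < p0 := (h p0 hp0).1
    exact_mod_cast (a1.trans (a2.trans a3).le)
  have hp0pos : (0 : ℝ) < p0 := by linarith
  set η : ℝ := 1 / (m : ℝ) ^ 11 with hη
  have hη0 : 0 < η := by positivity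
  have hη1 : η ≤ 1 := (div_le_one (by linarith)).2 hM
  have hηM : η * (m : ℝ) ^ 11 = 1 := by
    rw [hη]
    field_simp
  have hexp : Real.exp η ≤ 1 + 2 * η := by
    have a1 := Real.abs_exp_sub_one_le (x := η) (by rw [abs_of_pos hη0]; exact hη1)
    rw [abs_of_pos hη0] at a1
    have := (abs_le.1 a1).2
    linarith
  have hsub : s ⊆ Icc p0 (p0 + ⌊2 * η * p0⌋₊) := by
    intro p hp
    have hle : p0 ≤ p := hmin p hp
    refine mem_Icc.2 ⟨hle, ?_⟩
    have hppos : (0 : ℝ) < p := lt_of_lt_of_le hp0pos (Nat.cast_le.2 hle)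
    have b1 : Real.log p * (m : ℝ) ^ 11 < k + 1 := by
      have := Nat.lt_floor_add_one (Real.log p * (m : ℝ) ^ 11)
      have e : ⌊Real.log p * (m : ℝ) ^ 11⌋₊ = k := (h p hp).2
      rwa [e] at this
    have b2 : (k : ℝ) ≤ Real.log p0 * (m : ℝ) ^ 11 := by
      have := Nat.floor_le (a := Real.log p0 * (m : ℝ) ^ 11)
        (mul_nonneg (Real.log_natCast_nonneg p0) (by linarith))
      have e : ⌊Real.log p0 * (m : ℝ) ^ 11⌋₊ = k := (h p0 hp0).2
      rwa [e] at this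
    have b3 : Real.log p ≤ Real.log p0 + η := by
      refine le_of_mul_le_mul_right ?_ (show (0 : ℝ) < (m : ℝ) ^ 11 by linarith)
      rw [add_mul, hηM]
      linarith
    have b4 : (p : ℝ) ≤ p0 * Real.exp η := by
      have := Real.exp_le_exp.2 b3
      rwa [Real.exp_add, Real.exp_log hppos, Real.exp_log hp0pos] at this
    have b5 : (p : ℝ) ≤ p0 + 2 * η * p0 := by
      have := mul_le_mul_of_nonneg_left hexp hp0pos.le
      linarith
    have b6 : p - p0 ≤ ⌊2 * η * p0⌋₊ := by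
      refine Nat.le_floor ?_
      rw [Nat.cast_sub hle]
      linarith
    omega
  have hcard : (s.card : ℝ) ≤ 2 * η * p0 + 1 := by
    have a1 := card_le_card hsub
    rw [Nat.card_Icc] at a1
    have a2 : s.card ≤ ⌊2 * η * p0⌋₊ + 1 := by omega
    have a3 : (⌊2 * η * p0⌋₊ : ℝ) ≤ 2 * η * p0 := Nat.floor_le (by positivity)
    have a4 : (s.card : ℝ) ≤ ⌊2 * η * p0⌋₊ + 1 := by exact_mod_cast a2
    linarith
  have hsum : ∑ p ∈ s, (1 / p : ℝ) ≤ s.card * (1 / p0) := by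
    rw [← nsmul_eq_mul, ← sum_const]
    exact sum_le_sum fun p hp => one_div_le_one_div_of_le hp0pos (Nat.cast_le.2 (hmin p hp))
  have hinv : (1 / p0 : ℝ) ≤ η := one_div_le_one_div_of_le (by linarith) hY
  have e3 : 3 / (m : ℝ) ^ 11 = 3 * η := by
    rw [hη]
    ring
  have e4 : (2 * η * p0 + 1) * (1 / p0 : ℝ) = 2 * η + 1 / p0 := by field_simp
  have h5 : (s.card : ℝ) * (1 / p0) ≤ (2 * η * p0 + 1) * (1 / p0) :=
    mul_le_mul_of_nonneg_right hcard (by positivity)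
  rw [e3]
  linarith

theorem anA_card_dvd (X d : ℕ) :
    (((Icc 1 X).filter fun n => d ∣ n).card : ℝ) ≤ X / d := by
  have e : Icc 1 X = Ioc 0 X := by
    ext n
    simp only [mem_Icc, mem_Ioc]
    omega
  rw [e, Nat.Ioc_filter_dvd_card_eq_div]
  exact Nat.cast_div_le

theorem rare3 : Rare fun m _ n => ¬ G3 m n := by
  refine anA_rare 174 fun m hm X hX S hS => ?_
  have hm1 : (1 : ℝ) ≤ m := by exact_mod_cast hm
  have hsub : S ⊆
      ((Icc 1 X).filter Nat.Prime).biUnion fun p =>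
        ((Icc 1 X).filter fun q => YY m < q ∧ kap m q = kap m p).biUnion fun q =>
          (Icc 1 X).filter fun n => p * q ∣ n := by
    intro n hn
    obtain ⟨hn1, hn2⟩ := hS n hn
    simp only [G3, not_forall] at hn2
    obtain ⟨p, hp, q, hq, hk, hne⟩ := hn2
    obtain ⟨hp1, _⟩ := mem_filter.1 hp
    obtain ⟨hq1, hq2⟩ := mem_filter.1 hq
    have pp := Nat.prime_of_mem_primeFactors hp1
    have pq := Nat.prime_of_mem_primeFactors hq1
    have hnX := (mem_Icc.1 hn1).2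
    refine mem_biUnion.2 ⟨p, mem_filter.2 ⟨mem_Icc.2 ⟨pp.one_le,
      (Nat.le_of_mem_primeFactors hp1).trans hnX⟩, pp⟩, mem_biUnion.2 ⟨q, mem_filter.2
      ⟨mem_Icc.2 ⟨pq.one_le, (Nat.le_of_mem_primeFactors hq1).trans hnX⟩, hq2, hk.symm⟩,
      mem_filter.2 ⟨hn1, ?_⟩⟩⟩
    exact Nat.Coprime.mul_dvd_of_dvd_of_dvd ((Nat.coprime_primes pp pq).2 hne)
      (Nat.dvd_of_mem_primeFactors hp1) (Nat.dvd_of_mem_primeFactors hq1)
  have h1 : (S.card : ℝ) ≤
      ∑ p ∈ (Icc 1 X).filter Nat.Prime,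
        ∑ q ∈ (Icc 1 X).filter fun q => YY m < q ∧ kap m q = kap m p,
          (((Icc 1 X).filter fun n => p * q ∣ n).card : ℝ) := by
    have a1 := (card_le_card hsub).trans
      (card_biUnion_le.trans (sum_le_sum fun p _ => card_biUnion_le))
    exact_mod_cast a1
  have hM : (0 : ℝ) < (m : ℝ) ^ 11 := by positivity
  have h2 : ∀ p ∈ (Icc 1 X).filter Nat.Prime,
      ∑ q ∈ (Icc 1 X).filter fun q => YY m < q ∧ kap m q = kap m p,
          (((Icc 1 X).filter fun n => p * q ∣ n).card : ℝ) ≤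
        X * (3 / (m : ℝ) ^ 11) * (1 / p) := by
    intro p _
    have a1 := sum_kap_le hm (kap m p) ((Icc 1 X).filter fun q => YY m < q ∧ kap m q = kap m p)
      fun q hq => (mem_filter.1 hq).2
    calc _ ≤ ∑ q ∈ (Icc 1 X).filter fun q => YY m < q ∧ kap m q = kap m p,
          X * (1 / p : ℝ) * (1 / q) := by
          refine sum_le_sum fun q _ => (anA_card_dvd X (p * q)).trans (le_of_eq ?_)
          push_cast
          rw [mul_assoc, one_div_mul_one_div, mul_one_div]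
      _ = X * (1 / p : ℝ) * ∑ q ∈ (Icc 1 X).filter fun q => YY m < q ∧ kap m q = kap m p,
          (1 / q : ℝ) := by rw [mul_sum]
      _ ≤ X * (1 / p : ℝ) * (3 / (m : ℝ) ^ 11) := mul_le_mul_of_nonneg_left a1 (by positivity)
      _ = _ := by ring
  have h3 := h1.trans (sum_le_sum h2)
  rw [← mul_sum] at h3
  have h4 := h3.trans (mul_le_mul_of_nonneg_left
    ((sum_inv_prime_le X).trans (anA_loglog hm hX)) (by positivity))
  refine h4.trans ?_
  have hs := anA_one_le_sqrt hm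
  have hs' := anA_sqrt_le hm
  have h5 : Real.sqrt m * (m : ℝ) ^ 4 ≤ (m : ℝ) ^ 11 := by
    calc Real.sqrt m * (m : ℝ) ^ 4 ≤ m * (m : ℝ) ^ 4 :=
          mul_le_mul_of_nonneg_right hs' (by positivity)
      _ = (m : ℝ) ^ 5 := by ring
      _ ≤ (m : ℝ) ^ 11 := pow_le_pow_right₀ hm1 (by norm_num)
  have h6 : (m : ℝ) ^ 4 / (m : ℝ) ^ 11 ≤ 1 / Real.sqrt m := by
    rw [div_le_div_iff₀ hM (by linarith)]
    linarith
  calc (X : ℝ) * (3 / (m : ℝ) ^ 11) * (58 * (m : ℝ) ^ 4)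
      = 174 * X * ((m : ℝ) ^ 4 / (m : ℝ) ^ 11) := by ring
    _ ≤ 174 * X * (1 / Real.sqrt m) := mul_le_mul_of_nonneg_left h6 (by positivity)
    _ = _ := by ring

end Pool.Agent.Lib.MP_696deb_nt.Sa
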