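import Pool.Agent.Lib.MP_696deb_nt.MomComb
import Pool.Agent.Lib.MP_696deb_nt.Redei

/-! Good integers: definitions and elementary sums over primes. -/

set_option autoImplicit false

open Finset
open scoped Classical

namespace Pool.Agent.Lib.MP_696deb_nt.Sa

/-- The size of `X` is described by `m`. -/
def Sz (m X : ℕ) : Prop := 2 ^ 2 ^ m ^ 4 ≤ X ∧ X < 2 ^ 2 ^ (m + 1) ^ 4

def YY (m : ℕ) : ℕ := 2 ^ m ^ 24

/-- The short interval that contains `p`. -/
noncomputable def kap (m p : ℕ) : ℕ := ⌊Real.log p * (m : ℝ) ^ 11⌋₊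

/-- The small prime factors. -/
def sP (m n : ℕ) : Finset ℕ := n.primeFactors.filter fun p => p ≤ YY m

/-- The large prime factors. -/
def lP (m n : ℕ) : Finset ℕ := n.primeFactors.filter fun p => YY m < p

def d0 (m n : ℕ) : ℕ := ∏ p ∈ sP m n, p

/-- The class of a large prime. -/
noncomputable def Cl (m X d p : ℕ) : Finset ℕ := (Ioc (YY m) X).filter fun p' =>
  p'.Prime ∧ kap m p' = kap m p ∧ p' % 8 = p % 8 ∧
    ∀ q ∈ (30 * d).primeFactors, q ≠ 2 → aleg q p' = aleg q p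

def aa (m k : ℕ) : ℕ := m ^ (24 + k) * 2 ^ (k * m ^ 3)

/-- The windows. -/
def Win (m k : ℕ) : Finset ℕ := Ioc (2 ^ aa m k) (2 ^ (aa m k * 2 ^ m ^ 3))

def G1 (m n : ℕ) : Prop := n.primeFactors.card ≤ m ^ 10

def G2 (m n : ℕ) : Prop := (sP m n).card ≤ m

def G3 (m n : ℕ) : Prop := ∀ p ∈ lP m n, ∀ p' ∈ lP m n, kap m p = kap m p' → p = p'

def G4 (m X n : ℕ) : Prop :=
  ∀ p ∈ lP m n, (1 / 2 : ℝ) ^ m ^ 5 * p ≤ (Cl m X (d0 m n) p).card

def G5 (m n : ℕ) : Prop := ∀ e : ℤ, Squarefree e → e ≠ 1 → e ∣ 30 * d0 m n →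
  m ^ 2 ≤ ((lP m n).filter fun p => aleg p e = 1).card

def G6 (m n : ℕ) : Prop := ∀ k < 3, m ^ 2 ≤ (n.primeFactors ∩ Win m k).card

/-- A property that fails for few integers. -/
def Rare (P : ℕ → ℕ → ℕ → Prop) : Prop := ∀ ε : ℝ, 0 < ε → ∃ m0 : ℕ, ∀ m ≥ m0, ∀ X, Sz m X →
  (((Icc 1 X).filter fun n => P m X n).card : ℝ) ≤ ε * X

theorem exists_sz (m0 : ℕ) : ∃ X0 : ℕ, ∀ X ≥ X0, ∃ m ≥ m0, Sz m X := by
  refine ⟨2 ^ 2 ^ m0 ^ 4, fun X hX => ?_⟩
  have hex : ∃ k, X < 2 ^ 2 ^ (m0 + k + 1) ^ 4 := by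
    refine ⟨X, ?_⟩
    have h1 : m0 + X + 1 ≤ (m0 + X + 1) ^ 4 := Nat.le_self_pow (by norm_num) _
    have h2 : (m0 + X + 1) ^ 4 < 2 ^ (m0 + X + 1) ^ 4 := Nat.lt_two_pow_self
    have h3 : 2 ^ (m0 + X + 1) ^ 4 < 2 ^ 2 ^ (m0 + X + 1) ^ 4 := Nat.lt_two_pow_self
    omega
  refine ⟨m0 + Nat.find hex, Nat.le_add_right _ _, ?_, Nat.find_spec hex⟩
  rcases hk : Nat.find hex with _ | j
  · exact hX
  · exact not_lt.1 (Nat.find_min hex (m := j) (by omega))

theorem Rare.or {P Q : ℕ → ℕ → ℕ → Prop} (h : Rare P) (k : Rare Q) :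
    Rare fun m X n => P m X n ∨ Q m X n := by
  intro ε hε
  obtain ⟨m1, h1⟩ := h (ε / 2) (half_pos hε)
  obtain ⟨m2, h2⟩ := k (ε / 2) (half_pos hε)
  refine ⟨max m1 m2, fun m hm X hX => ?_⟩
  have a1 := h1 m (le_trans (le_max_left _ _) hm) X hX
  have a2 := h2 m (le_trans (le_max_right _ _) hm) X hX
  have hsub : ((Icc 1 X).filter fun n => P m X n ∨ Q m X n) ⊆
      ((Icc 1 X).filter fun n => P m X n) ∪ ((Icc 1 X).filter fun n => Q m X n) := by
    intro n hn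
    simp only [mem_filter, mem_union] at hn ⊢
    rcases hn.2 with c | c
    · exact Or.inl ⟨hn.1, c⟩
    · exact Or.inr ⟨hn.1, c⟩
  have a3 := (card_le_card hsub).trans (card_union_le _ _)
  have a4 : ((((Icc 1 X).filter fun n => P m X n ∨ Q m X n).card : ℕ) : ℝ) ≤
      (((Icc 1 X).filter fun n => P m X n).card : ℝ) +
        (((Icc 1 X).filter fun n => Q m X n).card : ℝ) := by exact_mod_cast a3
  refine le_trans (Nat.cast_le.2 (card_le_card fun n hn => ?_)) (a4.trans (by linarith))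
  simp only [mem_filter] at hn ⊢
  exact hn

theorem Rare.mono {P Q : ℕ → ℕ → ℕ → Prop} (h : Rare P) (k : ∀ m X n, Q m X n → P m X n) :
    Rare Q := by
  intro ε hε
  obtain ⟨m1, h1⟩ := h ε hε
  refine ⟨m1, fun m hm X hX => le_trans (Nat.cast_le.2 (card_le_card fun n hn => ?_))
    (h1 m hm X hX)⟩
  simp only [mem_filter] at hn ⊢
  exact ⟨hn.1, k _ _ _ hn.2⟩

theorem Sz.log_le {m X : ℕ} (h : Sz m X) (hm : 1 ≤ m) : Real.log X ≤ 2 ^ (16 * m ^ 4) := by
  have hX0 : 0 < X := lt_of_lt_of_le (by positivity) h.1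
  have h1 : (m + 1) ^ 4 ≤ 16 * m ^ 4 := by
    calc (m + 1) ^ 4 ≤ (2 * m) ^ 4 := Nat.pow_le_pow_left (by omega) 4
      _ = 16 * m ^ 4 := by ring
  have h2 : X ≤ 2 ^ 2 ^ (16 * m ^ 4) :=
    h.2.le.trans (Nat.pow_le_pow_right (by norm_num) (Nat.pow_le_pow_right (by norm_num) h1))
  have h3 : (X : ℝ) ≤ 2 ^ 2 ^ (16 * m ^ 4) := by exact_mod_cast h2
  refine (Real.log_le_log (by exact_mod_cast hX0) h3).trans ?_
  rw [Real.log_pow]
  push_cast
  exact mul_le_of_le_one_right (by positivity) (by linarith [Real.log_two_lt_d9])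

theorem Sz.le_log {m X : ℕ} (h : Sz m X) : (2 : ℝ) ^ m ^ 4 / 2 ≤ Real.log X := by
  have h3 : (2 : ℝ) ^ 2 ^ m ^ 4 ≤ X := by exact_mod_cast h.1
  refine le_trans ?_ (Real.log_le_log (by positivity) h3)
  rw [Real.log_pow, div_eq_mul_one_div]
  push_cast
  exact mul_le_mul_of_nonneg_left (by linarith [Real.log_two_gt_d9]) (by positivity)

theorem sum_inv_prime_le (Z : ℕ) :
    ∑ p ∈ (Icc 1 Z).filter Nat.Prime, (1 / p : ℝ) ≤ 3 * Real.log (1 + Real.log Z) + 7 := by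
  rcases Nat.lt_or_ge Z 2 with hZ | hZ
  · have he : (Icc 1 Z).filter Nat.Prime = ∅ := by
      refine filter_eq_empty_iff.2 fun p hp hq => ?_
      have := hq.two_le
      have := (mem_Icc.1 hp).2
      omega
    have h0 : 0 ≤ Real.log (1 + Real.log Z) :=
      Real.log_nonneg (by linarith [Real.log_natCast_nonneg Z])
    rw [he, sum_empty]
    linarith
  have hL : 0 < Real.log Z := Real.log_pos (by exact_mod_cast hZ)
  have c0 := Mom.HT.sum_le_log hL Z (a := fun _ => 1) (fun _ => ⟨zero_le_one, le_rfl⟩)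
  simp only [one_mul] at c0
  have c1 : Real.log (∏ p ∈ (Den.PP Z).primeFactors, (1 + Den.xs (Real.log Z) p)) ≤
      Real.log (1 + Real.log Z) :=
    Real.log_le_log (prod_pos fun p _ => by linarith [Den.xs_nonneg (Real.log Z) p])
      (Den.prod_xs_le hL (Den.PP_sq Z))
  have c2 : ∑ p ∈ (Den.PP Z).primeFactors, (1 / p : ℝ) ≤
      ∑ p ∈ (Den.PP Z).primeFactors, 3 * Den.xs (Real.log Z) p := by
    refine sum_le_sum fun p hp => Den.inv_le_xs hL ?_
    rw [Den.PP_pf, mem_filter, mem_Icc] at hp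
    exact Mom.HT.mem_SO.2 ⟨hp.1, hp.2.1.squarefree, hp.2.2⟩
  rw [← mul_sum] at c2
  have c3 : (Icc 1 Z).filter Nat.Prime ⊆ insert 2 (Den.PP Z).primeFactors := by
    intro p hp
    rw [mem_filter] at hp
    rw [mem_insert, Den.PP_pf, mem_filter]
    rcases hp.2.eq_two_or_odd' with h | h
    · exact Or.inl h
    · exact Or.inr ⟨hp.1, hp.2, h⟩
  have c4 : 2 ∉ (Den.PP Z).primeFactors := fun h => by
    have := Den.PP_pf_odd h
    exact absurd this (by decide)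
  refine (sum_le_sum_of_subset_of_nonneg c3 fun _ _ _ => by positivity).trans ?_
  rw [sum_insert c4]
  push_cast
  linarith

/-- The first moment of the number of prime factors in a set. -/
theorem sum_inter_le (X : ℕ) (P : Finset ℕ) :
    ∑ n ∈ Icc 1 X, ((n.primeFactors ∩ P).card : ℝ) ≤ X * ∑ p ∈ P.filter Nat.Prime, (1 / p : ℝ) := by
  have h1 : ∀ n ∈ Icc 1 X, ((n.primeFactors ∩ P).card : ℝ) =
      ∑ p ∈ P.filter Nat.Prime, if p ∣ n then (1 : ℝ) else 0 := by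
    intro n hn
    have hn0 : n ≠ 0 := by have := (mem_Icc.1 hn).1; omega
    rw [sum_boole]
    congr 2
    ext p
    simp only [mem_inter, mem_filter, Nat.mem_primeFactors]
    tauto
  rw [sum_congr rfl h1, sum_comm, mul_sum]
  refine sum_le_sum fun p _ => ?_
  rw [sum_boole]
  have h2 : ((Icc 1 X).filter fun n => p ∣ n).card = X / p := by
    rw [← Nat.Ioc_filter_dvd_card_eq_div]
    rfl
  rw [h2, mul_one_div]
  exact Nat.cast_div_le

theorem d0_mul {m n : ℕ} (h : Squarefree n) : d0 m n * ∏ p ∈ lP m n, p = n := by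
  have h1 := prod_filter_mul_prod_filter_not n.primeFactors (fun p => p ≤ YY m) fun p => p
  rw [Nat.prod_primeFactors_of_squarefree h] at h1
  have h2 : lP m n = n.primeFactors.filter fun p => ¬p ≤ YY m :=
    filter_congr fun p _ => not_le.symm
  rw [h2]
  exact h1

theorem d0_le {m n : ℕ} (h : G2 m n) : d0 m n ≤ YY m ^ m := by
  have h1 : d0 m n ≤ YY m ^ (sP m n).card :=
    prod_le_pow_card _ _ _ fun p hp => (mem_filter.1 hp).2
  exact h1.trans (Nat.pow_le_pow_right (Nat.two_pow_pos _) h)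

theorem d0_sq (m n : ℕ) : Squarefree (d0 m n) :=
  Finset.squarefree_prod_of_pairwise_isCoprime (fun p hp q hq h => by
    simp only [Function.onFun, ← Nat.coprime_iff_isRelPrime]
    exact (Nat.coprime_primes (Nat.prime_of_mem_primeFactors (mem_filter.1 hp).1)
      (Nat.prime_of_mem_primeFactors (mem_filter.1 hq).1)).2 h)
    fun p hp => (Nat.prime_of_mem_primeFactors (mem_filter.1 hp).1).squarefree

theorem d0_pf (m n : ℕ) : (d0 m n).primeFactors = sP m n :=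
  Nat.primeFactors_prod fun _ hp => Nat.prime_of_mem_primeFactors (mem_filter.1 hp).1

theorem sum_inv_d0 (m : ℕ) : ∑ d ∈ Icc 1 (YY m ^ m), (1 / d : ℝ) ≤ 1 + (m : ℝ) ^ 25 := by
  refine (sum_inv_le _).trans ?_
  have h1 : ((YY m ^ m : ℕ) : ℝ) = 2 ^ m ^ 25 := by
    rw [YY, ← pow_mul, ← pow_succ]
    push_cast
    rfl
  rw [h1, Real.log_pow]
  push_cast
  have : (m : ℝ) ^ 25 * Real.log 2 ≤ (m : ℝ) ^ 25 :=
    mul_le_of_le_one_right (by positivity) (by linarith [Real.log_two_lt_d9])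
  linarith

end Pool.Agent.Lib.MP_696deb_nt.Sa
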