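import Pool.Agent.Lib.MP_696deb_nt.Sa.AnD
import Pool.Agent.Lib.MP_696deb_nt.Sm.Box

/-! The box of a good integer. -/

set_option autoImplicit false

open Finset
open scoped Classical

namespace Pool.Agent.Lib.MP_696deb_nt.Sa
open Sm

structure Gd (m X n : ℕ) : Prop where
  pos : 1 ≤ n
  le : n ≤ X
  sq : Squarefree n
  g1 : G1 m n
  g2 : G2 m n
  g3 : G3 m n
  g4 : G4 m X n
  g5 : G5 m n
  g6 : G6 m n

/-- The large primes in increasing order. -/
noncomputable def xs (m n : ℕ) (j : Fin (lP m n).card) : ℕ := (lP m n).orderEmbOfFin rfl j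

noncomputable def box (m X : ℕ) (s : ℤ) (n : ℕ) : Box where
  r := (lP m n).card
  D0 := s * d0 m n
  X j := Cl m X (d0 m n) (xs m n j)
  t j := sInf (Cl m X (d0 m n) (xs m n j) : Set ℕ) - 1
  I k := univ.filter fun j => xs m n j ∈ Win m k
  H := m ^ 2
  Y := YY m
  θ := (1 / 2) ^ m ^ 5

variable {m X n : ℕ} {s : ℤ}

theorem anf_mem_Cl {d p p' : ℕ} : p' ∈ Cl m X d p ↔ (YY m < p' ∧ p' ≤ X) ∧ p'.Prime ∧
    kap m p' = kap m p ∧ p' % 8 = p % 8 ∧
      ∀ q ∈ (30 * d).primeFactors, q ≠ 2 → aleg q p' = aleg q p := by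
  simp only [Cl, mem_filter, mem_Ioc]

theorem mem_Cl_self {d p : ℕ} (hp : p.Prime) (h1 : YY m < p) (h2 : p ≤ X) : p ∈ Cl m X d p :=
  anf_mem_Cl.2 ⟨⟨h1, h2⟩, hp, rfl, rfl, fun _ _ _ => rfl⟩

theorem Cl_eq {d p p' : ℕ} (h : p' ∈ Cl m X d p) : Cl m X d p' = Cl m X d p := by
  obtain ⟨-, -, h1, h2, h3⟩ := anf_mem_Cl.1 h
  ext x
  rw [anf_mem_Cl, anf_mem_Cl, h1, h2]
  refine and_congr_right fun _ => and_congr_right fun _ => and_congr_right fun _ =>
    and_congr_right fun _ => ?_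
  exact ⟨fun k q hq h4 => (k q hq h4).trans (h3 q hq h4),
    fun k q hq h4 => (k q hq h4).trans (h3 q hq h4).symm⟩

theorem kap_ratio (hm : 1 ≤ m) {p p' : ℕ} (hp : 0 < p) (hp' : 0 < p') (h : kap m p = kap m p') :
    (p' : ℝ) ≤ Real.exp (1 / (m : ℝ) ^ 11) * p := by
  have hM : (0 : ℝ) < (m : ℝ) ^ 11 := by positivity
  have h0 : (0 : ℝ) < p := by exact_mod_cast hp
  have h0' : (0 : ℝ) < p' := by exact_mod_cast hp'
  have h1 : (kap m p : ℝ) ≤ Real.log p * (m : ℝ) ^ 11 :=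
    Nat.floor_le (mul_nonneg (Real.log_natCast_nonneg p) hM.le)
  have h2 : Real.log p' * (m : ℝ) ^ 11 < (kap m p' : ℝ) + 1 := Nat.lt_floor_add_one _
  rw [← h] at h2
  have h3 : Real.log p' ≤ 1 / (m : ℝ) ^ 11 + Real.log p := by
    rw [← sub_le_iff_le_add, le_div_iff₀ hM]; linarith
  calc (p' : ℝ) = Real.exp (Real.log p') := (Real.exp_log h0').symm
    _ ≤ Real.exp (1 / (m : ℝ) ^ 11 + Real.log p) := Real.exp_le_exp.2 h3
    _ = _ := by rw [Real.exp_add, Real.exp_log h0]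

theorem anf_xs_lP (j : Fin (lP m n).card) : xs m n j ∈ lP m n := orderEmbOfFin_mem _ _ _

theorem anf_xs_surj {p : ℕ} (hp : p ∈ lP m n) : ∃ j, xs m n j = p := by
  have : p ∈ Set.range ((lP m n).orderEmbOfFin rfl) := by
    rw [range_orderEmbOfFin]; exact hp
  exact this

theorem anf_xs_mono : StrictMono (xs m n) := ((lP m n).orderEmbOfFin rfl).strictMono

theorem xs_mem (h : Gd m X n) (j : Fin (lP m n).card) : xs m n j ∈ (box m X s n).X j := by
  obtain ⟨h1, h2⟩ := mem_filter.1 (anf_xs_lP j)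
  exact mem_Cl_self (Nat.prime_of_mem_primeFactors h1) h2
    ((Nat.le_of_mem_primeFactors h1).trans h.le)

theorem anf_rep_mem {B : Box} {j : Fin B.r} (h : (B.X j).Nonempty) : B.rep j ∈ B.X j :=
  Nat.sInf_mem (s := (B.X j : Set ℕ)) h

theorem anf_YY (hm : 2 ≤ m) : 32 ≤ YY m := by
  have h1 : 2 ^ 24 ≤ m ^ 24 := Nat.pow_le_pow_left hm 24
  have h2 : 2 ^ 5 ≤ 2 ^ m ^ 24 := Nat.pow_le_pow_right (by norm_num) (by omega)
  exact h2

theorem anf_natAbs (hs : s = 1 ∨ s = -1) : (box m X s n).D0.natAbs = d0 m n := by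
  rcases hs with rfl | rfl <;> simp [box]

theorem anf_Q0 (hs : s = 1 ∨ s = -1) : (box m X s n).Q0 = (30 * d0 m n).primeFactors := by
  rw [Box.Q0, anf_natAbs hs]

theorem box_wf (hm : 2 ≤ m) (hs : s = 1 ∨ s = -1) (h : Gd m X n) : (box m X s n).Wf := by
  have hrep : ∀ j, (box m X s n).rep j ∈ Cl m X (d0 m n) (xs m n j) := fun j =>
    anf_rep_mem (B := box m X s n) ⟨_, xs_mem h j⟩
  refine ⟨?_, fun j p hp => (anf_mem_Cl.1 hp).2.1, fun j p hp => ?_, fun i j p hi hj => ?_,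
    fun j => ⟨_, xs_mem h j⟩, fun j p hp => ?_, fun j p hp q hq h2 => ?_⟩
  · rw [← Int.squarefree_natAbs, anf_natAbs hs]; exact d0_sq m n
  · obtain ⟨⟨h1, -⟩, h2, -⟩ := anf_mem_Cl.1 hp
    rw [Int.natCast_dvd, Int.natAbs_mul, anf_natAbs hs]
    intro hd
    rcases (Nat.Prime.dvd_mul h2).1 hd with h3 | h3
    · have h4 : p ≤ 30 := Nat.le_of_dvd (by norm_num) h3
      have := anf_YY hm
      omega
    · have h4 : p ∈ sP m n := by
        rw [← d0_pf]; exact Nat.mem_primeFactors.2 ⟨h2, h3, (d0_sq m n).ne_zero⟩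
      have := (mem_filter.1 h4).2
      omega
  · exact anf_xs_mono.injective (h.g3 _ (anf_xs_lP i) _ (anf_xs_lP j)
      ((anf_mem_Cl.1 hi).2.2.1.symm.trans (anf_mem_Cl.1 hj).2.2.1))
  · exact (anf_mem_Cl.1 hp).2.2.2.1.trans (anf_mem_Cl.1 (hrep j)).2.2.2.1.symm
  · rw [anf_Q0 hs] at hq
    exact ((anf_mem_Cl.1 hp).2.2.2.2 q hq h2).trans ((anf_mem_Cl.1 (hrep j)).2.2.2.2 q hq h2).symm

theorem anf_aleg_congr {p p' : ℕ} {a : ℤ} (h : IsSquare (a : ZMod p) ↔ IsSquare (a : ZMod p')) :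
    aleg p a = aleg p' a := by
  unfold aleg
  by_cases h1 : IsSquare (a : ZMod p)
  · rw [if_pos h1, if_pos (h.1 h1)]
  · rw [if_neg h1, if_neg (fun h2 => h1 (h.2 h2))]

theorem anf_neg_one {p p' : ℕ} (hp : p.Prime) (hp' : p'.Prime) (h : p % 8 = p' % 8) :
    aleg p (-1) = aleg p' (-1) := by
  have := Fact.mk hp
  have := Fact.mk hp'
  apply anf_aleg_congr
  rw [Int.cast_neg, Int.cast_one, Int.cast_neg, Int.cast_one, ZMod.exists_sq_eq_neg_one_iff,
    ZMod.exists_sq_eq_neg_one_iff]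
  omega

theorem anf_two {p p' : ℕ} (hp : p.Prime) (hp' : p'.Prime) (h2 : p ≠ 2) (h2' : p' ≠ 2)
    (h : p % 8 = p' % 8) : aleg p ((2 : ℕ) : ℤ) = aleg p' ((2 : ℕ) : ℤ) := by
  have := Fact.mk hp
  have := Fact.mk hp'
  apply anf_aleg_congr
  rw [Int.cast_natCast, Int.cast_natCast, Nat.cast_ofNat, Nat.cast_ofNat,
    ZMod.exists_sq_eq_two_iff h2, ZMod.exists_sq_eq_two_iff h2', h]

theorem anf_odd {p q : ℕ} (hp : p.Prime) (hq : q.Prime) (hp2 : p ≠ 2) (hq2 : q ≠ 2)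
    (hpq : p ≠ q) : aleg p q = aleg q p + if q % 4 = 1 then 0 else aleg p (-1) := by
  rw [← aleg_pstar hp hq hp2 hq2 hpq, pstar]
  split_ifs
  · rw [add_zero]
  · rw [← neg_one_mul, aleg_mul hp (not_dvd_of_natAbs_eq' hp)
      (not_dvd_of_natAbs_eq hp hq hpq (Int.natAbs_natCast q)), add_comm (aleg p (-1)), add_assoc,
      CharTwo.add_self_eq_zero, add_zero]

theorem anf_dvd {B : Box} {q : ℕ} (hq : q ∈ B.Q0) : (q : ℤ) ∣ 30 * B.D0 := by
  rw [Int.natCast_dvd, Int.natAbs_mul]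
  exact Nat.dvd_of_mem_primeFactors hq

theorem anf_sgen_dvd {B : Box} (g : B.Sg) : B.sgen g ∣ 30 * B.D0 := by
  cases g with
  | none => exact neg_dvd.2 (one_dvd _)
  | some q => exact anf_dvd q.2

theorem anf_gen {B : Box} (h : B.Wf) (j : Fin B.r) {p : ℕ} (hp : p ∈ B.X j) (g : B.Sg) :
    aleg p (B.sgen g) = aleg (B.rep j) (B.sgen g) := by
  have hr := anf_rep_mem (h.ne j)
  have n2 : ∀ x ∈ B.X j, x ≠ 2 := fun x hx e => h.cop j x hx (by
    rw [e]; exact Dvd.dvd.mul_right (by norm_num) _)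
  have a1 := anf_neg_one (h.prime j p hp) (h.prime j _ hr) (h.mod8 j p hp)
  cases g with
  | none => exact a1
  | some q =>
    obtain ⟨q, hq⟩ := q
    change aleg p (q : ℤ) = aleg (B.rep j) (q : ℤ)
    by_cases h2 : q = 2
    · rw [h2]
      exact anf_two (h.prime j p hp) (h.prime j _ hr) (n2 p hp) (n2 _ hr) (h.mod8 j p hp)
    · have hq' := Nat.prime_of_mem_primeFactors hq
      have nq : ∀ x ∈ B.X j, x ≠ q := fun x hx e => h.cop j x hx (by rw [e]; exact anf_dvd hq)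
      rw [anf_odd (h.prime j p hp) hq' (n2 p hp) h2 (nq p hp),
        anf_odd (h.prime j _ hr) hq' (n2 _ hr) h2 (nq _ hr), h.leg j p hp q hq h2, a1]

/-- The Legendre bit of a divisor of `30 D0` is constant on each set of a box. -/
theorem aleg_const {B : Box} (h : B.Wf) (u : B.Sg → F2) (j : Fin B.r) {p : ℕ} (hp : p ∈ B.X j) :
    aleg p (∏ g, B.sgen g ^ (u g).val) = B.nu u j := by
  have hpp := h.prime j p hp
  have hn : ∀ g, ¬ (p : ℤ) ∣ B.sgen g := fun g hd => h.cop j p hp (hd.trans (anf_sgen_dvd g))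
  rw [aleg_prod hpp _ _ fun g _ hd =>
    hn g ((Nat.prime_iff_prime_int.1 hpp).dvd_of_dvd_pow hd), Box.nu]
  refine sum_congr rfl fun g _ => ?_
  rw [← anf_gen h j hp g]
  rcases F2_cases (u g) with e | e
  · rw [e, ZMod.val_zero, pow_zero, aleg_one, zero_mul]
  · rw [e, ZMod.val_one, pow_one, one_mul]

theorem sgen_prod {B : Box} (h : B.Wf) {u : B.Sg → F2} (hu : u ≠ 0) :
    Squarefree (∏ g, B.sgen g ^ (u g).val) ∧ ∏ g, B.sgen g ^ (u g).val ≠ 1 ∧
      ∏ g, B.sgen g ^ (u g).val ∣ 30 * B.D0 := by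
  obtain ⟨N, hN⟩ : ∃ N : ℕ, N = ∏ q : B.Q0, (q : ℕ) ^ (u (some q)).val := ⟨_, rfl⟩
  have e : ∏ g, B.sgen g ^ (u g).val = (-1) ^ (u none).val * (N : ℤ) := by
    rw [Fintype.prod_option, hN]; push_cast; rfl
  have ea : (∏ g, B.sgen g ^ (u g).val).natAbs = N := by
    rw [e, Int.natAbs_mul, Int.natAbs_pow]; simp
  have hd : N ∣ ∏ q ∈ B.Q0, q := by
    rw [hN, ← prod_coe_sort B.Q0 fun q => q]
    refine prod_dvd_prod_of_dvd _ _ fun q _ => ?_
    rcases F2_cases (u (some q)) with e | e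
    · rw [e, ZMod.val_zero, pow_zero]; exact one_dvd _
    · rw [e, ZMod.val_one, pow_one]
  refine ⟨?_, fun h1 => hu ?_, ?_⟩
  · rw [← Int.squarefree_natAbs, ea]
    refine Squarefree.squarefree_of_dvd hd ?_
    rw [Box.Q0, ← Nat.radical_eq_prod_primeFactors]
    exact UniqueFactorizationMonoid.squarefree_radical
  · have hN1 : N = 1 := by rw [← ea, h1]; rfl
    funext g
    cases g with
    | none =>
      rcases F2_cases (u none) with e' | e'
      · exact e'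
      · rw [e, e', ZMod.val_one, hN1] at h1; norm_num at h1
    | some q =>
      rcases F2_cases (u (some q)) with e' | e'
      · exact e'
      · have h2 : (q : ℕ) ^ (u (some q)).val ∣ N := by
          rw [hN]; exact dvd_prod_of_mem (fun q : B.Q0 => (q : ℕ) ^ (u (some q)).val) (mem_univ q)
        rw [e', ZMod.val_one, pow_one, hN1] at h2
        exact absurd (Nat.dvd_one.1 h2) (Nat.prime_of_mem_primeFactors q.2).one_lt.ne'
  · rw [← Int.natAbs_dvd_natAbs, ea, Int.natAbs_mul]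
    exact hd.trans (Nat.prod_primeFactors_dvd _)

theorem anf_aa_succ (k : ℕ) : aa m (k + 1) = m * (aa m k * 2 ^ m ^ 3) := by
  unfold aa; ring

theorem anf_aa_mono (hm : 1 ≤ m) : Monotone (aa m) := by
  refine monotone_nat_of_le_succ fun k => ?_
  rw [anf_aa_succ]
  calc aa m k = 1 * (aa m k * 1) := by ring
    _ ≤ _ := Nat.mul_le_mul hm (Nat.mul_le_mul_left _ Nat.one_le_two_pow)

theorem anf_mem_filter {α : Type} {i : Fintype α} {P : α → Prop} (d : DecidablePred P) (a : α) :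
    a ∈ @filter α P d (@univ α i) ↔ P a := by
  simp only [mem_filter, mem_univ, true_and]

theorem anf_mem_I {k : Fin 3} {j : Fin (lP m n).card} :
    j ∈ (box m X s n).I k ↔ xs m n j ∈ Win m k :=
  anf_mem_filter (P := fun j => xs m n j ∈ Win m k) _ j

theorem anf_card_le {S : Finset ℕ} {T : Finset (Fin (lP m n).card)} (h1 : S ⊆ lP m n)
    (h2 : ∀ j, xs m n j ∈ S → j ∈ T) : S.card ≤ T.card := by
  refine le_trans (card_le_card fun p hp => ?_) (card_image_le (f := xs m n))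
  obtain ⟨j, rfl⟩ := anf_xs_surj (h1 hp)
  exact mem_image_of_mem _ (h2 j hp)

theorem anf_rng (hm : 2 ≤ m) (h : Gd m X n) (j : Fin (lP m n).card) {p : ℕ}
    (hp : p ∈ (box m X s n).X j) : (box m X s n).t j < p ∧ p ≤ 2 * (box m X s n).t j := by
  have hr : (box m X s n).rep j ∈ Cl m X (d0 m n) (xs m n j) :=
    anf_rep_mem (B := box m X s n) ⟨_, xs_mem h j⟩
  have h1 : (box m X s n).rep j ≤ p := Nat.sInf_le (s := ((box m X s n).X j : Set ℕ)) hp
  have ht : (box m X s n).t j = (box m X s n).rep j - 1 := rfl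
  have h2 := (anf_mem_Cl.1 hr).1.1
  have h3 := anf_YY hm
  rw [ht]
  generalize (box m X s n).rep j = R at hr h1 h2
  refine ⟨by omega, ?_⟩
  have h4 := kap_ratio (m := m) (p := R) (p' := p) (by omega) (by omega) (by omega)
    ((anf_mem_Cl.1 hr).2.2.1.trans (anf_mem_Cl.1 hp).2.2.1.symm)
  have h5 : (4 : ℝ) ≤ (m : ℝ) ^ 11 := by
    have : 2 ^ 11 ≤ m ^ 11 := Nat.pow_le_pow_left hm 11
    have : 4 ≤ m ^ 11 := by omega
    exact_mod_cast this
  have h6 : Real.exp (1 / (m : ℝ) ^ 11) ≤ 4 / 3 := by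
    have a1 : 1 / (m : ℝ) ^ 11 ≤ 1 / 4 := one_div_le_one_div_of_le (by norm_num) h5
    have a2 := Real.exp_bound_div_one_sub_of_interval (x := 1 / 4) (by norm_num) (by norm_num)
    calc _ ≤ Real.exp (1 / 4) := Real.exp_le_exp.2 a1
      _ ≤ _ := a2
      _ = 4 / 3 := by norm_num
  have h7 : (p : ℝ) ≤ 4 / 3 * R := h4.trans (mul_le_mul_of_nonneg_right h6 (Nat.cast_nonneg R))
  have h8 : 3 * p ≤ 4 * R := by
    have : (3 * p : ℝ) ≤ 4 * R := by linarith
    exact_mod_cast this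
  omega

theorem anf_k0 (hs : s = 1 ∨ s = -1) (h : Gd m X n) : (box m X s n).k0 ≤ m + 4 := by
  rw [Box.k0, anf_Q0 hs, Nat.primeFactors_mul (by norm_num) (d0_sq m n).ne_zero, d0_pf]
  have h1 := card_union_le (Nat.primeFactors 30) (sP m n)
  have h2 : (Nat.primeFactors 30).card ≤ 3 := by
    have : Nat.primeFactors 30 ⊆ {2, 3, 5} := fun q hq => by
      have a1 := Nat.prime_of_mem_primeFactors hq
      have a2 : q ∣ 2 * (3 * 5) := Nat.dvd_of_mem_primeFactors hq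
      rcases (Nat.Prime.dvd_mul a1).1 a2 with a3 | a3
      · simp [(Nat.prime_dvd_prime_iff_eq a1 Nat.prime_two).1 a3]
      · rcases (Nat.Prime.dvd_mul a1).1 a3 with a4 | a4
        · simp [(Nat.prime_dvd_prime_iff_eq a1 Nat.prime_three).1 a4]
        · simp [(Nat.prime_dvd_prime_iff_eq a1 Nat.prime_five).1 a4]
    exact (card_le_card this).trans card_le_three
  have h3 : (sP m n).card ≤ m := h.g2
  omega

theorem anf_exp {c r k : ℕ} (hm : 2 ≤ m) (hc : 5 * c ≤ m) (hr : r ≤ m ^ 10) (hk : k ≤ m + 4) :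
    ((r + k + 1) ^ 2 + m ^ 5) * c ≤ m ^ 24 := by
  have h1 : m + 5 ≤ m ^ 10 := by
    have a1 : 2 ^ 9 ≤ m ^ 9 := Nat.pow_le_pow_left hm 9
    calc m + 5 ≤ 2 ^ 9 * m := by omega
      _ ≤ m ^ 9 * m := Nat.mul_le_mul_right _ a1
      _ = m ^ 10 := by ring
  have h2 : (r + k + 1) ^ 2 ≤ (2 * m ^ 10) ^ 2 := Nat.pow_le_pow_left (by omega) 2
  have h3 : m ^ 5 ≤ m ^ 20 := Nat.pow_le_pow_right (by omega) (by norm_num)
  have h4 : m ^ 21 ≤ m ^ 24 := Nat.pow_le_pow_right (by omega) (by norm_num)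
  have h5 : (2 * m ^ 10) ^ 2 = 4 * m ^ 20 := by ring
  calc ((r + k + 1) ^ 2 + m ^ 5) * c ≤ (5 * m ^ 20) * c := Nat.mul_le_mul_right _ (by omega)
    _ = m ^ 20 * (5 * c) := by ring
    _ ≤ m ^ 20 * m := Nat.mul_le_mul_left _ hc
    _ = m ^ 21 := by ring
    _ ≤ _ := h4

theorem box_hyp (c : ℕ) : ∃ m0 : ℕ, ∀ m ≥ m0, ∀ (X n : ℕ) (s : ℤ), s = 1 ∨ s = -1 → Gd m X n →
    (box m X s n).Hyp c := by
  refine ⟨5 * c + 2, fun m hm X n s hs h => ?_⟩
  have hm2 : 2 ≤ m := by omega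
  have wf := box_wf hm2 hs h
  have hk := anf_k0 hs h
  have hx := fun j => anf_rng (s := s) hm2 h j (xs_mem h j)
  refine ⟨wf, fun j p hp => anf_rng hm2 h j hp, ?_, ?_, fun j => ?_, fun j => ?_, ?_, ?_,
    fun u hu => ?_, fun k => ?_, fun k k' hkk j hj j' hj' => ?_⟩
  · change (0 : ℝ) < (1 / 2) ^ m ^ 5
    positivity
  · exact pow_le_one₀ (by norm_num) (by norm_num)
  · refine le_trans ?_ (h.g4 _ (anf_xs_lP j))
    exact mul_le_mul_of_nonneg_left (Nat.cast_le.2 (hx j).1.le)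
      (by change (0 : ℝ) ≤ (1 / 2) ^ m ^ 5; positivity)
  · have hr : (box m X s n).rep j ∈ Cl m X (d0 m n) (xs m n j) := anf_rep_mem (wf.ne j)
    have h2 := (anf_mem_Cl.1 hr).1.1
    change YY m ≤ (box m X s n).rep j - 1
    omega
  · have hr : (box m X s n).r ≤ m ^ 10 := (card_filter_le _ _).trans h.g1
    have h1 := anf_exp (c := c) hm2 (by omega) hr hk
    change ((2 : ℝ) ^ (((box m X s n).r + (box m X s n).k0 + 1) ^ 2) / (1 / 2) ^ m ^ 5) ^ c ≤
      ((2 ^ m ^ 24 : ℕ) : ℝ)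
    rw [one_div, inv_pow, div_inv_eq_mul, ← pow_add, ← pow_mul, Nat.cast_pow, Nat.cast_ofNat]
    exact pow_le_pow_right₀ (by norm_num) h1
  · change c * (box m X s n).k0 ≤ m ^ 2
    calc c * (box m X s n).k0 ≤ c * (5 * m) := Nat.mul_le_mul_left _ (by omega)
      _ = 5 * c * m := by ring
      _ ≤ m * m := Nat.mul_le_mul_right _ (by omega)
      _ = m ^ 2 := by ring
  · obtain ⟨a1, a2, a3⟩ := sgen_prod wf hu
    have a4 : ∏ g, (box m X s n).sgen g ^ (u g).val ∣ 30 * (d0 m n : ℤ) := by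
      rw [← Int.natAbs_dvd_natAbs, Int.natAbs_mul] at a3 ⊢
      rwa [anf_natAbs hs] at a3
    refine (h.g5 _ a1 a2 a4).trans (anf_card_le (filter_subset _ _) fun j hj => ?_)
    have a5 : (box m X s n).nu u j = 1 :=
      (aleg_const wf u j (xs_mem h j)).symm.trans (mem_filter.1 hj).2
    exact (anf_mem_filter _ _).2 a5
  · refine (h.g6 k k.2).trans (anf_card_le (fun p hp => ?_) fun j hj => ?_)
    · obtain ⟨a1, a2⟩ := mem_inter.1 hp
      refine mem_filter.2 ⟨a1, lt_of_le_of_lt ?_ (mem_Ioc.1 a2).1⟩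
      refine Nat.pow_le_pow_right (by norm_num) (le_trans ?_ (anf_aa_mono (by omega) (Nat.zero_le _)))
      simp [aa]
    · exact anf_mem_I.2 (mem_inter.1 hj).2
  · have a1 := (mem_Ioc.1 (anf_mem_I.1 hj)).2
    have a2 := (mem_Ioc.1 (anf_mem_I.1 hj')).1
    have a3 : aa m (k + 1) ≤ aa m k' := anf_aa_mono (by omega) hkk
    rw [anf_aa_succ] at a3
    have a4 : 0 < aa m k * 2 ^ m ^ 3 := by unfold aa; positivity
    generalize aa m k * 2 ^ m ^ 3 = E at a1 a3 a4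
    have a5 : c * E + E ≤ m * E := by
      rw [← Nat.succ_mul]; exact Nat.mul_le_mul_right _ (by omega)
    have a6 : 2 ^ E ≤ 2 ^ aa m k' := Nat.pow_le_pow_right (by norm_num) (by omega)
    refine ⟨anf_xs_mono.lt_iff_lt.1 (lt_of_le_of_lt (a1.trans a6) a2), ?_⟩
    have a7 : (box m X s n).t j ^ c ≤ 2 ^ (c * E) := by
      rw [mul_comm, pow_mul]; exact Nat.pow_le_pow_left ((hx j).1.le.trans a1) c
    have a8 : 2 ^ (c * E + 1) ≤ 2 ^ aa m k' := Nat.pow_le_pow_right (by norm_num) (by omega)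
    have a9 := (hx j').2
    rw [pow_succ] at a8
    omega

end Pool.Agent.Lib.MP_696deb_nt.Sa
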