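import Pool.Agent.Lib.MP_696deb_nt.Sm.Cnt

set_option autoImplicit false

namespace Pool.Agent.Lib.MP_696deb_nt.Sa

export Pool.Agent.Lib.MP_696deb_nt.Sm (sg sg_zero sg_one sg_add abs_sg sg_sum ind_eq sum_fiber
  sum_indep card_diag sum_bil count)

end Pool.Agent.Lib.MP_696deb_nt.Sa
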