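import Pool.Agent.Lib.MP_696deb_nt.Sm.SampB
import Pool.Agent.Lib.MP_696deb_nt.Sm.Box
import Pool.Agent.Lib.MP_696deb_nt.DenT0

/-! The Legendre edges of a box. -/

set_option autoImplicit false

open Finset
open scoped Classical NumberTheorySymbols

namespace Pool.Agent.Lib.MP_696deb_nt.Sa
open Sm

/-- The defect of a pair of primes against the matrix `a`. -/
noncomputable def EE (B : Box) (a : B.Mat) (i j : Fin B.r) (p q : ℕ) : F2 :=
  if h : i < j then aleg p q + a ⟨(i, j), h⟩ else if h : j < i then aleg q p + a ⟨(j, i), h⟩ else 0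

/-- The basic large parameter of a box. -/
noncomputable def Lm (B : Box) : ℝ := 2 ^ ((B.r + B.k0 + 1) ^ 2) / B.θ

variable {B : Box} {a : B.Mat} {c : ℕ}

theorem EE_sym (i j : Fin B.r) (p q : ℕ) : EE B a i j p q = EE B a j i q p := by
  unfold EE
  rcases lt_trichotomy i j with h | h | h
  · rw [dif_pos h, dif_neg h.not_gt, dif_pos h]
  · subst h
    simp only [lt_irrefl, dite_false]
  · rw [dif_neg h.not_gt, dif_pos h, dif_pos h]

theorem XA_eq : XA B.X (EE B a) = B.fib a := by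
  have two : ∀ u v : F2, u + v = 0 ↔ u = v := by decide
  ext x
  simp only [XA, Box.fib, Box.pts, mem_filter, sampB_mem]
  refine and_congr_right fun _ => ⟨fun h => funext fun ij => ?_, fun h i j hij => ?_⟩
  · have := h ij.1.1 ij.1.2 ij.2.ne
    rw [EE, dif_pos ij.2] at this
    exact (two _ _).1 this
  · subst h
    unfold EE
    split_ifs with h1 h2
    · exact (two _ _).2 rfl
    · exact (two _ _).2 rfl
    · rfl

theorem sg_aleg {p : ℕ} (hp : p.Prime) {x : ℤ} (h : ¬ (p : ℤ) ∣ x) :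
    sg (aleg p x) = (J(x | p) : ℝ) := by
  have := Fact.mk hp
  have ha : (x : ZMod p) ≠ 0 := by rwa [Ne, ZMod.intCast_zmod_eq_zero_iff_dvd]
  rw [aleg_eq_legendre h, ← jacobiSym.legendreSym.to_jacobiSym]
  rcases legendreSym.eq_one_or_neg_one p ha with h1 | h1
  · rw [h1, if_pos rfl, sg_zero, Int.cast_one]
  · rw [h1, if_neg (by norm_num), sg_one]
    norm_num

theorem edge_ne_two (h : B.Wf) {i : Fin B.r} {p : ℕ} (hp : p ∈ B.X i) : p ≠ 2 := by
  rintro rfl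
  exact h.cop i 2 hp (Dvd.dvd.mul_right (by norm_num) _)

theorem edge_ne (h : B.Wf) {i j : Fin B.r} (hij : i ≠ j) {p q : ℕ} (hp : p ∈ B.X i)
    (hq : q ∈ B.X j) : p ≠ q := by
  rintro rfl
  exact hij (h.disj i j p hp hq)

theorem edge_nd (h : B.Wf) {i j : Fin B.r} (hij : i ≠ j) {p q : ℕ} (hp : p ∈ B.X i)
    (hq : q ∈ B.X j) : ¬ (p : ℤ) ∣ (q : ℤ) :=
  not_dvd_of_natAbs_eq (h.prime i p hp) (h.prime j q hq) (edge_ne h hij hp hq) rfl

theorem edge_neg {p : ℕ} (hp : p.Prime) : aleg p (-1) = if p % 4 = 3 then 1 else 0 := by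
  have := Fact.mk hp
  have e : aleg p (-1) = 0 ↔ p % 4 ≠ 3 := by
    rw [aleg_eq_zero_iff, Int.cast_neg, Int.cast_one, ZMod.exists_sq_eq_neg_one_iff]
  split_ifs with h
  · exact (cnt_two _).resolve_left fun k => e.1 k h
  · exact e.2 h

theorem EE_eq (h : B.Wf) {i j : Fin B.r} (hij : i ≠ j) :
    ∃ t : F2, ∀ p ∈ B.X i, ∀ q ∈ B.X j, EE B a i j p q = aleg q p + t := by
  rcases lt_or_gt_of_ne hij with k | k
  swap
  · exact ⟨a ⟨(j, i), k⟩, fun p _ q _ => by rw [EE, dif_neg k.not_gt, dif_pos k]⟩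
  refine ⟨(if B.rep j % 4 = 1 then 0 else if B.rep i % 4 = 3 then 1 else 0) + a ⟨(i, j), k⟩,
    fun p hp q hq => ?_⟩
  rw [EE, dif_pos k, ← add_assoc]
  congr 1
  have pp := h.prime i p hp
  have qp := h.prime j q hq
  have ne := edge_ne h hij hp hq
  have e1 : p % 4 = B.rep i % 4 := by have := h.mod8 i p hp; omega
  have e2 : q % 4 = B.rep j % 4 := by have := h.mod8 j q hq; omega
  have r := aleg_pstar pp qp (edge_ne_two h hp) (edge_ne_two h hq) ne
  rw [← e1, ← e2, ← r, pstar]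
  split_ifs with h1 h2
  · rw [add_zero]
  · rw [← neg_one_mul, aleg_mul pp (not_dvd_of_natAbs_eq' pp) (edge_nd h hij hp hq),
      edge_neg pp, if_pos h2]
    generalize aleg p q = u
    revert u
    decide
  · rw [← neg_one_mul, aleg_mul pp (not_dvd_of_natAbs_eq' pp) (edge_nd h hij hp hq),
      edge_neg pp, if_neg h2, zero_add, add_zero]

theorem aleg_pair (h : B.Wf) {i j : Fin B.r} (hij : i ≠ j) {p q q' : ℕ} (hp : p ∈ B.X i)
    (hq : q ∈ B.X j) (hq' : q' ∈ B.X j) (h1 : EE B a i j p q = 0) (h2 : EE B a i j p q' = 0) :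
    J(((q * q' : ℕ) : ℤ) | p) = 1 := by
  obtain ⟨t, ht⟩ := EE_eq (a := a) h hij.symm
  rw [EE_sym, ht q hq p hp] at h1
  rw [EE_sym, ht q' hq' p hp] at h2
  have pp := h.prime i p hp
  have n1 := edge_nd h hij hp hq
  have n2 := edge_nd h hij hp hq'
  have two : ∀ u v w : F2, u + w = 0 → v + w = 0 → u + v = 0 := by decide
  have e : aleg p ((q : ℤ) * q') = 0 := by rw [aleg_mul pp n1 n2]; exact two _ _ _ h1 h2
  have s := sg_aleg pp (x := (q : ℤ) * q') fun k =>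
    ((Nat.prime_iff_prime_int.mp pp).dvd_or_dvd k).elim n1 n2
  rw [e, sg_zero] at s
  rw [Nat.cast_mul]
  exact_mod_cast s.symm

theorem pow_le_Lm (h : B.Hyp c) : (2 : ℝ) ^ ((B.r + B.k0 + 1) ^ 2) ≤ Lm B :=
  (le_div_iff₀ h.pos).2 (mul_le_of_le_one_right (by positivity) h.le1)

theorem two_le_Lm (h : B.Hyp c) : 2 ≤ Lm B :=
  le_trans (le_self_pow₀ (by norm_num) (by positivity)) (pow_le_Lm h)

theorem Lm_pow_le (h : B.Hyp c) (j : Fin B.r) : Lm B ^ c ≤ B.t j :=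
  h.hc.trans (Nat.cast_le.2 (h.hY j))

theorem t_le_card (h : B.Hyp c) (j : Fin B.r) : (B.t j : ℝ) ≤ Lm B * (B.X j).card := by
  rw [Lm, div_mul_eq_mul_div, le_div_iff₀ h.pos, mul_comm]
  exact (h.big j).trans (le_mul_of_one_le_left (Nat.cast_nonneg _) (one_le_pow₀ (by norm_num)))

theorem bil_box : ∃ m : ℕ, ∀ (B : Box) (a : B.Mat) (c : ℕ), B.Hyp c → ∀ i j, i ≠ j → ∀ L : ℝ,
    0 < L → L ^ 36 ≤ B.t i → L ^ 36 ≤ B.t j → ∀ α β : ℕ → ℝ, (∀ p, |α p| ≤ 1) → (∀ q, |β q| ≤ 1) →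
    |∑ p ∈ B.X i, ∑ q ∈ B.X j, α p * β q * sg (EE B a i j p q)| ≤
      Lm B ^ m / L ^ 3 * (B.X i).card * (B.X j).card := by
  obtain ⟨C, hC, hb⟩ := bilinear_sym
  obtain ⟨m, hm⟩ := pow_unbounded_of_one_lt (4 * C) (one_lt_two : (1 : ℝ) < 2)
  refine ⟨m + 2, fun B a c h i j hij L hL h1 h2 α β hα hβ => ?_⟩
  obtain ⟨t, ht⟩ := EE_eq (a := a) h.wf hij
  have hD : ∀ k, ∀ n ∈ B.X k, Squarefree n ∧ Odd n ∧ n ≤ 2 * B.t k := fun k n hn =>
    ⟨(h.wf.prime k n hn).squarefree, (h.wf.prime k n hn).odd_of_ne_two (edge_ne_two h.wf hn),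
      (h.rng k n hn).2⟩
  have hN : ∀ k, (B.t k : ℝ) ≤ ((2 * B.t k : ℕ) : ℝ) := fun k => Nat.cast_le.2 (by omega)
  have k := hb L (2 * B.t i) (2 * B.t j) hL (h1.trans (hN i)) (h2.trans (hN j)) (B.X i) (B.X j)
    (fun p => α p * sg t) β (fun p => by rw [abs_mul, abs_sg, mul_one]; exact hα p) hβ (hD i) (hD j)
  have e : ∑ p ∈ B.X i, ∑ q ∈ B.X j, α p * β q * sg (EE B a i j p q) =
      ∑ p ∈ B.X i, ∑ q ∈ B.X j, α p * sg t * β q * (J(p | q) : ℝ) :=
    sum_congr rfl fun p hp => sum_congr rfl fun q hq => by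
      rw [ht p hp q hq, sg_add, sg_aleg (h.wf.prime j q hq) (edge_nd h.wf hij.symm hq hp)]
      ring
  rw [e]
  refine k.trans ?_
  have l2 := two_le_Lm h
  have l3 : 4 * C ≤ Lm B ^ m := hm.le.trans (pow_le_pow_left₀ (by norm_num) l2 m)
  have l4 : 4 * C * ((B.t i : ℝ) * B.t j) ≤
      Lm B ^ m * (Lm B * (B.X i).card * (Lm B * (B.X j).card)) :=
    mul_le_mul l3 (mul_le_mul (t_le_card h i) (t_le_card h j) (Nat.cast_nonneg _)
      (by positivity)) (by positivity) (by positivity)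
  rw [div_mul_eq_mul_div, div_mul_eq_mul_div]
  refine div_le_div_of_nonneg_right ?_ (by positivity)
  push_cast
  calc _ = 4 * C * ((B.t i : ℝ) * B.t j) := by ring
    _ ≤ _ := l4
    _ = _ := by ring

theorem bil_Lm (e : ℕ) : ∃ c : ℕ, ∀ (B : Box) (a : B.Mat), B.Hyp c → ∀ i j, i ≠ j →
    ∀ α β : ℕ → ℝ, (∀ p, |α p| ≤ 1) → (∀ q, |β q| ≤ 1) →
    |∑ p ∈ B.X i, ∑ q ∈ B.X j, α p * β q * sg (EE B a i j p q)| ≤
      (1 / Lm B) ^ e * (B.X i).card * (B.X j).card := by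
  obtain ⟨m, hm⟩ := bil_box
  refine ⟨(e + m) * 36, fun B a h i j hij α β hα hβ => ?_⟩
  have l2 := two_le_Lm h
  have l0 : 0 < Lm B := by linarith
  have k := hm B a _ h i j hij (Lm B ^ (e + m)) (by positivity)
    (by rw [← pow_mul]; exact Lm_pow_le h i) (by rw [← pow_mul]; exact Lm_pow_le h j) α β hα hβ
  refine k.trans (mul_le_mul_of_nonneg_right (mul_le_mul_of_nonneg_right ?_ (Nat.cast_nonneg _))
    (Nat.cast_nonneg _))
  rw [one_div_pow, div_le_div_iff₀ (by positivity) (by positivity), one_mul, ← pow_add, ← pow_mul]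
  exact pow_le_pow_right₀ (by linarith) (by omega)

end Pool.Agent.Lib.MP_696deb_nt.Sa

namespace Pool.Agent.Lib.MP_696deb_nt.Sm
open Sa

theorem equi_main' {ε : ℝ} (hε : 0 < ε) : ∃ c : ℕ, ∀ B : Box, B.Hyp c → ∀ a : B.Mat,
    |((B.fib a).card : ℝ) - B.pts.card / Fintype.card B.Mat| ≤
      ε * (B.pts.card / Fintype.card B.Mat) := by
  obtain ⟨e, he⟩ := exists_pow_lt_of_lt_one hε (by norm_num : (1 / 2 : ℝ) < 1)
  obtain ⟨c, hc⟩ := bil_Lm (e + 1)
  refine ⟨c, fun B h a => ?_⟩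
  have l2 := two_le_Lm h
  have l0 : 0 < Lm B := by linarith
  have k := unif B.X (EE B a) (δ := (1 / Lm B) ^ (e + 1)) (by positivity) EE_sym (hc B a h)
  rw [XA_eq] at k
  generalize hN : (univ.filter fun e : Fin B.r × Fin B.r => e.1 < e.2).card = N at k
  have hP : ∀ i : DecidableEq (Fin B.r), (@Fintype.piFinset _ i _ _ B.X) = B.pts := fun i =>
    Finset.ext fun x => sampB_mem.trans sampB_mem.symm
  rw [hP] at k
  have hM : Fintype.card B.Mat = 2 ^ N := by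
    rw [Fintype.card_fun, ZMod.card, Fintype.card_subtype, ← hN]
  have hN' : N ≤ (B.r + B.k0 + 1) ^ 2 := by
    rw [← hN]
    refine (card_le_univ _).trans ?_
    rw [Fintype.card_prod, Fintype.card_fin, ← sq]
    exact Nat.pow_le_pow_left (by omega) 2
  have h1 : (2 : ℝ) ^ N ≤ Lm B := (pow_le_pow_right₀ (by norm_num) hN').trans (pow_le_Lm h)
  have h2 : (1 / Lm B) ^ (e + 1) * 2 ^ N ≤ ε := by
    calc (1 / Lm B) ^ (e + 1) * 2 ^ N ≤ (1 / Lm B) ^ (e + 1) * Lm B :=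
          mul_le_mul_of_nonneg_left h1 (by positivity)
      _ = (1 / Lm B) ^ e := by rw [pow_succ, mul_assoc, one_div_mul_cancel l0.ne', mul_one]
      _ ≤ (1 / 2) ^ e := pow_le_pow_left₀ (by positivity)
          (one_div_le_one_div_of_le (by norm_num) l2) e
      _ ≤ ε := he.le
  rw [hM]
  push_cast
  rw [one_div_pow, one_div_mul_eq_div] at k
  refine k.trans ?_
  rw [← mul_div_assoc, le_div_iff₀ (by positivity), mul_right_comm]
  exact mul_le_mul_of_nonneg_right h2 (Nat.cast_nonneg _)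

end Pool.Agent.Lib.MP_696deb_nt.Sm
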