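import Pool.Agent.Lib.MP_696deb_nt.Sa.GenB

/-! Random symmetric matrices: the solutions of the two systems are generic. -/

set_option autoImplicit false

open Finset
open scoped Classical

namespace Pool.Agent.Lib.MP_696deb_nt.Sa

theorem genc_union {α β : Type} {T : Finset α} (s : Finset β) {F : β → Finset α} {B : ℝ}
    (hB : ∀ b ∈ s, ((F b).card : ℝ) ≤ B) (h : ∀ a ∈ T, ∃ b ∈ s, a ∈ F b) :
    (T.card : ℝ) ≤ s.card * B := by
  have h1 : T.card ≤ ∑ b ∈ s, (F b).card :=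
    (card_le_card fun a ha => mem_biUnion.2 (h a ha)).trans card_biUnion_le
  refine (Nat.cast_le.2 h1).trans ?_
  rw [Nat.cast_sum, ← nsmul_eq_mul]
  exact sum_le_card_nsmul _ _ _ hB

theorem genc_prod {α β : Type} [Fintype α] {T : Finset (α × β)} {F : α → Finset β} {B : ℝ}
    (hB : ∀ a, ((F a).card : ℝ) ≤ B) (h : ∀ x ∈ T, x.2 ∈ F x.1) :
    (T.card : ℝ) ≤ Fintype.card α * B :=
  genc_union univ (F := fun a => (F a).image (Prod.mk a))
    (fun a _ => (Nat.cast_le.2 card_image_le).trans (hB a))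
    fun x hx => ⟨x.1, mem_univ _, mem_image_of_mem _ (h x hx)⟩

theorem genc_or {α : Type} {T S S' : Finset α} (h : ∀ a ∈ T, a ∈ S ∨ a ∈ S') :
    (T.card : ℝ) ≤ S.card + S'.card := by
  exact_mod_cast (card_le_card fun a ha => mem_union.2 (h a ha)).trans (card_union_le S S')

theorem genc_swap {α β : Type} [Fintype α] [Fintype β] (r : α → β → Prop) :
    ∑ a, ((univ.filter fun b => r a b).card : ℝ) =
      ∑ b, ((univ.filter fun a => r a b).card : ℝ) := by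
  simp only [card_filter, Nat.cast_sum]
  exact sum_comm

theorem genc_card (G : Type) [Fintype G] {_ : Fintype (G → ZMod 2)} :
    (Fintype.card (G → ZMod 2) : ℝ) = 2 ^ Fintype.card G := by
  rw [← Nat.card_eq_fintype_card, Nat.card_fun, Nat.card_zmod, Nat.card_eq_fintype_card]
  push_cast
  rfl

theorem genc_two {α : Type} (x : α → ZMod 2) : x + x = 0 :=
  funext fun _ => CharTwo.add_self_eq_zero _

theorem genc_cst {ι : Type} {w : ι → ZMod 2} (h : Cst w) : w = 0 ∨ w = 1 := by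
  by_contra h0
  obtain ⟨h1, h2⟩ := not_or.1 h0
  obtain ⟨i, hi⟩ := Function.ne_iff.1 h1
  obtain ⟨j, hj⟩ := Function.ne_iff.1 h2
  rw [h j i] at hj
  exact (by decide : ∀ t : ZMod 2, t ≠ 0 → t ≠ 1 → False) _ hi hj

theorem genc_cst_add {ι : Type} {v w : ι → ZMod 2} (h : Cst v) (h' : Cst (v + w)) : Cst w :=
  fun i j => add_left_cancel ((h' i j).trans (congrArg (· + w j) (h j i)))

theorem genc_lim {ρ η : ℝ} (h0 : 0 ≤ ρ) (h1 : ρ < 1) (hη : 0 < η) : ∀ᶠ C : ℕ in Filter.atTop,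
    ∀ g H : ℕ, 0 < g → C * g ≤ H → 32 ^ g * ρ ^ H ≤ η := by
  have h2 := (tendsto_pow_atTop_nhds_zero_of_lt_one h0 h1).const_mul 32
  rw [mul_zero] at h2
  filter_upwards [h2.eventually_le_const hη, h2.eventually_le_const one_pos] with C h3 h4 g H hg hH
  refine le_trans ?_ ((pow_le_of_le_one (by positivity) h4 hg.ne').trans h3)
  rw [mul_pow, ← pow_mul]
  exact mul_le_mul_of_nonneg_left (pow_le_pow_of_le_one h0 h1.le hH) (by positivity)

/-- Data of the two linear systems. -/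
structure GD (ι Gn Q : Type) where
  lam : (Gn → ZMod 2) →+ (ι → ZMod 2)
  cor : (ι → ZMod 2) →+ (ι → ZMod 2)
  l : Q → ι → ZMod 2
  h1 : (Gn → ZMod 2) → Q → ZMod 2
  h2 : (Gn → ZMod 2) →+ (Q → ZMod 2)
  h3 : (Gn → ZMod 2) → Q → ZMod 2
  u1 : Gn → ZMod 2
  u2 : Gn → ZMod 2
  u3 : Gn → ZMod 2
  I : Fin 3 → Finset ι

namespace GD

variable {ι Gn Q : Type} [Fintype ι] [LinearOrder ι] [Fintype Gn] [Fintype Q] (D : GD ι Gn Q)

/-- One system. -/
def Sys (a : Up ι → ZMod 2) (u : Gn → ZMod 2) (h : Q → ZMod 2) (y : ι → ZMod 2)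
    (x : (Gn → ZMod 2) × (ι → ZMod 2)) : Prop :=
  (∀ j, LL a x.2 j + D.cor x.2 j + D.lam x.1 j + x.2 j * D.lam u j + y j = 0) ∧
    ∀ q, ∑ j, x.2 j * D.l q j = h q

/-- Both systems. -/
def Rel (a : Up ι → ZMod 2)
    (x : ((Gn → ZMod 2) × (ι → ZMod 2)) × ((Gn → ZMod 2) × (ι → ZMod 2))) : Prop :=
  D.Sys a D.u1 (D.h1 x.1.1) 0 x.1 ∧
    D.Sys a D.u2 (D.h2 x.2.1 + D.h3 x.1.1) (fun j => x.1.2 j * D.lam D.u3 j) x.2

/-- Generic matrices. -/
def Gen (K : ℕ) (a : Up ι → ZMod 2) : Prop :=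
  (univ.filter (D.Rel a)).card ≤ K ∧
  (∀ x x', D.Rel a x → D.Rel a x' → ¬ (Cst x.1.2 ∧ Cst x'.2.2) → ∀ k,
    |∑ j ∈ D.I k, sg (x.1.2 j + x'.2.2 j)| ≤ (D.I k).card / (2 * (K : ℝ) ^ 2)) ∧
  (D.u3 ≠ 0 → ∀ x, D.Rel a x → Cst x.2.2 → Cst x.1.2)

structure OK (H : ℕ) : Prop where
  cor1 : D.cor 1 = 0
  ind : ∀ c : Q → ZMod 2, ∑ q, c q • D.l q = 0 → c = 0
  cardQ : Fintype.card Gn ≤ Fintype.card Q + 4
  ne12 : D.u1 + D.u2 ≠ 0
  ne3 : D.u1 + D.u2 + D.u3 ≠ 0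
  B1 : ∀ e, e ≠ 0 → H ≤ (univ.filter fun j => D.lam e j = 1).card
  B2 : ∀ k, H ≤ (D.I k).card
  H1 : 1 ≤ H

/-- The small set of vectors. -/
noncomputable def Wb (K : ℕ) : Finset (ι → ZMod 2) :=
  univ.filter fun w => ¬ Cst w ∧
    ((∃ k, 1 / (2 * (K : ℝ) ^ 2) * (D.I k).card < |∑ j ∈ D.I k, sg (w j)|) ∨
      ∃ e e', e' ≠ 0 ∧ ∀ j, w j * D.lam e' j = D.lam e j)

variable {D} {H : ℕ}

omit [Fintype Gn] [Fintype Q] in
theorem genc_sys {a : Up ι → ZMod 2} {u : Gn → ZMod 2} {f : Q → ZMod 2} {y : ι → ZMod 2}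
    {x : (Gn → ZMod 2) × (ι → ZMod 2)} (h : D.Sys a u f y x) :
    LL a x.2 = D.cor x.2 + D.lam x.1 + x.2 * D.lam u + y :=
  funext fun j => CharTwo.add_eq_zero.1
    (by simpa only [add_assoc, Pi.add_apply, Pi.mul_apply] using h.1 j)

omit [LinearOrder ι] in
theorem genc_lam (h : D.OK H) {e : Gn → ZMod 2} (he : D.lam e = 0) : e = 0 := by
  by_contra h0
  obtain ⟨j, hj⟩ := card_pos.1 (h.H1.trans (h.B1 e h0))
  rw [mem_filter, he] at hj
  exact zero_ne_one hj.2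

omit [LinearOrder ι] in
theorem genc_ne (h : D.OK H) : Nonempty ι := ⟨(card_pos.1 (h.H1.trans (h.B2 0))).choose⟩

omit [LinearOrder ι] in
theorem genc_cor (h : D.OK H) {w : ι → ZMod 2} (hw : Cst w) :
    D.cor w = 0 ∧ ∀ u, ∃ e, w * D.lam u = D.lam e := by
  rcases genc_cst hw with rfl | rfl
  · exact ⟨map_zero _, fun u => ⟨0, by rw [zero_mul, map_zero]⟩⟩
  · exact ⟨h.cor1, fun u => ⟨u, one_mul _⟩⟩

theorem card_Wb (h : D.OK H) (K : ℕ) : ((D.Wb K).card : ℝ) ≤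
    (6 * Real.exp (-(H / (8 * (K : ℝ) ^ 4))) + 4 ^ Fintype.card Gn * (1 / 2) ^ H) *
      2 ^ Fintype.card ι := by
  have h1 := genc_union (T := univ.filter fun w : ι → ZMod 2 =>
    ∃ k, 1 / (2 * (K : ℝ) ^ 2) * (D.I k).card < |∑ j ∈ D.I k, sg (w j)|) univ
    (B := 2 * Real.exp (-(H / (8 * (K : ℝ) ^ 4))) * 2 ^ Fintype.card ι)
    (fun k _ => (hoeff (D.I k) (t := 1 / (2 * (K : ℝ) ^ 2)) (by positivity)).trans (by
      have h2 : (H : ℝ) ≤ (D.I k).card := Nat.cast_le.2 (h.B2 k)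
      rw [show (1 / (2 * (K : ℝ) ^ 2)) ^ 2 * (D.I k).card / 2 = (D.I k).card / (8 * K ^ 4) by ring]
      gcongr))
    fun w hw => (mem_filter.1 hw).2.imp fun k hk => ⟨mem_univ _, mem_filter.2 ⟨mem_univ _, hk⟩⟩
  have h2 := genc_union (T := univ.filter fun w : ι → ZMod 2 =>
    ∃ e e', e' ≠ 0 ∧ ∀ j, w j * D.lam e' j = D.lam e j)
    (univ.filter fun e : (Gn → ZMod 2) × (Gn → ZMod 2) => e.2 ≠ 0)
    (fun e he => card_presc (D.lam e.2) (D.lam e.1) (h.B1 _ (mem_filter.1 he).2))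
    fun w hw => by
      obtain ⟨e, e', h3, h4⟩ := (mem_filter.1 hw).2
      exact ⟨(e, e'), mem_filter.2 ⟨mem_univ _, h3⟩, mem_filter.2 ⟨mem_univ _, h4⟩⟩
  have h3 := mul_le_mul_of_nonneg_right (Nat.cast_le (α := ℝ).2 (card_le_univ
    (univ.filter fun e : (Gn → ZMod 2) × (Gn → ZMod 2) => e.2 ≠ 0)))
    (show (0 : ℝ) ≤ (1 / 2) ^ H * 2 ^ Fintype.card ι by positivity)
  rw [Fintype.card_prod, Nat.cast_mul, genc_card, ← mul_pow] at h3
  rw [card_univ, Fintype.card_fin] at h1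
  refine (genc_or fun w hw => (mem_filter.1 hw).2.2.imp (fun k => mem_filter.2 ⟨mem_univ _, k⟩)
    fun k => mem_filter.2 ⟨mem_univ _, k⟩).trans ((add_le_add h1 (h2.trans h3)).trans_eq ?_)
  norm_num
  ring

theorem mean_sys (h : D.OK H) (u : Gn → ZMod 2) (f : (Gn → ZMod 2) → Q → ZMod 2) :
    ∑ a : Up ι → ZMod 2, ((univ.filter fun x => D.Sys a u (f x.1) 0 x).card : ℝ) ≤
      66 * Fintype.card (Up ι → ZMod 2) := by
  rw [genc_swap fun (a : Up ι → ZMod 2) (x : (Gn → ZMod 2) × (ι → ZMod 2)) =>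
    D.Sys a u (f x.1) 0 x]
  generalize hN : (Fintype.card (Up ι → ZMod 2) : ℝ) = N
  have hN0 : 0 ≤ N := hN ▸ Nat.cast_nonneg _
  let S : Finset ((Gn → ZMod 2) × (ι → ZMod 2)) := {(0, 0), (u, 1)}
  let S' : Finset ((Gn → ZMod 2) × (ι → ZMod 2)) :=
    univ.filter fun x => ∀ q, ∑ j, x.2 j * D.l q j = f x.1 q
  have h1 : (S.card : ℝ) ≤ 2 := by exact_mod_cast card_le_two
  have h2 : (S'.card : ℝ) ≤ _ := genc_prod (fun e => card_lin D.l h.ind (f e))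
    fun x hx => mem_filter.2 ⟨mem_univ _, (mem_filter.1 hx).2⟩
  have h3 : (2 : ℝ) ^ Fintype.card Gn * (1 / 2) ^ Fintype.card Q ≤ 16 := by
    rw [one_div_pow, mul_one_div, div_le_iff₀ (by positivity)]
    exact (pow_le_pow_right₀ one_le_two h.cardQ).trans_eq (by ring)
  rw [genc_card, ← mul_assoc] at h2
  have h4 := mul_le_mul_of_nonneg_right (h2.trans (mul_le_mul_of_nonneg_right h3 (by positivity)))
    (show 0 ≤ 4 * (1 / 2) ^ Fintype.card ι * N by positivity)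
  have h5 : (2 : ℝ) ^ Fintype.card ι * (1 / 2) ^ Fintype.card ι = 1 := by
    rw [← mul_pow]; norm_num
  refine (sum_le_sum (g := fun x => (if x ∈ S then N else 0) +
    if x ∈ S' then 4 * (1 / 2) ^ Fintype.card ι * N else 0) fun x _ => ?_).trans ?_
  · rcases (univ.filter fun a : Up ι → ZMod 2 => D.Sys a u (f x.1) 0 x).eq_empty_or_nonempty
      with h6 | ⟨a, ha⟩
    · rw [h6, card_empty, Nat.cast_zero]
      positivity
    have h6 := (mem_filter.1 ha).2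
    rw [if_pos (show x ∈ S' from mem_filter.2 ⟨mem_univ _, h6.2⟩)]
    by_cases hc : Cst x.2
    · have h7 := genc_sys h6
      rw [LL_cst a hc, (genc_cor h hc).1, zero_add, add_zero] at h7
      rw [if_pos]
      · exact le_add_of_le_of_nonneg ((Nat.cast_le.2 (card_le_univ _)).trans_eq hN) (by positivity)
      obtain ⟨e, w⟩ := x
      obtain rfl | rfl : w = 0 ∨ w = 1 := genc_cst hc
      · rw [zero_mul, add_zero] at h7
        obtain rfl : e = 0 := genc_lam h h7.symm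
        exact mem_insert_self _ _
      · rw [one_mul, ← map_add] at h7
        obtain rfl : e = u := add_right_cancel ((genc_lam h h7.symm).trans (genc_two u).symm)
        exact mem_insert_of_mem (mem_singleton_self _)
    · refine le_add_of_nonneg_of_le (by positivity) (le_trans (Nat.cast_le.2 (card_le_card ?_))
        ((rank_one hc (D.cor x.2 + D.lam x.1 + x.2 * D.lam u + 0)).trans_eq (by rw [hN])))
      exact fun b hb => mem_filter.2 ⟨mem_univ _, genc_sys (mem_filter.1 hb).2⟩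
  · rw [sum_add_distrib, sum_ite_mem, sum_ite_mem, univ_inter, univ_inter, sum_const, sum_const,
      nsmul_eq_mul, nsmul_eq_mul]
    refine (add_le_add (mul_le_mul_of_nonneg_right h1 hN0) h4).trans_eq ?_
    linear_combination 64 * N * h5

theorem card_rel (a : Up ι → ZMod 2) : (univ.filter (D.Rel a)).card ≤
    (univ.filter fun x => D.Sys a D.u1 (D.h1 x.1) 0 x).card *
      (univ.filter fun x => D.Sys a D.u2 (D.h2 x.1) 0 x).card := by
  rw [mul_comm]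
  refine card_le_mul_card_image_of_maps_to (f := Prod.fst)
    (fun x hx => mem_filter.2 ⟨mem_univ _, (mem_filter.1 hx).2.1⟩) _ fun b _ => ?_
  rcases ((univ.filter (D.Rel a)).filter fun x => x.1 = b).eq_empty_or_nonempty with h | ⟨y, hy⟩
  · rw [h]
    exact Nat.zero_le _
  refine card_le_card_of_injOn (fun x => x.2 + y.2) (fun x hx => ?_) fun x hx x' hx' h =>
    Prod.ext ((mem_filter.1 hx).2.trans (mem_filter.1 hx').2.symm) (add_right_cancel h)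
  obtain ⟨h1, h2⟩ := mem_filter.1 hx
  obtain ⟨h3, h4⟩ := mem_filter.1 hy
  have h5 := (mem_filter.1 h1).2.2
  have h6 := (mem_filter.1 h3).2.2
  rw [h2] at h5
  rw [h4] at h6
  have h7 : (2 : ZMod 2) = 0 := rfl
  refine mem_filter.2 ⟨mem_univ _, fun j => ?_, fun q => ?_⟩
  · simp only [Prod.fst_add, Prod.snd_add, LL_add, map_add, Pi.add_apply, Pi.zero_apply]
    linear_combination h5.1 j + h6.1 j - b.2 j * D.lam D.u3 j * h7
  · simp only [Prod.fst_add, Prod.snd_add, map_add, Pi.add_apply, add_mul, sum_add_distrib, h5.2 q,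
      h6.2 q]
    linear_combination D.h3 b.1 q * h7

theorem bad_one (h : D.OK H) {k : ℕ} (hk : 0 < k) :
    ((univ.filter fun a : Up ι → ZMod 2 => k ^ 2 < (univ.filter (D.Rel a)).card).card : ℝ) ≤
      132 / k * Fintype.card (Up ι → ZMod 2) := by
  have h1 := add_le_add (mean_sys h D.u1 D.h1) (mean_sys h D.u2 D.h2)
  rw [← sum_add_distrib] at h1
  have h2 := (card_nsmul_le_sum (univ.filter fun a : Up ι → ZMod 2 =>
      k ^ 2 < (univ.filter (D.Rel a)).card) _ (k : ℝ) fun a ha => ?_).trans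
    ((sum_le_univ_sum_of_nonneg fun _ => by positivity).trans h1)
  · rw [div_mul_eq_mul_div, le_div_iff₀ (Nat.cast_pos.2 hk), ← nsmul_eq_mul]
    exact h2.trans_eq (by ring)
  have h3 := (mem_filter.1 ha).2.trans_le (card_rel a)
  norm_cast
  by_contra h4
  exact absurd h3 (not_lt.2 ((Nat.mul_le_mul (by omega) (by omega)).trans_eq (sq k).symm))

theorem bad_two (h : D.OK H) (K : ℕ) :
    ((univ.filter fun a : Up ι → ZMod 2 => ∃ x x', D.Rel a x ∧ D.Rel a x' ∧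
      ∃ v ∈ D.Wb K, v ∈ sp ![x.1.2, x'.1.2, x'.2.2]).card : ℝ) ≤
      8 ^ Fintype.card Gn * (2 ^ 22 * (D.Wb K).card * (1 / 2) ^ Fintype.card ι) *
        Fintype.card (Up ι → ZMod 2) := by
  have := genc_ne h
  refine (genc_union univ (fun (e : (Gn → ZMod 2) × (Gn → ZMod 2) × (Gn → ZMod 2)) _ =>
    rank_three (D.Wb K) (fun v hv => (mem_filter.1 hv).2.1) fun u =>
      ![D.cor (u 0) + D.lam e.1 + u 0 * D.lam D.u1 + 0,
        D.cor (u 1) + D.lam e.2.1 + u 1 * D.lam D.u1 + 0,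
        D.cor (u 2) + D.lam e.2.2 + u 2 * D.lam D.u2 + fun j => u 1 j * D.lam D.u3 j])
    fun a ha => ?_).trans_eq ?_
  · obtain ⟨x, x', h1, h2, h3⟩ := (mem_filter.1 ha).2
    refine ⟨(x.1.1, x'.1.1, x'.2.1), mem_univ _, mem_filter.2 ⟨mem_univ _, _, h3, fun k => ?_⟩⟩
    fin_cases k
    exacts [genc_sys h1.1, genc_sys h2.1, genc_sys h2.2]
  · rw [card_univ, Fintype.card_prod, Fintype.card_prod, Nat.cast_mul, Nat.cast_mul, genc_card,
      ← mul_pow, ← mul_pow, ← mul_assoc]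
    norm_num

theorem bad_three (h : D.OK H) :
    ((univ.filter fun a : Up ι → ZMod 2 => ∃ x e, D.Rel a x ∧ ¬ Cst x.1.2 ∧ ¬ Cst x.2.2 ∧
      ¬ Cst (x.1.2 + x.2.2) ∧
      ∀ j, x.2.2 j * D.lam (D.u1 + D.u2) j = D.lam e j + x.1.2 j * D.lam D.u3 j).card : ℝ) ≤
      8 ^ Fintype.card Gn * (64 * (1 / 2) ^ H) * Fintype.card (Up ι → ZMod 2) := by
  let S : Finset ((((Gn → ZMod 2) × (Gn → ZMod 2) × (Gn → ZMod 2)) × (ι → ZMod 2)) ×
    (ι → ZMod 2)) := univ.filter fun z => (¬ Cst z.1.2 ∧ ¬ Cst z.2 ∧ ¬ Cst (z.1.2 + z.2)) ∧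
      ∀ j, z.2 j * D.lam (D.u1 + D.u2) j = D.lam z.1.1.2.2 j + z.1.2 j * D.lam D.u3 j
  have h1 : (S.card : ℝ) ≤ _ := genc_prod (fun z => card_presc (D.lam (D.u1 + D.u2))
    (fun j => D.lam z.1.2.2 j + z.2 j * D.lam D.u3 j) (h.B1 _ h.ne12))
    fun z hz => mem_filter.2 ⟨mem_univ _, (mem_filter.1 hz).2.2⟩
  refine (genc_union S (fun z hz => rank_two (mem_filter.1 hz).2.1.1 (mem_filter.1 hz).2.1.2.1
    (mem_filter.1 hz).2.1.2.2 (D.cor z.1.2 + D.lam z.1.1.1 + z.1.2 * D.lam D.u1 + 0)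
    (D.cor z.2 + D.lam z.1.1.2.1 + z.2 * D.lam D.u2 + fun j => z.1.2 j * D.lam D.u3 j))
    fun a ha => ?_).trans ((mul_le_mul_of_nonneg_right h1 (by positivity)).trans_eq ?_)
  · obtain ⟨x, e, h2, h3, h4, h5, h6⟩ := (mem_filter.1 ha).2
    exact ⟨(((x.1.1, x.2.1, e), x.1.2), x.2.2), mem_filter.2 ⟨mem_univ _, ⟨h3, h4, h5⟩, h6⟩,
      mem_filter.2 ⟨mem_univ _, genc_sys h2.1, genc_sys h2.2⟩⟩
  · have h2 : (2 : ℝ) ^ Fintype.card ι * 2 ^ Fintype.card ι * (1 / 4) ^ Fintype.card ι = 1 := by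
      rw [← mul_pow, ← mul_pow]; norm_num
    have h3 : (2 : ℝ) ^ Fintype.card Gn * (2 ^ Fintype.card Gn * 2 ^ Fintype.card Gn) =
        8 ^ Fintype.card Gn := by
      rw [← mul_pow, ← mul_pow]; norm_num
    rw [Fintype.card_prod, Fintype.card_prod, Fintype.card_prod, Nat.cast_mul, Nat.cast_mul,
      Nat.cast_mul, genc_card Gn, genc_card ι, h3]
    linear_combination 8 ^ Fintype.card Gn * (64 * (1 / 2) ^ H) *
      (Fintype.card (Up ι → ZMod 2) : ℝ) * h2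

theorem gen_of (h : D.OK H) {K : ℕ} {a : Up ι → ZMod 2} (h1 : (univ.filter (D.Rel a)).card ≤ K)
    (h2 : ¬ ∃ x x', D.Rel a x ∧ D.Rel a x' ∧ ∃ v ∈ D.Wb K, v ∈ sp ![x.1.2, x'.1.2, x'.2.2])
    (h3 : ¬ ∃ x e, D.Rel a x ∧ ¬ Cst x.1.2 ∧ ¬ Cst x.2.2 ∧ ¬ Cst (x.1.2 + x.2.2) ∧
      ∀ j, x.2.2 j * D.lam (D.u1 + D.u2) j = D.lam e j + x.1.2 j * D.lam D.u3 j) :
    D.Gen K a := by
  have h7 : (2 : ZMod 2) = 0 := rfl
  have hs : ∀ (u : Fin 3 → ι → ZMod 2) (k : Fin 3), u k ∈ sp u :=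
    fun u k => Submodule.subset_span (Or.inr ⟨k, rfl⟩)
  refine ⟨h1, fun x x' hx hx' hc k => ?_, fun hu x hx hc => ?_⟩
  · by_contra h0
    have hv : Cst (x.1.2 + x'.2.2) := by
      by_contra hv
      refine h2 ⟨x, x', hx, hx', x.1.2 + x'.2.2, mem_filter.2 ⟨mem_univ _, hv, Or.inl ⟨k, ?_⟩⟩,
        add_mem (hs _ 0) (hs _ 2)⟩
      rw [one_div, inv_mul_eq_div]
      exact not_le.1 h0
    have hb : ¬ Cst x'.2.2 := fun hb => hc ⟨genc_cst_add hb (add_comm x.1.2 _ ▸ hv), hb⟩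
    have hW : ∀ e e', e' ≠ 0 → ¬ ∀ j, x'.2.2 j * D.lam e' j = D.lam e j := fun e e' he h4 =>
      h2 ⟨x, x', hx, hx', _, mem_filter.2 ⟨mem_univ _, hb, Or.inr ⟨e, e', he, h4⟩⟩, hs _ 2⟩
    obtain ⟨h4, h5⟩ := genc_cor h hv
    obtain ⟨e, he⟩ := h5 D.u1
    have h6 : ∀ j, x'.2.2 j * D.lam (D.u1 + D.u2) j =
        D.lam (x.1.1 + x'.2.1 + e) j + x'.1.2 j * D.lam D.u3 j := fun j => by
      have a1 := congrFun (LL_cst a hv) j
      have a2 := congrFun h4 j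
      have a3 := congrFun he j
      have a4 := hx.1.1 j
      simp only [LL_add, map_add, Pi.add_apply, Pi.mul_apply, Pi.zero_apply] at a1 a2 a3 a4 ⊢
      linear_combination a4 + hx'.2.1 j - a1 - a2 + a3 - (D.lam x.1.1 j + D.lam x'.2.1 j +
        x'.1.2 j * D.lam D.u3 j + x.1.2 j * D.lam D.u1 j) * h7
    by_cases c1 : Cst x'.1.2
    · obtain ⟨e', he'⟩ := (genc_cor h c1).2 D.u3
      refine hW (x.1.1 + x'.2.1 + e + e') _ h.ne12 fun j => ?_
      rw [h6, map_add _ _ e', ← he']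
      rfl
    by_cases c2 : Cst (x'.1.2 + x'.2.2)
    · obtain ⟨e', he'⟩ := (genc_cor h c2).2 D.u3
      refine hW (x.1.1 + x'.2.1 + e + e') _ h.ne3 fun j => ?_
      rw [map_add _ _ D.u3, map_add _ _ e', ← he']
      simp only [Pi.add_apply, Pi.mul_apply]
      linear_combination h6 j
    exact h3 ⟨x', _, hx', c1, hb, c2, h6⟩
  · by_contra h0
    obtain ⟨h4, h5⟩ := genc_cor h hc
    obtain ⟨e, he⟩ := h5 D.u2
    refine h2 ⟨x, x, hx, hx, _, mem_filter.2 ⟨mem_univ _, h0,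
      Or.inr ⟨x.2.1 + e, _, hu, fun j => ?_⟩⟩, hs _ 0⟩
    have a1 := hx.2.1 j
    have a3 := congrFun he j
    rw [LL_cst a hc, h4] at a1
    simp only [map_add, Pi.add_apply, Pi.mul_apply, Pi.zero_apply] at a1 a3 ⊢
    linear_combination a1 - a3 - (D.lam x.2.1 j + D.lam e j) * h7

end GD

theorem gen_abs {ε : ℝ} (hε : 0 < ε) : ∃ K C : ℕ, 0 < K ∧ ∀ (ι Gn Q : Type) [Fintype ι]
    [LinearOrder ι] [Fintype Gn] [Fintype Q] (D : GD ι Gn Q) (H : ℕ), D.OK H →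
    C * Fintype.card Gn ≤ H → ((univ.filter fun a : Up ι → ZMod 2 => ¬ D.Gen K a).card : ℝ) ≤
      ε * Fintype.card (Up ι → ZMod 2) := by
  obtain ⟨k, hk⟩ := exists_nat_gt (264 / ε)
  have hk0 : (0 : ℝ) < k := (by positivity : 0 < 264 / ε).trans hk
  have hk1 : 0 < k := Nat.cast_pos.1 hk0
  have hη : 0 < ε / 2 ^ 26 := by positivity
  obtain ⟨C, hC1, hC2⟩ := ((genc_lim (Real.exp_pos (-(1 / (8 * ((k ^ 2 : ℕ) : ℝ) ^ 4)))).le
    (Real.exp_lt_one_iff.2 (neg_lt_zero.2 (by positivity))) hη).and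
    (genc_lim (ρ := 1 / 2) (by norm_num) (by norm_num) hη)).exists
  refine ⟨k ^ 2, C, by positivity, fun ι Gn Q _ _ _ _ D H h hH => ?_⟩
  have hg : 0 < Fintype.card Gn :=
    Fintype.card_pos_iff.2 ⟨(Function.ne_iff.1 h.ne12).choose⟩
  have h1 := hC1 _ H hg hH
  have h2 := hC2 _ H hg hH
  rw [← Real.exp_nat_mul, mul_neg, mul_one_div] at h1
  have h3 : (8 : ℝ) ^ Fintype.card Gn ≤ 32 ^ Fintype.card Gn := by gcongr; norm_num
  have h4 : (8 : ℝ) ^ Fintype.card Gn * 4 ^ Fintype.card Gn = 32 ^ Fintype.card Gn := by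
    rw [← mul_pow]; norm_num
  have h5 : (2 : ℝ) ^ Fintype.card ι * (1 / 2) ^ Fintype.card ι = 1 := by
    rw [← mul_pow]; norm_num
  have h6 := mul_le_mul_of_nonneg_left (mul_le_mul_of_nonneg_right (GD.card_Wb h (k ^ 2))
    (show (0 : ℝ) ≤ (1 / 2) ^ Fintype.card ι by positivity))
    (show (0 : ℝ) ≤ 8 ^ Fintype.card Gn by positivity)
  rw [mul_assoc, h5, mul_one, mul_add, ← mul_assoc _ (4 ^ _), h4] at h6
  have h7 := mul_le_mul_of_nonneg_right h3 (Real.exp_pos (-(H / (8 * ((k ^ 2 : ℕ) : ℝ) ^ 4)))).le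
  have h8 := mul_le_mul_of_nonneg_right h3 (show (0 : ℝ) ≤ (1 / 2) ^ H by positivity)
  have h9 : 132 / (k : ℝ) ≤ ε / 2 := by
    rw [div_lt_iff₀ hε] at hk
    rw [div_le_iff₀ hk0]
    linarith
  refine (genc_or (S' := _ ∪ _) fun a ha => ?_).trans ((add_le_add (GD.bad_one h hk1)
    ((genc_or fun a ha => mem_union.1 ha).trans
      (add_le_add (GD.bad_two h (k ^ 2)) (GD.bad_three h)))).trans ?_)
  · by_contra h0
    simp only [mem_union, mem_filter, mem_univ, true_and, not_or, not_lt] at h0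
    exact (mem_filter.1 ha).2 (GD.gen_of h h0.1 h0.2.1 h0.2.2)
  · rw [← add_mul, ← add_mul]
    refine mul_le_mul_of_nonneg_right ?_ (Nat.cast_nonneg _)
    linarith

end Pool.Agent.Lib.MP_696deb_nt.Sa
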