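import Pool.Agent.Lib.MP_696deb_nt.Sa.PtrD
import Pool.Agent.Lib.MP_696deb_nt.Sm.PatA

/-! Pointer primes in one class carry compatible cochains. -/

set_option autoImplicit false

open Finset Function
open scoped Classical NumberTheorySymbols

namespace Pool.Agent.Lib.MP_696deb_nt.Sa
open Sm

variable {B : Box} {a : B.Mat} {n M : ℕ} {σ : Sx n → Fin B.r} {N C : ℕ}

theorem jac_G (h : B.Wf) (hσ : Injective σ) {x : Fin B.r × Fin (M + 1) → ℕ}
    (hx : x ∈ (sd B a σ N C M).G) (hi : SD.Inj x) (he : (sd B a σ N C M).AllE x) {i : Fin B.r}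
    (hj : ∀ j, i ≠ σ (.inl j)) (s : Fin (M + 1)) (k : Fin n × Fin M) :
    J(dx B σ x k | x (i, s)) = 1 := by
  have hx' := hx
  simp only [SD.G, Fintype.mem_piFinset] at hx'
  exact jac_dx h hσ (nice_of_G hσ hx hi) hj (hx' (i, s)) (fun j t => he (i, s) (_, t) (hj j)) k

theorem bar_fix (h : B.Wf) (hσ : Injective σ) {x : Fin B.r × Fin (M + 1) → ℕ}
    (hx : x ∈ (sd B a σ N C M).G) (hi : SD.Inj x) (he : (sd B a σ N C M).AllE x) {v : ℕ}
    (hv : v = 0 ∨ v ∈ B.Q0 ∨ ∃ j, j ∉ Set.range σ ∧ v = x (j, 0)) :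
    ∀ g ∈ Gv v, bar (dx B σ x) g = 0 := by
  have hn := nice_of_G hσ hx hi
  have hx' := hx
  simp only [SD.G, Fintype.mem_piFinset] at hx'
  intro g hg
  have key : v = 0 ∨ (v.Prime ∧ (v : ℤ) ∣ 30 * B.D0) → bar (dx B σ x) g = 0 := fun hv => by
    funext k
    have := h.chi_small (hn.1 k.1 0) (hn.1 k.1 k.2.succ) hv g hg
    rwa [← Nat.cast_mul] at this
  rcases hv with hv | hv | ⟨j, hj, rfl⟩
  · exact key (Or.inl hv)
  · obtain ⟨a1, a2, -⟩ := Nat.mem_primeFactors.1 hv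
    exact key (Or.inr ⟨a1, Int.natCast_dvd.2 (by rwa [Int.natAbs_mul])⟩)
  · have pp := h.prime _ _ (hx' (j, 0))
    rw [Gv_prime pp] at hg
    refine bar_dec (by rw [pl_p pp]; exact wf_ne_two h (hx' (j, 0))) (fun k => ?_) hg
    rw [pl_p pp]
    exact jac_G h hσ hx hi he (fun j' k => hj ⟨_, k.symm⟩) 0 k

theorem exists_idx {c : ℤ} (h0 : c ≠ 0) (hc : |c| ≤ C) {q : ℕ} (hq : q.Prime) (h : (q : ℤ) ∣ c) :
    ∃ k : Fin (Nat.log 2 C + 1), c.natAbs.primeFactorsList.getD k 0 = q := by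
  have c0 : c.natAbs ≠ 0 := Int.natAbs_ne_zero.2 h0
  obtain ⟨k, hk, e⟩ := List.getElem_of_mem
    ((Nat.mem_primeFactorsList c0).2 ⟨hq, Int.natCast_dvd.1 h⟩)
  have a1 := List.pow_card_le_prod c.natAbs.primeFactorsList 2 fun p hp =>
    (Nat.prime_of_mem_primeFactorsList hp).two_le
  rw [Nat.prod_primeFactorsList c0] at a1
  have a2 : c.natAbs ≤ C := by rwa [← Int.natCast_natAbs, Nat.cast_le] at hc
  have a3 := Nat.le_log_of_pow_le one_lt_two (a1.trans a2)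
  exact ⟨⟨k, by omega⟩, by rw [List.getD_eq_getElem _ _ hk, e]⟩

theorem fkit (h : B.Wf) (hσ : Injective σ) (hn : Num B σ N C M) {x : Fin B.r × Fin (M + 1) → ℕ}
    (hx : x ∈ (sd B a σ N C M).G) (hi : SD.Inj x) (he : (sd B a σ N C M).AllE x)
    (hs : (sd B a σ N C M).Same x) :
    FKit (prs B σ x) (B.D0 * ∏ j with j ∉ Set.range σ, (x (j, 0) : ℤ))
      fun s => fp B σ N C x (x (σ ia, s)) := by
  have hnc := nice_of_G hσ hx hi
  have hx' := hx
  simp only [SD.G, Fintype.mem_piFinset] at hx'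
  have ha : ∀ s, x (σ ia, s) ∈ B.X (σ ia) := fun s => hx' (_, s)
  have pa : ∀ s, (x (σ ia, s)).Prime := fun s => h.prime _ _ (ha s)
  have sp : ∀ s, Spec (dx B σ x) N C (x (σ ia, s)) (pd (dx B σ x) N C (x (σ ia, s))) := fun s =>
    spec_pd (a := a) h hσ hn hnc (ha s) fun v hv => he (σ ia, s) v fun k => hv (Or.inl k.symm)
  have ec : ∀ s s', (pd (dx B σ x) N C (x (σ ia, s))).2 = (pd (dx B σ x) N C (x (σ ia, s'))).2 :=
    fun s s' => congrArg (fun k : Kap B n M C => (k.1 : ℤ)) (hs s s')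
  have et : ∀ s s' t, fp B σ N C x (x (σ ia, s)) (tst B σ C x (pd (dx B σ x) N C (x (σ ia, s))).2 t) =
      fp B σ N C x (x (σ ia, s')) (tst B σ C x (pd (dx B σ x) N C (x (σ ia, s))).2 t) := by
    intro s s' t
    refine (congrArg (fun k : Kap B n M C => k.2 t) (hs s s')).trans ?_
    rw [ec s s']
    rfl
  have un : ∀ s (q : ℕ), q.Prime → q ≠ 2 → q ≠ x (σ ia, s) →
      ¬ (q : ℤ) ∣ (pd (dx B σ x) N C (x (σ ia, s))).2 → (∀ j t, q ≠ x (σ (.inl j), t)) →
      fp B σ N C x (x (σ ia, s)) (sig q) = 0 := by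
    intro s q hq h2 h3 h4 h5
    refine fn_ine (w := pl q) (by rwa [pl_p hq]) (sig_ine hq h2) (fun k => ?_) (sp s).2.2.2.2.1 ?_
    · rw [pl_p hq]
      intro hd
      rcases hq.dvd_mul.1 hd with k | k <;>
        exact h5 _ _ ((Nat.prime_dvd_prime_iff_eq hq (h.prime _ _ (hnc.1 _ _))).1 k)
    · rw [pl_p hq]
      intro hd
      rcases (Nat.prime_iff_prime_int.1 hq).dvd_or_dvd hd with k | k
      · exact h4 k
      · exact h3 ((Nat.prime_dvd_prime_iff_eq hq (pa s)).1 (Int.natCast_dvd_natCast.1 k))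
  have nd : ∀ s t, ¬ (x (σ ia, t) : ℤ) ∣ (pd (dx B σ x) N C (x (σ ia, s))).2 := fun s t k => by
    have a1 := Int.le_of_dvd (abs_pos.2 (sp s).2.2.1) ((dvd_abs _ _).2 k)
    have a2 := (sp s).2.2.2.1
    have a3 := hn.ha _ (ha t)
    omega
  refine ⟨fun s g g' γ => fn_mul (sp s).2.1 g g' γ, fun s => fn_sm, fun s s' v hv => ?_,
    fun s s' q hq h2 h3 => ?_, fun s t γ => ?_⟩
  · have hv' : v = 0 ∨ v ∈ B.Q0 ∨ ∃ j, j ∉ Set.range σ ∧ v = x (j, 0) := by
      rcases hv with hv | ⟨h1, h2⟩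
      · exact Or.inl hv
      rw [← mul_assoc] at h2
      rcases (Nat.prime_iff_prime_int.1 h1).dvd_or_dvd h2 with k | k
      · refine Or.inr (Or.inl (Nat.mem_primeFactors.2 ⟨h1, ?_, ?_⟩))
        · have := Int.natCast_dvd.1 k
          rwa [Int.natAbs_mul] at this
        · exact mul_ne_zero (by norm_num) (Int.natAbs_ne_zero.2 h.sqf.ne_zero)
      · obtain ⟨j, hj, k⟩ := (Prime.dvd_finsetProd_iff (Nat.prime_iff_prime_int.1 h1) _).1 k
        exact Or.inr (Or.inr ⟨j, (mem_filter.1 hj).2, (Nat.prime_dvd_prime_iff_eq h1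
          (h.prime _ _ (hx' (j, 0)))).1 (Int.natCast_dvd_natCast.1 k)⟩)
    refine fn_eq_dec (bar_fix h hσ hx hi he hv') (sp s).2.1 (sp s').2.1
      (tv_spec (hv.imp_right And.left)) fun i => ?_
    rcases hv' with rfl | k | ⟨j, hj, rfl⟩
    · exact et s s' (.inl (none, i))
    · exact et s s' (.inl (some ⟨v, k⟩, i))
    · simpa only [tst, if_neg hj, fp] using et s s' (.inr (.inl (j, i)))
  · by_cases k1 : (q : ℤ) ∣ (pd (dx B σ x) N C (x (σ ia, s))).2
    · obtain ⟨k, rfl⟩ := exists_idx (sp s).2.2.1 (sp s).2.2.2.1 hq k1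
      exact et s s' (.inr (.inr (.inr k)))
    by_cases k2 : ∃ j t, q = x (σ (.inl j), t)
    · obtain ⟨j, t, rfl⟩ := k2
      exact et s s' (.inr (.inr (.inl (j, t))))
    · have k3 : ∀ j t, q ≠ x (σ (.inl j), t) := fun j t k => k2 ⟨j, t, k⟩
      exact (un s q hq h2 (h3 s) k1 k3).trans (un s' q hq h2 (h3 s') (ec s s' ▸ k1) k3).symm
  · by_cases k : s = t
    · subst k
      simp only [true_and]
      have := fn_gen (w := pl (x (σ ia, s))) (d := dx B σ x)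
        (n := (pd (dx B σ x) N C (x (σ ia, s))).1) (c := (pd (dx B σ x) N C (x (σ ia, s))).2)
        (by rw [pl_p (pa s)]; exact wf_ne_two h (ha s)) (gen_sig (pa s) (wf_ne_two h (ha s)))
        (by rw [pl_p (pa s)]; exact jac_G h hσ hx hi he (fun j k => absurd (hσ k) (by simp)) s)
        (by rw [pl_p (pa s)]; exact (sp s).2.2.2.2.1) (by rw [pl_p (pa s)]; exact nd s s)
        (sp s).2.2.2.2.2 γ
      by_cases g0 : γ = 0
      · rw [if_pos g0] at this ⊢; exact this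
      · rw [if_neg g0] at this ⊢; exact this
    · rw [if_neg fun k' => k k'.1]
      refine congrFun (un s _ (pa t) (wf_ne_two h (ha t)) (fun e => k (hi _ _ _ e).symm) (nd s t)
        fun j u e => ?_) γ
      exact absurd (hσ (h.disj _ _ _ (ha t) (e ▸ hnc.1 j u))) (by simp)

end Pool.Agent.Lib.MP_696deb_nt.Sa
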