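import Pool.Agent.Lib.MP_696deb_nt.Sa.PtrD
import Pool.Agent.Lib.MP_696deb_nt.Sm.LBil

/-! The bilinear bound in a class of pointer primes. -/

set_option autoImplicit false

open Finset Function
open scoped Classical NumberTheorySymbols

namespace Pool.Agent.Lib.MP_696deb_nt.Sa
open Sm

variable {B : Box} {a : B.Mat} {n M : ℕ} {σ : Sx n → Fin B.r} {N C : ℕ}

theorem ptrb_sg (b : F2) : sg b = (sz b : ℝ) := by
  unfold sg sz
  split_ifs <;> simp

theorem ptrb_gen {K : Type} [Fintype K] (d : K → ℕ) (P R : Finset ℕ) (v : ℕ → (K → F2) → ℤ)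
    (c : ℤ) (N Rm : ℕ) (hv : ∀ p ∈ P, ∀ T, |v p T| ≤ N)
    (hP : ∀ p ∈ P, ∏ γ, al d (v p) γ = (c * p : ℤ))
    (hR : ∀ r ∈ R, r.Prime ∧ r ≠ 2 ∧ r ≤ Rm ∧ ∀ i, J(d i | r) = 1)
    (hc : ∀ p ∈ P, ∀ r ∈ R, ¬ (r : ℤ) ∣ c * p) {F : Finset (K → F2)} (hF : F.Nonempty)
    (U : Finset (K → F2)) (hU : ∀ γ, γ ∈ U) (t e : F2) (w : ℕ → ℕ → F2)
    (hw : ∀ p ∈ P, ∀ r ∈ R, w p r = ∑ γ ∈ F, fn d (v p) (frb r) γ +
      e * (∑ γ ∈ U, fn d (v p) (frb r) γ + (aleg r p + t)))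
    (α β : ℕ → ℝ) (hα : ∀ p, |α p| ≤ 1) (hβ : ∀ q, |β q| ≤ 1) :
    (∑ p ∈ P, ∑ r ∈ R, α p * β r * sg (w p r)) ^ 2 ≤
      P.card * ((2 * N + 1 : ℝ) ^ 2 ^ Fintype.card K * R.card + (R.card : ℝ) ^ 2 *
        (2 ^ Fintype.card K * (Rm : ℝ) ^ 2 * (2 * N + 1 : ℝ) ^ (2 ^ Fintype.card K - 1))) := by
  obtain rfl : U = univ := eq_univ_of_forall hU
  rcases R.eq_empty_or_nonempty with rfl | ⟨r0, hr0⟩
  · simp
  have h2 : ∀ r ∈ R, (pl r).p ≠ 2 ∧ ∀ i, J(d i | (pl r).p) = 1 := fun r hr => by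
    rw [pl_p (hR r hr).1]
    exact ⟨(hR r hr).2.1, (hR r hr).2.2.2⟩
  choose! ρ hρ using fun r (hr : r ∈ R) => exists_red (h2 r hr).1 (h2 r hr).2
  have k := lbil P R v N Rm hv (fun p hp p' hp' e => by
      have e1 : ((c * p : ℤ) : B2.Qbar) = (c * p' : ℤ) := by rw [← hP p hp, ← hP p' hp', e]
      have c0 : c ≠ 0 := fun z => hc p hp r0 hr0 (by rw [z, zero_mul]; exact dvd_zero _)
      exact_mod_cast mul_left_cancel₀ c0 (Int.cast_injective e1))
    (fun r => mat (ρ r)) (fun r hr => ⟨(hR r hr).1, (hR r hr).2.1, (hR r hr).2.2.1,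
      mat_inj (hR r hr).1 (hR r hr).2.1 fun i => by
        have := (hρ r hr i).2
        rwa [pl_p (hR r hr).1] at this⟩) hF α
    (fun r => β r * if e = 0 then 1 else (J(c | r) : ℝ) * sg t) hα fun r => by
      rw [abs_mul]
      refine mul_le_one₀ (hβ r) (abs_nonneg _) ?_
      split_ifs
      · exact abs_one.le
      · rw [abs_mul, abs_sg, mul_one]
        rcases jacobiSym.trichotomy c r with z | z | z <;> simp [z]
  rw [Fintype.card_fun, ZMod.card] at k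
  push_cast at k
  refine le_of_eq_of_le (congrArg (· ^ 2)
    (sum_congr rfl fun p hp => sum_congr rfl fun r hr => ?_)) k
  have rp := (hR r hr).1
  have f := fn_frob (h2 r hr).1 (φ := frb r)
    (by rw [pl_p rp]; exact (frb_spec rp (hR r hr).2.1).1) (h2 r hr).2 (fun i => (hρ r hr i).1)
    (hP p hp) (by rw [pl_p rp]; exact hc p hp r hr)
  rw [pl_p rp] at f
  have f1 : sg (∑ γ ∈ F, fn d (v p) (frb r) γ) = th (mat (ρ r)) F r (v p) := by
    rw [sg_sum, th]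
    exact prod_congr rfl fun γ _ => by rw [ptrb_sg, f.1]
  rw [hw p hp r hr, sg_add, f1]
  rcases cnt_two e with rfl | rfl
  · rw [zero_mul, sg_zero, if_pos rfl]
    ring
  · have f2 := sg_aleg rp (x := p) fun z => hc p hp r hr (z.mul_left c)
    have f3 : sg (aleg r p) * sg (aleg r p) = 1 := by
      rw [← sg_add, CharTwo.add_self_eq_zero, sg_zero]
    rw [one_mul, sg_add, sg_add, ptrb_sg (∑ γ, _), f.2, jacobiSym.mul_left, Int.cast_mul, ← f2,
      if_neg one_ne_zero]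
    linear_combination α p * β r * th (mat (ρ r)) F r (v p) * J(c | r) * sg t * f3

theorem lbil_raw (h : B.Wf) (hσ : Injective σ) (hn : Num B σ N C M) {Rm : ℕ}
    (hR : ∀ r ∈ B.X (σ ic), r ≤ Rm) {x : Fin B.r × Fin (M + 1) → ℕ} (hx : Nice B σ x)
    (k : Kap B n M C) {F : Finset (Gm n M)} (hF : F.Nonempty) (α β : ℕ → ℝ) (hα : ∀ p, |α p| ≤ 1)
    (hβ : ∀ q, |β q| ≤ 1) :
    (∑ p ∈ (sd B a σ N C M).K x k, ∑ r ∈ (sd B a σ N C M).R x,
      α p * β r * sg (∑ γ ∈ F, (sd B a σ N C M).w x p r γ)) ^ 2 ≤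
      (B.X (σ ia)).card * ((2 * N + 1 : ℝ) ^ 2 ^ (n * M) * (B.X (σ ic)).card +
        ((B.X (σ ic)).card : ℝ) ^ 2 *
          (2 ^ (n * M) * (Rm : ℝ) ^ 2 * (2 * N + 1 : ℝ) ^ (2 ^ (n * M) - 1))) := by
  have hac : σ ia ≠ σ ic := fun e => by simpa using hσ e
  obtain ⟨t, ht⟩ := EE_eq (a := a) h hac
  have hK : ∀ p ∈ (sd B a σ N C M).K x k, p ∈ B.X (σ ia) ∧
      Spec (dx B σ x) N C p (pd (dx B σ x) N C p) ∧ (pd (dx B σ x) N C p).2 = k.1.1 := fun p hp => by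
    obtain ⟨h1, h2, h3⟩ := mem_filter.1 hp
    exact ⟨h1, spec_pd h hσ hn hx h1 h2, congrArg (fun z : Kap B n M C => z.1.1) h3⟩
  have hr : ∀ r ∈ (sd B a σ N C M).R x, r ∈ B.X (σ ic) := fun r hr => (mem_filter.1 hr).1
  have key := ptrb_gen (dx B σ x) ((sd B a σ N C M).K x k) ((sd B a σ N C M).R x)
    (fun p => (pd (dx B σ x) N C p).1) k.1.1 N Rm (fun p hp => (hK p hp).2.1.1)
    (fun p hp => by rw [← (hK p hp).2.2]; exact (hK p hp).2.1.2.2.2.2.1)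
    (fun r hr' => ⟨h.prime _ r (hr r hr'), edge_ne_two h (hr r hr'), hR r (hr r hr'),
      jac_dx h hσ hx (fun j e => by simpa using hσ e) (hr r hr') fun j s =>
        (mem_filter.1 hr').2 (σ (.inl j), s) fun e => by
          rcases e with e | e <;> simpa using hσ e⟩)
    (fun p hp r hr' hd => by
      obtain ⟨h1, h2, h3⟩ := hK p hp
      rcases (Nat.prime_iff_prime_int.mp (h.prime _ r (hr r hr'))).dvd_or_dvd hd with e | e
      · have e1 := Int.le_abs_of_dvd (h3 ▸ h2.2.2.1) e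
        have e2 := h2.2.2.2.1
        have e3 := hn.hc r (hr r hr')
        rw [h3] at e2
        omega
      · exact edge_nd h hac.symm (hr r hr') h1 e)
    hF univ mem_univ t (if (0 : Gm n M) ∈ F then 1 else 0)
    (fun p r => ∑ γ ∈ F, (sd B a σ N C M).w x p r γ) (fun p hp r hr' => by
      rw [← ht p (hK p hp).1 r (hr r hr')]
      simp only [sd, fp, sum_add_distrib, sum_ite_eq']
      split_ifs
      · rw [one_mul]
      · rw [zero_mul]) α β hα hβ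
  rw [Fintype.card_prod, Fintype.card_fin, Fintype.card_fin] at key
  have c1 : (((sd B a σ N C M).K x k).card : ℝ) ≤ (B.X (σ ia)).card :=
    Nat.cast_le.2 (card_le_card fun p hp => (hK p hp).1)
  have c2 : (((sd B a σ N C M).R x).card : ℝ) ≤ (B.X (σ ic)).card :=
    Nat.cast_le.2 (card_le_card hr)
  refine key.trans ?_
  gcongr

end Pool.Agent.Lib.MP_696deb_nt.Sa
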