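import Pool.Agent.Lib.MP_696deb_nt.Sa.PtrB

/-! The numerical conditions for sampling. -/

set_option autoImplicit false

open Finset Function
open scoped Classical NumberTheorySymbols

namespace Pool.Agent.Lib.MP_696deb_nt.Sa
open Sm

/-- The bound for the cofactors. -/
def CC (k T : ℕ) : ℕ := (2 ^ k * (2 * T) ^ (2 * k)) ^ 2 ^ k

theorem kc_le (n M : ℕ) : ∃ e : ℕ, ∀ T R : ℕ, 2 ≤ T → 2 ^ R ≤ T → CC (n * M) T ≤ T ^ e ∧
    (2 * CC (n * M) T + 1) * 2 ^ (2 ^ (n * M) *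
      (3 * R + n * (M + 1) + (Nat.log 2 (CC (n * M) T) + 1))) ≤ T ^ e := by
  refine ⟨5 * (n * M) * 2 ^ (n * M) + 2 +
    (3 + n * (M + 1) + (5 * (n * M) * 2 ^ (n * M) + 1)) * 2 ^ (n * M), fun T R hT hR => ?_⟩
  have h1 : CC (n * M) T ≤ T ^ (5 * (n * M) * 2 ^ (n * M)) := by
    rw [pow_mul T, CC]
    refine Nat.pow_le_pow_left ?_ _
    calc _ ≤ T ^ (n * M) * (T * T) ^ (2 * (n * M)) := by gcongr
      _ = _ := by ring
  have h0 : 0 < CC (n * M) T := by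
    unfold CC
    positivity
  generalize CC (n * M) T = C, 5 * (n * M) * 2 ^ (n * M) = e at h1 h0 ⊢
  refine ⟨h1.trans (Nat.pow_le_pow_right (by omega) (by omega)), ?_⟩
  rw [pow_add T (e + 2), mul_comm (2 ^ (n * M)), pow_mul 2, pow_mul T]
  refine Nat.mul_le_mul ?_ (Nat.pow_le_pow_left ?_ _)
  · calc _ ≤ C * (2 * 2) := by omega
      _ ≤ T ^ e * (T * T) := by gcongr
      _ = _ := by ring
  · have h2 := Nat.pow_log_le_self 2 h0.ne'
    calc _ = (2 ^ R) ^ 3 * 2 ^ (n * (M + 1)) * (2 ^ Nat.log 2 C * 2) := by ring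
      _ ≤ T ^ 3 * T ^ (n * (M + 1)) * (T ^ e * T) := by
        have := h2.trans h1
        gcongr
      _ = _ := by ring

theorem exists_root {g : ℕ} (hg : 0 < g) {t : ℕ} (ht : 0 < t) :
    ∃ N : ℕ, 0 < N ∧ N ^ g ≤ t ∧ t < (N + 1) ^ g := by
  have ex : ∃ b, t < (b + 1) ^ g := ⟨t, (Nat.lt_succ_self t).trans_le (Nat.le_self_pow hg.ne' _)⟩
  have h0 : 0 < Nat.find ex := (Nat.find_pos ex).2 (by simp; omega)
  refine ⟨_, h0, ?_, Nat.find_spec ex⟩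
  have := Nat.find_min ex (Nat.sub_one_lt h0.ne')
  rwa [Nat.sub_add_cancel h0, not_lt] at this

/-- The final inequality for the bilinear bound in a class. -/
theorem lb_num (g e : ℕ) (hg : 0 < g) : ∃ c : ℕ, ∀ (T tc ta Na Nc S : ℝ) (N : ℕ), 2 ≤ T →
    T ^ c ≤ tc → tc ^ c ≤ ta → ta ≤ T * Na → tc ≤ T * Nc → 0 < N → (N : ℝ) ^ g ≤ 2 * ta →
    2 * ta < (N + 1) ^ g →
    S ^ 2 ≤ Na * ((2 * N + 1) ^ g * Nc + Nc ^ 2 * (g * (2 * tc) ^ 2 * (2 * N + 1) ^ (g - 1))) →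
    T ^ e * |S| ≤ Na * Nc := by
  obtain ⟨g, rfl⟩ : ∃ k, g = k + 1 := ⟨g - 1, by omega⟩
  refine ⟨(3 * (g + 1) + 2 * e + 7) * (g + 1),
    fun T tc ta Na Nc S N hT h1 h2 h3 h4 hN h5 h6 h7 => ?_⟩
  have T0 : 0 < T := by linarith
  have T1 : 1 ≤ T := by linarith
  have N1 : (1 : ℝ) ≤ N := by exact_mod_cast hN
  have k1 : T ^ (2 * (g + 1) + 2 * e + 4) ≤ tc :=
    (pow_le_pow_right₀ T1 (by nlinarith)).trans h1
  have k2 : T ≤ tc := (le_self_pow₀ T1 (by omega)).trans k1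
  have c0 : 0 < tc := by linarith
  have a0 : 0 < ta := (pow_pos c0 _).trans_le h2
  have Na0 : 0 < Na := (mul_pos_iff_of_pos_left T0).1 (a0.trans_le h3)
  have Nc0 : 0 < Nc := (mul_pos_iff_of_pos_left T0).1 (c0.trans_le h4)
  have k3 : (2 * N + 1 : ℝ) ^ (g + 1) ≤ 3 ^ (g + 1) * (2 * (T * Na)) :=
    calc _ ≤ (3 * N : ℝ) ^ (g + 1) := by gcongr; linarith
      _ = 3 ^ (g + 1) * (N : ℝ) ^ (g + 1) := mul_pow _ _ _
      _ ≤ _ := by gcongr; linarith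
  have k4 : ∀ x : ℝ, 2 ≤ x → (3 : ℝ) ^ (g + 1) ≤ x ^ (2 * (g + 1)) := fun x hx => by
    rw [pow_mul]
    exact pow_le_pow_left₀ (by norm_num) (by nlinarith) _
  have k5 : 4 * 3 ^ (g + 1) * T ^ (2 * e + 1) ≤ Nc := by
    refine le_of_mul_le_mul_left (le_trans ?_ (k1.trans h4)) T0
    calc _ = T * (2 * 2 * 3 ^ (g + 1) * T ^ (2 * e + 1)) := by ring
      _ ≤ T * (T * T * T ^ (2 * (g + 1)) * T ^ (2 * e + 1)) := by gcongr; exact k4 T hT
      _ = _ := by ring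
  have k6 : 16 * ((g + 1 : ℕ) : ℝ) * 3 ^ (g + 1) * T ^ (2 * e + 1) * tc ^ 2 ≤ 2 * N + 1 := by
    have t2 : 2 ≤ tc := hT.trans k2
    have e1 : ((g + 1 : ℕ) : ℝ) ≤ 2 ^ (g + 1) := by exact_mod_cast Nat.lt_two_pow_self.le
    have e2 : tc ^ (3 * (g + 1) + 2 * e + 7) < N + 1 :=
      lt_of_pow_lt_pow_left₀ (g + 1) (by linarith) (by rw [← pow_mul]; linarith)
    calc _ = 2 ^ 4 * ((g + 1 : ℕ) : ℝ) * 3 ^ (g + 1) * T ^ (2 * e + 1) * tc ^ 2 := by ring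
      _ ≤ tc ^ 4 * tc ^ (g + 1) * tc ^ (2 * (g + 1)) * tc ^ (2 * e + 1) * tc ^ 2 := by
        gcongr
        exacts [e1.trans (by gcongr), k4 tc t2]
      _ = tc ^ (3 * (g + 1) + 2 * e + 7) := by ring
      _ ≤ _ := by linarith
  have k7 : 2 * (T ^ (2 * e) * (2 * N + 1 : ℝ) ^ (g + 1)) ≤ Na * Nc :=
    calc _ ≤ 2 * (T ^ (2 * e) * (3 ^ (g + 1) * (2 * (T * Na)))) := by gcongr
      _ = Na * (4 * 3 ^ (g + 1) * T ^ (2 * e + 1)) := by ring
      _ ≤ _ := by gcongr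
  have k8 : 2 * (T ^ (2 * e) * (((g + 1 : ℕ) : ℝ) * (2 * tc) ^ 2 * (2 * N + 1 : ℝ) ^ g)) ≤ Na := by
    refine le_of_mul_le_mul_left ?_ (show (0 : ℝ) < 2 * N + 1 by linarith)
    calc _ = 8 * ((g + 1 : ℕ) : ℝ) * T ^ (2 * e) * tc ^ 2 * (2 * N + 1 : ℝ) ^ (g + 1) := by ring
      _ ≤ 8 * ((g + 1 : ℕ) : ℝ) * T ^ (2 * e) * tc ^ 2 * (3 ^ (g + 1) * (2 * (T * Na))) := by gcongr
      _ = 16 * ((g + 1 : ℕ) : ℝ) * 3 ^ (g + 1) * T ^ (2 * e + 1) * tc ^ 2 * Na := by ring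
      _ ≤ _ := by gcongr
  rw [Nat.add_sub_cancel] at h7
  refine (pow_le_pow_iff_left₀ (by positivity) (by positivity) two_ne_zero).1 ?_
  have k9 := mul_le_mul_of_nonneg_left h7 (pow_nonneg T0.le (2 * e))
  have l1 := mul_le_mul_of_nonneg_left k7 (mul_pos Na0 Nc0).le
  have l2 := mul_le_mul_of_nonneg_left k8 (mul_pos Na0 (pow_pos Nc0 2)).le
  rw [mul_pow, sq_abs, ← pow_mul, mul_comm e]
  nlinarith

theorem ok_main (n M e : ℕ) (hn : 1 ≤ n) : ∃ c : ℕ, ∀ B : Box, B.Hyp c → ∀ (a : B.Mat)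
    (σ : Sx n → Fin B.r), Injective σ → (∀ j, σ (Sum.inl j) ∈ B.I 0) → σ ic ∈ B.I 1 →
    σ ia ∈ B.I 2 → ∃ N C : ℕ, Num B σ N C M ∧ (sd B a σ N C M).OK ((1 / Lm B) ^ e) := by
  obtain ⟨e2, he2⟩ := kc_le n M
  obtain ⟨c1, hc1⟩ := bil_Lm e
  obtain ⟨m, hm⟩ := bil_box
  obtain ⟨c2, hc2⟩ := lb_num (2 ^ (n * M)) (e + e2) (by positivity)
  refine ⟨c1 + c2 + (e2 + m + e) * 36 + 1, fun B h a σ hσ h0 h1 h2 => ?_⟩
  obtain ⟨j0, -, hj⟩ := exists_max_image univ (fun j => B.t (σ (.inl j))) ⟨⟨0, hn⟩, mem_univ _⟩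
  have o1 := fun c hc => ((h.mono (c := c) hc).ord 0 1 (by decide) _ (h0 j0) _ h1).2
  have o2 := fun c hc => ((h.mono (c := c) hc).ord 1 2 (by decide) _ h1 _ h2).2
  have l1 : Lm B ≤ B.t (σ (.inl j0)) := by simpa using Lm_pow_le (h.mono (c := 1) (by omega)) _
  generalize B.t (σ (.inl j0)) = T at hj o1 l1
  have l2 := two_le_Lm h
  have l0 : 0 < Lm B := by linarith
  have T2 : (2 : ℝ) ≤ T := l2.trans l1
  have T1 : (1 : ℝ) ≤ T := by linarith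
  have o3 : B.t (σ ic) ≤ B.t (σ ia) := by simpa using o2 1 (by omega)
  obtain ⟨k1, k2⟩ := he2 T (B.r + B.k0) (by exact_mod_cast T2) (by
    have : (2 : ℝ) ^ (B.r + B.k0) ≤ T :=
      ((pow_le_pow_right₀ one_le_two (by nlinarith)).trans (pow_le_Lm h)).trans l1
    exact_mod_cast this)
  rw [← card_Kap] at k2
  have k3 : (Fintype.card (Kap B n M (CC (n * M) T)) : ℝ) ≤ (T : ℝ) ^ e2 := by exact_mod_cast k2
  have k4 := k1.trans (o1 e2 (by omega))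
  have tc : ∀ j, (B.t j : ℝ) ≤ T * (B.X j).card := fun j =>
    (t_le_card h j).trans (mul_le_mul_of_nonneg_right l1 (Nat.cast_nonneg _))
  have a0 : 0 < B.t (σ ia) := by
    have := (Lm_pow_le h (σ ia)).trans_lt' (by positivity)
    exact_mod_cast this
  obtain ⟨N, n0, n1, n2⟩ := exists_root (g := 2 ^ (n * M)) (t := 2 * B.t (σ ia)) (by positivity)
    (by omega)
  have hnum : Num B σ N (CC (n * M) T) M := by
    refine ⟨fun p hp => (h.rng _ p hp).2.trans_lt n2, fun x hx => ?_,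
      fun p hp => (k4.trans o3).trans_lt (h.rng _ p hp).1, fun p hp => k4.trans_lt (h.rng _ p hp).1⟩
    have b : ∀ j s, x (σ (.inl j), s) ≤ 2 * T := fun j s =>
      (h.rng _ _ (hx.1 j s)).2.trans (Nat.mul_le_mul_left 2 (hj j (mem_univ _)))
    refine Nat.pow_le_pow_left (Nat.mul_le_mul_left _ ((prod_le_pow_card _ _ ((2 * T) ^ 2)
      fun i _ => ?_).trans (by simp [pow_mul]))) _
    rw [sq]
    exact Nat.mul_le_mul (b _ _) (b _ _)
  have fin : ∀ u v : ℝ, 0 ≤ u → (T : ℝ) ^ (e + e2) * u ≤ v →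
      (Fintype.card (Kap B n M (CC (n * M) T)) : ℝ) * u ≤ (1 / Lm B) ^ e * v := fun u v hu huv => by
    rw [one_div_pow, one_div, ← div_eq_inv_mul, le_div_iff₀ (by positivity)]
    refine le_trans ?_ huv
    calc _ ≤ (T : ℝ) ^ e2 * u * (T : ℝ) ^ e := by gcongr
      _ = _ := by ring
  refine ⟨N, _, hnum, fun k => absurd (hσ k) (by simp), EE_sym, sd_dep hσ, by positivity,
    hc1 B a (h.mono (by omega)), fun α β hα hβ => ?_, fun j => ?_, ?_, sd_wsum,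
    fun x hx hi _ k F hF α β hα hβ => ?_⟩
  · have b1 : ((T : ℝ) ^ (e2 + m + e)) ^ 36 ≤ B.t (σ ic) := by
      rw [← pow_mul]
      exact_mod_cast o1 _ (by omega)
    have b2 := hm B a _ h (σ ia) (σ ic) (fun k => absurd (hσ k) (by simp)) _ (by positivity)
      (b1.trans (Nat.cast_le.2 o3)) b1 α β hα hβ
    rw [mul_assoc]
    refine fin _ _ (abs_nonneg _) ((mul_le_mul_of_nonneg_left b2 (by positivity)).trans ?_)
    rw [mul_assoc, ← mul_assoc]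
    refine mul_le_of_le_one_left (by positivity) ?_
    rw [← mul_div_assoc, div_le_one (by positivity)]
    calc _ ≤ (T : ℝ) ^ (e + e2) * (T : ℝ) ^ m := by gcongr
      _ = (T : ℝ) ^ (e2 + m + e) := by ring
      _ ≤ _ := le_self_pow₀ (one_le_pow₀ T1) (by norm_num)
  · rw [one_div_pow, one_div, ← div_eq_inv_mul, le_div_iff₀ (by positivity), one_mul]
    refine le_of_mul_le_mul_left (le_trans ?_ (t_le_card h j)) l0
    rw [← pow_succ']
    exact Lm_pow_le (h.mono (by omega)) j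
  · rw [← mul_one (Fintype.card _ : ℝ)]
    refine fin _ _ zero_le_one (le_of_mul_le_mul_left (le_trans ?_ (tc _)) (by linarith))
    rw [mul_one, ← pow_succ']
    exact_mod_cast (o1 _ (by omega)).trans o3
  · rw [mul_assoc]
    refine fin _ _ (abs_nonneg _) (hc2 T (B.t (σ ic)) (B.t (σ ia)) _ _ _ N T2
      (by exact_mod_cast o1 _ (by omega)) (by exact_mod_cast o2 _ (by omega)) (tc _) (tc _) n0
      (by exact_mod_cast n1) (by exact_mod_cast n2) ?_)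
    have := lbil_raw (a := a) h.wf hσ hnum (Rm := 2 * B.t (σ ic)) (fun r hr => (h.rng _ r hr).2)
      (nice_of_G0 hσ hx hi) k hF α β hα hβ
    push_cast at this ⊢
    exact this

end Pool.Agent.Lib.MP_696deb_nt.Sa
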