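import Pool.Agent.Lib.MP_696deb_nt.Sa.Edge
import Pool.Agent.Lib.MP_696deb_nt.Sa.Lab
import Pool.Agent.Lib.MP_696deb_nt.Sm.ThueB

/-! Classes of pointer primes. -/

set_option autoImplicit false

open Finset Function
open scoped Classical NumberTheorySymbols

namespace Pool.Agent.Lib.MP_696deb_nt.Sa
open Sm

/-- A small number of the multiquadratic field above `p`, with its cofactor. -/
def Spec {K : Type} [Fintype K] (d : K → ℕ) (N C p : ℕ) (u : ((K → F2) → ℤ) × ℤ) : Prop :=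
  (∀ T, |u.1 T| ≤ N) ∧ (∀ γ, al d u.1 γ ≠ 0) ∧ u.2 ≠ 0 ∧ |u.2| ≤ C ∧
    ∏ γ, al d u.1 γ = (u.2 * p : ℤ) ∧ nrm p (al d u.1 0) < 1

noncomputable def pd {K : Type} [Fintype K] (d : K → ℕ) (N C p : ℕ) : ((K → F2) → ℤ) × ℤ :=
  if h : ∃ u, Spec d N C p u then h.choose else 0

theorem pd_mem {K : Type} [Fintype K] (d : K → ℕ) (N C p : ℕ) :
    (pd d N C p).2 ∈ Icc (-(C : ℤ)) C := by
  unfold pd
  split_ifs with h
  · exact mem_Icc.2 (abs_le.1 h.choose_spec.2.2.2.1)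
  · simp

/-- Test elements of a decomposition group. -/
noncomputable def tv (v : ℕ) : Fin 3 → GQ := if v = 0 then fun _ => cc else (exists_test (pl v)).choose

variable (B : Box) (a : B.Mat) {n M : ℕ} (σ : Sx n → Fin B.r) (N C : ℕ)

def prs (x : Fin B.r × Fin (M + 1) → ℕ) (i : Sx n) (s : Fin (M + 1)) : ℕ := x (σ i, s)

def dx (x : Fin B.r × Fin (M + 1) → ℕ) : Fin n × Fin M → ℕ := dd (uq (prs B σ x))

abbrev Tau (n M C : ℕ) : Type :=
  (B.Sg × Fin 3) ⊕ (Fin B.r × Fin 3) ⊕ (Fin n × Fin (M + 1)) ⊕ Fin (Nat.log 2 C + 1)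

noncomputable def tst (x : Fin B.r × Fin (M + 1) → ℕ) (c : ℤ) : Tau B n M C → GQ
  | .inl (g, i) => tv (g.elim 0 fun q => (q : ℕ)) i
  | .inr (.inl (j, i)) => if j ∈ Set.range σ then 1 else tv (x (j, 0)) i
  | .inr (.inr (.inl (j, s))) => sig (x (σ (.inl j), s))
  | .inr (.inr (.inr k)) => sig (c.natAbs.primeFactorsList.getD k 0)

def Kap (n M C : ℕ) : Type := (Icc (-(C : ℤ)) C : Finset ℤ) × (Tau B n M C → Gm n M → F2)

noncomputable instance (n M C : ℕ) : Fintype (Kap B n M C) :=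
  @Fintype.ofFinite _ (by unfold Kap; infer_instance)

noncomputable def fp (x : Fin B.r × Fin (M + 1) → ℕ) (p : ℕ) : GQ → Gm n M → F2 :=
  fn (dx B σ x) (pd (dx B σ x) N C p).1

noncomputable def sd (M : ℕ) : SD (Fin B.r) (Gm n M) (Kap B n M C) (M + 1) where
  X := B.X
  E := EE B a
  ia := σ ia
  ic := σ ic
  cls x p := (⟨(pd (dx B σ x) N C p).2, pd_mem _ _ _ _⟩,
    fun t => fp B σ N C x p (tst B σ C x (pd (dx B σ x) N C p).2 t))
  w x p r γ := fp B σ N C x p (frb r) γ +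
    if γ = 0 then ∑ γ', fp B σ N C x p (frb r) γ' + EE B a (σ ia) (σ ic) p r else 0

/-- The small primes of the grid are distinct members of their sets. -/
def Nice (x : Fin B.r × Fin (M + 1) → ℕ) : Prop :=
  (∀ j s, x (σ (.inl j), s) ∈ B.X (σ (.inl j))) ∧
    ∀ j s s', x (σ (.inl j), s) = x (σ (.inl j), s') → s = s'

/-- The numerical conditions on the two bounds. -/
structure Num (M : ℕ) : Prop where
  hN : ∀ p ∈ B.X (σ ia), p < (N + 1) ^ 2 ^ (n * M)
  hC : ∀ x : Fin B.r × Fin (M + 1) → ℕ, Nice B σ x →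
    (2 ^ (n * M) * ∏ i, dx B σ x i) ^ 2 ^ (n * M) ≤ C
  ha : ∀ p ∈ B.X (σ ia), C < p
  hc : ∀ r ∈ B.X (σ ic), C < r

variable {B a σ N C}

theorem wf_ne_two (h : B.Wf) {j : Fin B.r} {p : ℕ} (hp : p ∈ B.X j) : p ≠ 2 := by
  rintro rfl
  exact h.cop j 2 hp ⟨15 * B.D0, by push_cast; ring⟩

theorem tv_spec {v : ℕ} (hv : v = 0 ∨ v.Prime) (χ : GQ → F2) (h1 : B2.Sm (Gv v) χ)
    (h2 : B2.IsHom (Gv v) χ) (h3 : ∀ i, χ (tv v i) = 0) : ∀ g ∈ Gv v, χ g = 0 := by
  rcases hv with rfl | hv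
  · have a0 : χ cc = 0 := by simpa [tv] using h3 0
    have a1 : χ 1 = 0 := by simpa using h2 1 (one_mem _) 1 (one_mem _)
    intro g hg
    rw [Gv_zero] at hg
    obtain ⟨k, rfl⟩ := Subgroup.mem_zpowers_iff.1 hg
    have a2 : cc ^ (2 : ℤ) = 1 := by rw [zpow_two, B2.cc_mul_cc]
    obtain ⟨j, rfl | rfl⟩ := Int.even_or_odd' k
    · rwa [zpow_mul, a2, one_zpow]
    · rwa [zpow_add, zpow_mul, a2, one_zpow, one_mul, zpow_one]
  · rw [Gv_prime hv] at h1 h2 ⊢
    refine (exists_test (pl v)).choose_spec.2 χ h1 h2 fun i => ?_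
    simpa only [tv, if_neg hv.ne_zero] using h3 i

theorem not_In (hσ : Injective σ) (j : Fin n) (s : Fin (M + 1)) :
    ¬ (sd B a σ N C M).In (σ (.inl j), s) := by
  rintro (h | h) <;> exact absurd (hσ h) (by simp)

theorem sd_dep (hσ : Injective σ) (x x' : Fin B.r × Fin (M + 1) → ℕ)
    (h : ∀ v, ¬ (sd B a σ N C M).In v → x v = x' v) :
    (sd B a σ N C M).cls x = (sd B a σ N C M).cls x' ∧
      (sd B a σ N C M).w x = (sd B a σ N C M).w x' := by
  have e1 : dx B σ x = dx B σ x' := by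
    funext k
    simp only [dx, dd, prs, h _ (not_In hσ _ _)]
  have e2 : fp B σ N C x = fp B σ N C x' := by
    funext p
    simp only [fp, e1]
  have e3 : tst B σ C x = tst B σ C x' := by
    funext c t
    rcases t with ⟨g, i⟩ | ⟨j, i⟩ | ⟨j, s⟩ | k
    · rfl
    · simp only [tst]
      split_ifs with hj
      · rfl
      · rw [h (j, 0) (by rintro (k | k) <;> exact hj ⟨_, k.symm⟩)]
    · simp only [tst, h _ (not_In hσ _ _)]
    · rfl
  constructor
  · funext p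
    simp only [sd, e1, e2, e3]
  · funext p r γ
    simp only [sd, e2]

theorem sd_wsum (x : Fin B.r × Fin (M + 1) → ℕ) (p r : ℕ) :
    ∑ γ, (sd B a σ N C M).w x p r γ = EE B a (σ ia) (σ ic) p r := by
  simp only [sd, sum_add_distrib, sum_ite_eq', mem_univ, if_true]
  rw [← add_assoc, CharTwo.add_self_eq_zero, zero_add]

theorem nice_of_G (hσ : Injective σ) {x : Fin B.r × Fin (M + 1) → ℕ}
    (h : x ∈ (sd B a σ N C M).G) (hi : SD.Inj x) : Nice B σ x := by
  simp only [SD.G, Fintype.mem_piFinset] at h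
  exact ⟨fun j s => h (_, s), fun j => hi _⟩

theorem nice_of_G0 (hσ : Injective σ) {x : Fin B.r × Fin (M + 1) → ℕ}
    (h : x ∈ (sd B a σ N C M).G0) (hi : (sd B a σ N C M).InjO x) : Nice B σ x := by
  simp only [SD.G0, Fintype.mem_piFinset] at h
  refine ⟨fun j s => ?_, fun j s s' => hi _ s s' (fun k => not_In (a := a) (N := N) (C := C) hσ j s
    (Or.inl k)) fun k => not_In (a := a) (N := N) (C := C) hσ j s (Or.inr k)⟩
  have := h (σ (.inl j), s)
  rwa [if_neg (not_In hσ j s)] at this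

theorem nice_inj (h : B.Wf) (hσ : Injective σ) {x : Fin B.r × Fin (M + 1) → ℕ} (hx : Nice B σ x)
    {j j' : Fin n} {s s' : Fin (M + 1)} (e : x (σ (.inl j), s) = x (σ (.inl j'), s')) :
    j = j' ∧ s = s' := by
  obtain rfl : j = j' := Sum.inl_injective (hσ (h.disj _ _ _ (hx.1 j s) (e ▸ hx.1 j' s')))
  exact ⟨rfl, hx.2 j s s' e⟩

theorem surj_dx (h : B.Wf) (hσ : Injective σ) {x : Fin B.r × Fin (M + 1) → ℕ} (hx : Nice B σ x) :
    Surjective (bar (dx B σ x)) :=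
  bar_surj (fun k : Fin n × Fin M => x (σ (.inl k.1), 0)) (fun k => x (σ (.inl k.1), k.2.succ))
    (fun _ => h.prime _ _ (hx.1 _ _)) (fun _ => h.prime _ _ (hx.1 _ _))
    (fun _ _ e => Prod.ext (nice_inj h hσ hx e).1 (Fin.succ_injective _ (nice_inj h hσ hx e).2))
    fun _ _ e => Fin.succ_ne_zero _ (nice_inj h hσ hx e).2.symm

theorem jac_dx (h : B.Wf) (hσ : Injective σ) {x : Fin B.r × Fin (M + 1) → ℕ} (hx : Nice B σ x)
    {i : Fin B.r} (hi : ∀ j, i ≠ σ (.inl j)) {p : ℕ} (hp : p ∈ B.X i)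
    (hc : ∀ j s, EE B a i (σ (.inl j)) p (x (σ (.inl j), s)) = 0) (k : Fin n × Fin M) :
    J(dx B σ x k | p) = 1 :=
  aleg_pair h (hi k.1) hp (hx.1 _ _) (hx.1 _ _) (hc _ _) (hc _ _)

theorem spec_pd (h : B.Wf) (hσ : Injective σ) (hn : Num B σ N C M)
    {x : Fin B.r × Fin (M + 1) → ℕ} (hx : Nice B σ x) {p : ℕ} (hp : p ∈ B.X (σ ia))
    (hc : (sd B a σ N C M).Comp x (σ ia) p) :
    Spec (dx B σ x) N C p (pd (dx B σ x) N C p) := by
  have pp := h.prime _ _ hp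
  have g0 : 2 ^ (n * M) ≠ 0 := by positivity
  have ex : ∃ b, p < (b + 1) ^ 2 ^ (n * M) := ⟨N, hn.hN p hp⟩
  have b1 : Nat.find ex ^ 2 ^ (n * M) ≤ p := by
    rcases Nat.eq_zero_or_pos (Nat.find ex) with k | k
    · rw [k, zero_pow g0]; exact Nat.zero_le _
    · have := Nat.find_min ex (Nat.sub_one_lt k.ne')
      rwa [Nat.sub_add_cancel k, not_lt] at this
  have b2 : Nat.find ex ≤ N := Nat.find_min' ex (hn.hN p hp)
  have ck : Fintype.card (Fin n × Fin M) = n * M := by simp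
  obtain ⟨u, c, c1, c2, c3, c4, c5, c6⟩ := exists_ptr (w := pl p) (d := dx B σ x) (B := Nat.find ex)
    (by rw [pl_p pp]; exact wf_ne_two h hp) (surj_dx h hσ hx)
    (by
      rw [pl_p pp]
      exact jac_dx h hσ hx (fun j k => absurd (hσ k) (by simp)) hp fun j s => hc _ (not_In hσ j s))
    (by rwa [pl_p pp, ck]) (by rw [pl_p pp, ck]; exact Nat.find_spec ex)
  rw [ck] at c4
  rw [pl_p pp] at c5
  have : ∃ u, Spec (dx B σ x) N C p u := ⟨(u, c), fun T => (c1 T).trans (Nat.cast_le.2 b2), c2, c3,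
    c4.trans (Nat.cast_le.2 (hn.hC x hx)), c5, c6⟩
  rw [pd, dif_pos this]
  exact this.choose_spec

theorem label_eq (hn : 1 ≤ n) (x : Fin B.r × Fin (M + 1) → ℕ) :
    label (prs B σ x) (fun s => fp B σ N C x (x (σ ia, s))) = lab ((sd B a σ N C M).pat x) := by
  refine Eq.trans ?_ (lab_congr hn (π := fun e =>
    fp B σ N C x (x (σ ia, e.1)) (frb (x (σ ic, e.2.1))) e.2.2) fun s t γ h => ?_)
  · rfl
  · simp only [SD.pat, sd, if_neg h, add_zero]

theorem card_Kap : Fintype.card (Kap B n M C) = (2 * C + 1) *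
    2 ^ (2 ^ (n * M) * (3 * (B.r + B.k0) + n * (M + 1) + (Nat.log 2 C + 1))) := by
  rw [Fintype.card_eq_nat_card, Kap, Nat.card_prod, Nat.card_fun, Nat.card_fun, ← pow_mul]
  congr 1
  · simp only [Nat.card_eq_fintype_card, Fintype.card_coe, Int.card_Icc]
    omega
  · simp only [Nat.card_eq_fintype_card, ZMod.card, Fintype.card_pi, Fintype.card_sum,
      Fintype.card_prod, Fintype.card_fin, Fintype.card_option, Fintype.card_coe, prod_const,
      card_univ, Box.k0]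
    congr 2
    ring

end Pool.Agent.Lib.MP_696deb_nt.Sa
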